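import Mathlib

/-!
# Binary cubics: definitions and exact statements of the algebraic pieces (helper43)
-/

set_option autoImplicit false
set_option linter.unusedVariables false

namespace Pool.Agent.K6.H43.TC

/-- the Hessian covariant of the binary cubic `c₀ + c₁ t + c₂ t² + c₃ t³` at `t = 0` -/
def Hc {R : Type*} [CommRing R] (c₀ c₁ c₂ : R) : R := c₁ ^ 2 - 3 * c₀ * c₂

/-- the cubic covariant at `t = 0` -/
def Gc {R : Type*} [CommRing R] (c₀ c₁ c₂ c₃ : R) : R :=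
  2 * c₁ ^ 3 - 9 * c₀ * c₁ * c₂ + 27 * c₀ ^ 2 * c₃

/-- the discriminant -/
def Dc {R : Type*} [CommRing R] (c₀ c₁ c₂ c₃ : R) : R :=
  c₁ ^ 2 * c₂ ^ 2 - 4 * c₀ * c₂ ^ 3 - 4 * c₁ ^ 3 * c₃ + 18 * c₀ * c₁ * c₂ * c₃ -
    27 * c₀ ^ 2 * c₃ ^ 2

lemma syz {R : Type*} [CommRing R] (c₀ c₁ c₂ c₃ : R) :
    4 * Hc c₀ c₁ c₂ ^ 3 - Gc c₀ c₁ c₂ c₃ ^ 2 = 27 * c₀ ^ 2 * Dc c₀ c₁ c₂ c₃ := by
  unfold Hc Gc Dc; ring

/-- POL: two polynomials of degrees two and three. -/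
def S_POL : Prop := ∀ (M : Type) [Field M] [CharZero M] [IsAlgClosed M]
  (h₀ h₁ h₂ g₀ g₁ g₂ g₃ : M), 4 * h₂ ^ 3 - g₃ ^ 2 ≠ 0 → g₀ ^ 2 * h₂ ^ 3 ≠ g₃ ^ 2 * h₀ ^ 3 →
  ∃ t : M, 4 * (h₀ + h₁ * t + h₂ * t ^ 2) ^ 3 = (g₀ + g₁ * t + g₂ * t ^ 2 + g₃ * t ^ 3) ^ 2 ∧
    h₀ + h₁ * t + h₂ * t ^ 2 ≠ 0

/-- the polynomial of the restriction to a line (the same as `rst`) -/
noncomputable def ln {F : Type*} [Field F] {m : ℕ} (g : MvPolynomial (Fin m) F)
    (z e : Fin m → F) : Polynomial F :=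
  MvPolynomial.aeval (fun i => Polynomial.C (z i) + Polynomial.C (e i) * Polynomial.X) g

/-- the hypersurface `g = 0` is smooth -/
def Sm {F : Type*} [Field F] {m : ℕ} (g : MvPolynomial (Fin m) F) : Prop :=
  ∀ y : Fin m → AlgebraicClosure F, (∀ j, MvPolynomial.aeval y (MvPolynomial.pderiv j g) = 0) →
    y = 0

/-- SMA: through a point outside a smooth cubic hypersurface there are lines which are not tangent
to it. -/
def S_SMA : Prop := ∀ (F : Type) [Field F] [CharZero F] (m : ℕ) (g : MvPolynomial (Fin m) F),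
  g.IsHomogeneous 3 → Sm g → 2 ≤ m → ∀ x : Fin m → F, MvPolynomial.eval x g ≠ 0 →
  ∃ e, Dc ((ln g x e).coeff 0) ((ln g x e).coeff 1) ((ln g x e).coeff 2) ((ln g x e).coeff 3) ≠ 0

/-- SMB: the invariant of the binary cubics on the lines through a point outside of a smooth cubic
hypersurface of dimension at least one is not constant, if the Hessian covariant is not zero. -/
def S_SMB : Prop := ∀ (F : Type) [Field F] [CharZero F] (m : ℕ) (g : MvPolynomial (Fin m) F),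
  g.IsHomogeneous 3 → Sm g → 3 ≤ m → ∀ x : Fin m → F, MvPolynomial.eval x g ≠ 0 →
  (∃ e, Hc ((ln g x e).coeff 0) ((ln g x e).coeff 1) ((ln g x e).coeff 2) ≠ 0) →
  ∃ e e',
    Gc ((ln g x e).coeff 0) ((ln g x e).coeff 1) ((ln g x e).coeff 2) ((ln g x e).coeff 3) ^ 2 *
      Hc ((ln g x e').coeff 0) ((ln g x e').coeff 1) ((ln g x e').coeff 2) ^ 3 ≠
    Gc ((ln g x e').coeff 0) ((ln g x e').coeff 1) ((ln g x e').coeff 2)
        ((ln g x e').coeff 3) ^ 2 *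
      Hc ((ln g x e).coeff 0) ((ln g x e).coeff 1) ((ln g x e).coeff 2) ^ 3

/-- SMC: the Hessian covariant is not identically zero. -/
def S_SMC : Prop := ∀ (F : Type) [Field F] [CharZero F] (m : ℕ) (g : MvPolynomial (Fin m) F),
  g.IsHomogeneous 3 → Sm g → 2 ≤ m → ∃ x : Fin m → F, MvPolynomial.eval x g ≠ 0 ∧
  ∃ e, Hc ((ln g x e).coeff 0) ((ln g x e).coeff 1) ((ln g x e).coeff 2) ≠ 0

end Pool.Agent.K6.H43.TC
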