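import Pool.Agent.Y720.WL.Nt
import Pool.Agent.K6.H43.TC.Alg

/-!
# Cyclic triple covers `w³ = f(x)`: definitions and exact statements of the pieces (helper43)

`rst f z e` is the polynomial `t ↦ f(z + t e)`; `c_j = (rst f z e).coeff j`.
-/

set_option autoImplicit false
set_option linter.unusedVariables false

open Filter Topology Pool.Agent.Y720.MZ

namespace Pool.Agent.K6.H43.TC

section defs

/-- the triple cover -/
def onC {R : Type*} [CommRing R] {α : Type*} (f : MvPolynomial α R) (z : α → R) (w : R) : Prop :=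
  w ^ 3 = MvPolynomial.eval z f

/-- The data of the quartic `Z² = (b² - 4 a c)(μ)` which one gets by projecting the plane cubic
`W³ = w³ + c₁ t + c₂ t² + c₃ t³` from its point `(0, w)`; `μ` is the slope minus the slope
`c₁ / (3 w²)` of the tangent. -/
noncomputable def tq {F : Type*} [Field F] (w c₁ c₂ c₃ : F) : F × (Fin 4 → F) :=
  (Hc (w ^ 3) c₁ c₂ / (3 * w ^ 3),
    ![4 * Gc (w ^ 3) c₁ c₂ c₃ / (9 * w ^ 4), 2 * Hc (w ^ 3) c₁ c₂ / w ^ 2, 0, -3 * w ^ 2])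

/-- the same for the section of the triple cover in the direction `e` -/
noncomputable def th3 {F : Type*} [Field F] [CharZero F] {α : Type*} [Fintype α]
    (f : MvPolynomial α F) (e z : α → F) (w : F) : F × (Fin 4 → F) :=
  tq w ((rst f z e).coeff 1) ((rst f z e).coeff 2) ((rst f z e).coeff 3)

/-- the discriminant of `f` on the line -/
noncomputable def D3 {F : Type*} [Field F] [CharZero F] {α : Type*} [Fintype α]
    (f : MvPolynomial α F) (e z : α → F) : F :=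
  Dc (MvPolynomial.eval z f) ((rst f z e).coeff 1) ((rst f z e).coeff 2) ((rst f z e).coeff 3)

/-- the Hessian covariant of `f` on the line -/
noncomputable def H3 {F : Type*} [Field F] [CharZero F] {α : Type*} [Fintype α]
    (f : MvPolynomial α F) (e z : α → F) : F :=
  Hc (MvPolynomial.eval z f) ((rst f z e).coeff 1) ((rst f z e).coeff 2)

/-- the cubic covariant of `f` on the line -/
noncomputable def G3 {F : Type*} [Field F] [CharZero F] {α : Type*} [Fintype α]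
    (f : MvPolynomial α F) (e z : α → F) : F :=
  Gc (MvPolynomial.eval z f) ((rst f z e).coeff 1) ((rst f z e).coeff 2) ((rst f z e).coeff 3)

/-- the class `H - 3 P` on the section in the direction `e` is of infinite order -/
def IO3 {F : Type*} [Field F] [CharZero F] {α : Type*} [Fintype α]
    (f : MvPolynomial α F) (e z : α → F) (w : F) : Prop :=
  H3 f e z ≠ 0 ∧ IOt (th3 f e z w)

variable {K : Type} [Field K] {V : Type} {L : V → Type} [∀ v, NontriviallyNormedField (L v)]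
  (s : ∀ v, K →+* L v) {α : Type}

/-- moves in the direction `e` close to a local point -/
def MvT (f : MvPolynomial α K) (e : α → K) (x₀ : ∀ v, α → L v) (y₀ : ∀ v, L v) : Prop :=
  ∃ δ : ℝ, 0 < δ ∧ ∀ (z : α → K) (w : K), onC f z w → nr s δ z w x₀ y₀ →
    ∀ t Y : ∀ v, L v, (∀ v, ‖t v‖ < δ) → (∀ v, ‖Y v - y₀ v‖ < δ) →
    (∀ v, onC (MvPolynomial.map (s v) f) (fun a => s v (z a) + t v * s v (e a)) (Y v)) →
    ∀ η : ℝ, 0 < η → ∃ (z' : α → K) (w' : K), onC f z' w' ∧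
      nr s η z' w' (fun v a => s v (z a) + t v * s v (e a)) Y

/-- the closure of the rational points is open at a local point, if it belongs to it -/
def IntT (f : MvPolynomial α K) (x₀ : ∀ v, α → L v) (y₀ : ∀ v, L v) : Prop :=
  ∃ ε : ℝ, 0 < ε ∧ ∀ (z : α → K) (w : K), onC f z w → nr s ε z w x₀ y₀ →
    ∀ (x : ∀ v, α → L v) (y : ∀ v, L v), (∀ v, onC (MvPolynomial.map (s v) f) (x v) (y v)) →
    (∀ v, (∀ a, ‖x v a - x₀ v a‖ < ε) ∧ ‖y v - y₀ v‖ < ε) →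
    ∀ η : ℝ, 0 < η → ∃ (z : α → K) (w : K), onC f z w ∧ nr s η z w x y

end defs

section cbrt

/-- cube roots close to a given one -/
lemma exists_cbrt {L : Type*} [NontriviallyNormedField L] [CompleteSpace L] [CharZero L] {w : L}
    (hw : w ≠ 0) {ε : ℝ} (hε : 0 < ε) : ∃ δ : ℝ, 0 < δ ∧ ∀ a : L, ‖a - w ^ 3‖ < δ →
      ∃ Y : L, ‖Y - w‖ < ε ∧ Y ^ 3 = a := by
  have h1 : HasStrictDerivAt (fun x : L => x ^ 3) (3 * w ^ 2) w := by
    have := hasStrictDerivAt_pow 3 w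
    simpa using this
  have h2 := h1.map_nhds_eq (mul_ne_zero three_ne_zero (pow_ne_zero 2 hw))
  have h3 : (fun x : L => x ^ 3) '' Metric.ball w ε ∈ 𝓝 (w ^ 3) := by
    rw [← h2]
    exact Filter.image_mem_map (Metric.ball_mem_nhds w hε)
  obtain ⟨δ, hδ, hb⟩ := Metric.mem_nhds_iff.1 h3
  refine ⟨δ, hδ, fun a ha => ?_⟩
  obtain ⟨Y, hY, hYa⟩ := hb (mem_ball_iff_norm.2 ha)
  exact ⟨Y, mem_ball_iff_norm.1 hY, hYa⟩

/-- points of the triple cover close to a given one -/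
lemma cb_near {F : Type*} [NontriviallyNormedField F] [CompleteSpace F] [CharZero F]
    {α : Type*} [Fintype α] {g : MvPolynomial α F} {x : α → F} {y : F} (h : onC g x y)
    (hy : y ≠ 0) {ε : ℝ} (hε : 0 < ε) :
    ∃ ρ : ℝ, 0 < ρ ∧ ∀ x' : α → F, (∀ a, ‖x' a - x a‖ < ρ) →
      ∃ y' : F, ‖y' - y‖ < ε ∧ onC g x' y' := by
  obtain ⟨δ, hδ, hs⟩ := exists_cbrt hy hε
  have h1 : ∀ᶠ x' in 𝓝 x, ‖MvPolynomial.eval x' g - y ^ 3‖ < δ := by
    have h2 : Tendsto (fun x' => ‖MvPolynomial.eval x' g - y ^ 3‖) (𝓝 x) (𝓝 0) := by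
      have := (((MvPolynomial.continuous_eval g).tendsto x).sub_const (y ^ 3)).norm
      rw [h, sub_self, norm_zero] at this
      rw [h]
      exact this
    exact h2.eventually_lt_const hδ
  obtain ⟨ρ, hρ, hb⟩ := Metric.eventually_nhds_iff_ball.1 h1
  refine ⟨ρ, hρ, fun x' hx' => ?_⟩
  obtain ⟨Y, hY1, hY2⟩ := hs _ (hb x' (by
    rw [Metric.mem_ball, dist_pi_lt_iff hρ]
    intro a
    rw [dist_eq_norm]
    exact hx' a))
  exact ⟨Y, hY1, hY2⟩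

end cbrt

/-- QRT: moves on the plane cubics from the quartics. -/
def S_QRT : Prop := ∀ (K : Type) [Field K] [CharZero K] (V : Type) [Finite V] (L : V → Type)
  [∀ v, NontriviallyNormedField (L v)] [∀ v, CompleteSpace (L v)] [∀ v, CharZero (L v)]
  (s : ∀ v, K →+* L v) (α : Type) [Fintype α] (f : MvPolynomial α K) (e : α → K)
  (x₀ : ∀ v, α → L v) (y₀ : ∀ v, L v),
  (∀ z, (rst f z e).natDegree ≤ 3) →
  (∀ v, onC (MvPolynomial.map (s v) f) (x₀ v) (y₀ v)) → (∀ v, y₀ v ≠ 0) →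
  (∀ v, H3 (MvPolynomial.map (s v) f) (fun a => s v (e a)) (x₀ v) ≠ 0) →
  WAqL s (fun v => th3 (MvPolynomial.map (s v) f) (fun a => s v (e a)) (x₀ v) (y₀ v)) →
  MvT s f e x₀ y₀

/-- IOC: the class has infinite order if the doubling sequence on `Y² = X³ + 16 D c₀²` has no
repetitions. -/
def S_IOC : Prop := ∀ (F : Type) [Field F] [CharZero F] (w c₁ c₂ c₃ : F), w ≠ 0 →
  Hc (w ^ 3) c₁ c₂ ≠ 0 → Dc (w ^ 3) c₁ c₂ c₃ ≠ 0 →
  (∀ i, (itd 0 0 (16 * (w ^ 3) ^ 2 * Dc (w ^ 3) c₁ c₂ c₃)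
    (4 * Gc (w ^ 3) c₁ c₂ c₃ ^ 2 - 12 * Hc (w ^ 3) c₁ c₂ ^ 3, 9 * Hc (w ^ 3) c₁ c₂ ^ 2) i).2 ≠ 0) →
  (∀ i j, i ≠ j →
    (itd 0 0 (16 * (w ^ 3) ^ 2 * Dc (w ^ 3) c₁ c₂ c₃)
      (4 * Gc (w ^ 3) c₁ c₂ c₃ ^ 2 - 12 * Hc (w ^ 3) c₁ c₂ ^ 3, 9 * Hc (w ^ 3) c₁ c₂ ^ 2) i).1 *
    (itd 0 0 (16 * (w ^ 3) ^ 2 * Dc (w ^ 3) c₁ c₂ c₃)
      (4 * Gc (w ^ 3) c₁ c₂ c₃ ^ 2 - 12 * Hc (w ^ 3) c₁ c₂ ^ 3, 9 * Hc (w ^ 3) c₁ c₂ ^ 2) j).2 -
    (itd 0 0 (16 * (w ^ 3) ^ 2 * Dc (w ^ 3) c₁ c₂ c₃)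
      (4 * Gc (w ^ 3) c₁ c₂ c₃ ^ 2 - 12 * Hc (w ^ 3) c₁ c₂ ^ 3, 9 * Hc (w ^ 3) c₁ c₂ ^ 2) j).1 *
    (itd 0 0 (16 * (w ^ 3) ^ 2 * Dc (w ^ 3) c₁ c₂ c₃)
      (4 * Gc (w ^ 3) c₁ c₂ c₃ ^ 2 - 12 * Hc (w ^ 3) c₁ c₂ ^ 3, 9 * Hc (w ^ 3) c₁ c₂ ^ 2) i).2
      ≠ 0) →
  IOt (tq w c₁ c₂ c₃)

/-- CSP: a family of cubics `Y² = X³ + c` which degenerates to a cuspidal cubic, and a section
which does not pass through the cusp or the origin there. -/
def S_CSP : Prop := ∀ (F : Type) [Field F] [CharZero F] (c N D : Polynomial F) (M : Type)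
  [Field M] [Algebra F M] (s₀ : M), Polynomial.aeval s₀ c = 0 → Polynomial.aeval s₀ N ≠ 0 →
  Polynomial.aeval s₀ D ≠ 0 → ∀ B : ℕ,
  {u : F | ¬ ((∀ i ≤ B, (itd 0 0 (c.eval u) (N.eval u, D.eval u) i).2 ≠ 0) ∧
    ∀ i ≤ B, ∀ j ≤ B, i ≠ j →
      (itd 0 0 (c.eval u) (N.eval u, D.eval u) i).1 *
        (itd 0 0 (c.eval u) (N.eval u, D.eval u) j).2 -
      (itd 0 0 (c.eval u) (N.eval u, D.eval u) j).1 *
        (itd 0 0 (c.eval u) (N.eval u, D.eval u) i).2 ≠ 0)}.Finite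

/-- NEA: along the line `x₀ + u v` the class in the direction `e` is of infinite order at some
points close to `x₀`, if the line meets the branch divisor where the derivative in the direction
`e` is not zero. -/
def S_NEA : Prop := ∀ (F : Type) [NontriviallyNormedField F] [CompleteSpace F] [CharZero F]
  (α : Type) [Fintype α] (f : MvPolynomial α F) (v e x₀ : α → F) (y₀ : F),
  onC f x₀ y₀ → y₀ ≠ 0 → (∀ z, (rst f z e).natDegree ≤ 3) →
  ∀ s₀ : AlgebraicClosure F,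
  MvPolynomial.aeval (fun a => algebraMap F (AlgebraicClosure F) (x₀ a) +
      s₀ * algebraMap F (AlgebraicClosure F) (v a)) f = 0 →
  MvPolynomial.aeval (fun a => algebraMap F (AlgebraicClosure F) (x₀ a) +
      s₀ * algebraMap F (AlgebraicClosure F) (v a)) (dd f e) ≠ 0 →
  (∃ u : F, D3 f e (fun a => x₀ a + u * v a) ≠ 0) → ∀ δ : ℝ, 0 < δ →
  ∃ u Z : F, onC f (fun a => x₀ a + u * v a) Z ∧ Z ≠ 0 ∧ ‖u‖ < δ ∧ ‖Z - y₀‖ < δ ∧
    IO3 f e (fun a => x₀ a + u * v a) Z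

/-- DIR: a direction of infinite order at a given point, if `G² / H³` depends on the direction. -/
def S_DIR : Prop := ∀ (p : ℕ) [Fact p.Prime] (α : Type) [Fintype α] (f : MvPolynomial α ℚ_[p])
  (x : α → ℚ_[p]) (y : ℚ_[p]), onC f x y → y ≠ 0 →
  (∀ e : α → ℚ_[p], (rst f x e).natDegree ≤ 3) →
  (∃ e e' : α → ℚ_[p], G3 f e x ^ 2 * H3 f e' x ^ 3 ≠ G3 f e' x ^ 2 * H3 f e x ^ 3) →
  ∃ e, IO3 f e x y

end Pool.Agent.K6.H43.TC
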