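import Pool.Agent.K6.H96.MX.Gnr
import Pool.Agent.K6.H43.TC.Stm

/-!
# One factor serves another one: the transfer for triple covers (helper43)

Adapted from `Pool.Agent.K6.H96.MX.Step` (helper96).
-/

set_option autoImplicit false
set_option linter.unusedVariables false
set_option linter.unusedSectionVars false

open Filter Topology Pool.Agent.Y720.MZ Pool.Agent.Y718.CL Pool.Agent.Y718.SF
  Pool.Agent.K6.H96.MX

namespace Pool.Agent.K6.H43.TC

section root

variable {F : Type*} [Field F] [CharZero F] {α : Type*} [Fintype α]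

/-- a double root on a line makes the discriminant zero -/
lemma D3_root {f : MvPolynomial α F} {z e : α → F} (h : (rst f z e).natDegree ≤ 3)
    (hT : D3 f e z ≠ 0) {M : Type*} [Field M] [Algebra F M] {s : M}
    (h0 : Polynomial.aeval s (rst f z e) = 0) :
    Polynomial.aeval s (Polynomial.derivative (rst f z e)) ≠ 0 := by
  intro h1
  have hc0 : (rst f z e).coeff 0 = MvPolynomial.eval z f := by
    rw [Polynomial.coeff_zero_eq_eval_zero, rst_eval, zero_smul, add_zero]
  have hq : rst f z e = Polynomial.C ((rst f z e).coeff 0) +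
      Polynomial.C ((rst f z e).coeff 1) * Polynomial.X +
      Polynomial.C ((rst f z e).coeff 2) * Polynomial.X ^ 2 +
      Polynomial.C ((rst f z e).coeff 3) * Polynomial.X ^ 3 := by
    conv_lhs => rw [Polynomial.as_sum_range_C_mul_X_pow' (rst f z e)
      (by omega : (rst f z e).natDegree < 4)]
    simp [Finset.sum_range_succ]
  rw [hc0] at hq
  unfold D3 at hT
  set c₀ := MvPolynomial.eval z f
  set c₁ := (rst f z e).coeff 1
  set c₂ := (rst f z e).coeff 2
  set c₃ := (rst f z e).coeff 3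
  rw [hq] at h0 h1
  simp only [Polynomial.derivative_add, Polynomial.derivative_mul, Polynomial.derivative_C,
    Polynomial.derivative_X, Polynomial.derivative_X_pow, zero_mul, zero_add, mul_one, map_add,
    map_mul, map_pow, Polynomial.aeval_C, Polynomial.aeval_X, Polynomial.aeval_natCast,
    Nat.cast_ofNat, map_ofNat, Nat.add_one_sub_one, pow_one] at h0 h1
  apply hT
  apply (algebraMap F M).injective
  set φ := algebraMap F M
  have e1 : φ (Dc c₀ c₁ c₂ c₃) = Dc (φ c₀) (φ c₁) (φ c₂) (φ c₃) := by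
    simp only [Dc, map_sub, map_add, map_mul, map_pow, map_ofNat]
  rw [e1, map_zero]
  -- the discriminant is invariant under translations
  have e2 : Dc (φ c₀) (φ c₁) (φ c₂) (φ c₃) =
      Dc (φ c₀ + φ c₁ * s + φ c₂ * s ^ 2 + φ c₃ * s ^ 3)
        (φ c₁ + 2 * φ c₂ * s + 3 * φ c₃ * s ^ 2) (φ c₂ + 3 * φ c₃ * s) (φ c₃) := by
    unfold Dc
    ring
  have k0 : φ c₀ + φ c₁ * s + φ c₂ * s ^ 2 + φ c₃ * s ^ 3 = 0 := by
    linear_combination h0
  have k1 : φ c₁ + 2 * φ c₂ * s + 3 * φ c₃ * s ^ 2 = 0 := by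
    linear_combination h1
  rw [e2, k0, k1]
  unfold Dc
  ring

end root

section tr

/-- the condition for the transfer from the direction `v` to the direction `e`, at a place -/
def Tr3 {α : Type*} [Fintype α] {F : Type*} [Field F] [CharZero F] (f : MvPolynomial α F)
    (v e x₀ : α → F) : Prop :=
  (∃ s₀ : AlgebraicClosure F,
    MvPolynomial.aeval (fun a => algebraMap F (AlgebraicClosure F) (x₀ a) +
      s₀ * algebraMap F (AlgebraicClosure F) (v a)) f = 0 ∧
    MvPolynomial.aeval (fun a => algebraMap F (AlgebraicClosure F) (x₀ a) +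
      s₀ * algebraMap F (AlgebraicClosure F) (v a)) (dd f e) ≠ 0) ∧
  ∃ u : F, D3 f e (fun a => x₀ a + u * v a) ≠ 0

end tr

section alg

variable {r : ℕ} {n : Fin r → ℕ} {F : Type*} [Field F] [CharZero F]

/-- the coefficient as a function of the base point -/
lemma PK_co_z {β : Type*} [Fintype β] (f : MvPolynomial β F) (e : β → F) (j : ℕ) :
    PK fun x : β → F => (rst f x e).coeff j := ⟨gk f e j, fun x => (gk_eval f x e j).symm⟩

/-- the discriminant as a function of the base point -/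
lemma PK_D3_z {β : Type*} [Fintype β] (f : MvPolynomial β F) (e : β → F) :
    PK fun x : β → F => D3 f e x := by
  have h0 : PK fun x : β → F => MvPolynomial.eval x f := PK_eval f
  have h1 := PK_co_z f e 1
  have h2 := PK_co_z f e 2
  have h3 := PK_co_z f e 3
  have hc : ∀ c : F, PK fun _ : β → F => c := fun c => PK.const c
  unfold D3 Dc
  exact (((((h1.pow 2).mul (h2.pow 2)).sub (((hc _).mul h0).mul (h2.pow 3))).sub
    (((hc _).mul (h1.pow 3)).mul h3)).add (((((hc _).mul h0).mul h1).mul h2).mul h3)).sub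
    (((hc _).mul (h0.pow 2)).mul (h3.pow 2))

/-- the discriminant as a function of the direction -/
lemma PK_D3_e {β : Type*} [Fintype β] (f : MvPolynomial β F) (x : β → F) :
    PK fun e : β → F => D3 f e x := by
  have h1 : PK fun e : β → F => (rst f x e).coeff 1 := PKu_coeff f x 1
  have h2 : PK fun e : β → F => (rst f x e).coeff 2 := PKu_coeff f x 2
  have h3 : PK fun e : β → F => (rst f x e).coeff 3 := PKu_coeff f x 3
  have hc : ∀ c : F, PK fun _ : β → F => c := fun c => PK.const c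
  unfold D3 Dc
  exact (((((h1.pow 2).mul (h2.pow 2)).sub (((hc _).mul (hc _)).mul (h2.pow 3))).sub
    (((hc _).mul (h1.pow 3)).mul h3)).add (((((hc _).mul (hc _)).mul h1).mul h2).mul h3)).sub
    (((hc _).mul ((hc _).pow 2)).mul (h3.pow 2))

/-- the Hessian covariant as a function of the direction -/
lemma PK_H3_e {β : Type*} [Fintype β] (f : MvPolynomial β F) (x : β → F) :
    PK fun e : β → F => H3 f e x := by
  have h1 : PK fun e : β → F => (rst f x e).coeff 1 := PKu_coeff f x 1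
  have h2 : PK fun e : β → F => (rst f x e).coeff 2 := PKu_coeff f x 2
  have hc : ∀ c : F, PK fun _ : β → F => c := fun c => PK.const c
  unfold H3 Hc
  exact (h1.pow 2).sub (((hc _).mul (hc _)).mul h2)

/-- **The transfer for most directions.** -/
theorem srv3 {f : MvPolynomial (Vr n) F} {d : Fin r → ℕ} (hf : MH d f) {x : Vr n → F}
    (hx : MvPolynomial.eval x f ≠ 0) {k i : Fin r} (hki : k ≠ i) (hs : NZs f x k)
    (hI : Ind f x k i) (hT : ∃ u : Fin (n k + 1) → F, ∃ e : Fin (n i + 1) → F,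
      D3 f (hat i e) (rpl x k u) ≠ 0) :
    ∃ g₁ : (Fin (n k + 1) → F) → F, NZ g₁ ∧ ∀ e₁, g₁ e₁ ≠ 0 →
      ∃ g₂ : (Fin (n i + 1) → F) → F, NZ g₂ ∧ ∀ e₂, g₂ e₂ ≠ 0 →
        Tr3 f (hat k e₁) (hat i e₂) x := by
  classical
  obtain ⟨gs, hgs, hgs2⟩ := hs
  obtain ⟨j, hj⟩ := hI
  obtain ⟨u, e₂', hu⟩ := hT
  set z : Fin (n k + 1) → F := fun j => x ⟨k, j⟩ with hz
  have hz0 : MvPolynomial.eval z (Gi f x k) ≠ 0 := by rw [Gi_self]; exact hx
  have h0 : (Gi f x k).IsHomogeneous (d k) := Gi_hom hf x k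
  have h1 : (Gi (MvPolynomial.pderiv ⟨i, j⟩ f) x k).IsHomogeneous (d k) := by
    have := Gi_hom (MH_pderiv hf i j) x k
    rwa [Function.update_of_ne hki] at this
  have nd := NZ_nd hz0 hj
  have nt : NZ fun e₁ : Fin (n k + 1) → F => D3 f (hat i e₂') (rpl x k (z + e₁)) := by
    refine ⟨?_, u - z, ?_⟩
    · have k1 : PK fun u : Fin (n k + 1) → F => D3 f (hat i e₂') (rpl x k u) :=
        (PK_D3_z f (hat i e₂')).comp (φ := fun (a : Vr n) (u : Fin (n k + 1) → F) =>
          rpl x k u a) fun a => PK_rpl x k a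
      exact k1.comp (φ := fun (l : Fin (n k + 1)) (e : Fin (n k + 1) → F) => (z + e) l) fun l =>
        (PK.const (z l)).add (PK.coord l)
    · change D3 f (hat i e₂') (rpl x k (z + (u - z))) ≠ 0
      rw [add_sub_cancel]
      exact hu
  refine ⟨_, (hgs.mul nd).mul nt, fun e₁ he₁ => ?_⟩
  obtain ⟨he12, he3⟩ := mul_ne_zero_iff.1 he₁
  obtain ⟨he1, he2⟩ := mul_ne_zero_iff.1 he12
  obtain ⟨he2a, he2b⟩ := mul_ne_zero_iff.1 he2
  have hsp := hgs2 e₁ he1
  have hnd : ¬ rst f x (hat k e₁) ∣ rst (MvPolynomial.pderiv ⟨i, j⟩ f) x (hat k e₁) := by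
    rw [rst_hat, rst_hat]
    exact not_dvd h0 h1 he2a he2b
  obtain ⟨s₀, hs0, hs1⟩ : ∃ s₀ : AlgebraicClosure F,
      Polynomial.aeval s₀ (rst f x (hat k e₁)) = 0 ∧
      Polynomial.aeval s₀ (rst (MvPolynomial.pderiv ⟨i, j⟩ f) x (hat k e₁)) ≠ 0 := by
    by_contra hcon
    push Not at hcon
    refine hnd (Pool.Agent.Q35.KC.dvd_of_roots ?_ hsp hcon)
    intro hq
    exact hsp 0 (by rw [hq, map_zero]) (by rw [hq, Polynomial.derivative_zero, map_zero])
  rw [aeval_rst] at hs0 hs1
  set pt : Vr n → AlgebraicClosure F := fun a => algebraMap F (AlgebraicClosure F) (x a) +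
    s₀ * algebraMap F (AlgebraicClosure F) (hat k e₁ a) with hpt
  set θ : Fin (n i + 1) → AlgebraicClosure F := fun l =>
    MvPolynomial.aeval pt (MvPolynomial.pderiv ⟨i, l⟩ f) with hθ
  obtain ⟨lam, hlam⟩ : ∃ lam : Module.Dual F (AlgebraicClosure F), lam (θ j) ≠ 0 := by
    by_contra hcon
    push Not at hcon
    exact hs1 ((Module.forall_dual_apply_eq_zero_iff F (θ j)).1 hcon)
  have n1 : NZ fun e₂ : Fin (n i + 1) → F => ∑ l, e₂ l * lam (θ l) := by
    refine ⟨PK.sum _ fun l _ => (PK.coord l).mul (PK.const _), Pi.single j 1, ?_⟩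
    change ∑ l, (Pi.single j 1 : Fin (n i + 1) → F) l * lam (θ l) ≠ 0
    rw [Finset.sum_eq_single j]
    · rw [Pi.single_eq_same, one_mul]; exact hlam
    · intro l _ hl
      rw [Pi.single_eq_of_ne hl, zero_mul]
    · simp
  have n2 : NZ fun e₂ : Fin (n i + 1) → F => D3 f (hat i e₂) (rpl x k (z + e₁)) := by
    refine ⟨?_, e₂', he3⟩
    exact (PK_D3_e f (rpl x k (z + e₁))).comp (φ := fun (a : Vr n) (u : Fin (n i + 1) → F) =>
      hat i u a) fun a => PK_hat i a
  refine ⟨_, n1.mul n2, fun e₂ he₂ => ?_⟩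
  obtain ⟨k1, k2⟩ := mul_ne_zero_iff.1 he₂
  refine ⟨⟨s₀, hs0, ?_⟩, 1, ?_⟩
  · intro hcon
    apply k1
    have e1 : MvPolynomial.aeval pt (Pool.Agent.Y720.MZ.dd f (hat i e₂)) =
        ∑ l, algebraMap F (AlgebraicClosure F) (e₂ l) * θ l := by
      rw [Pool.Agent.Y720.MZ.dd, map_sum]
      rw [Fintype.sum_sigma]
      rw [Finset.sum_eq_single i]
      · refine Finset.sum_congr rfl fun l _ => ?_
        rw [map_mul, MvPolynomial.aeval_C, hat_same]
      · intro i' _ hi'
        refine Finset.sum_eq_zero fun l _ => ?_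
        rw [hat_ne hi', MvPolynomial.C_0, zero_mul, map_zero]
      · simp
    change MvPolynomial.aeval pt (Pool.Agent.Y720.MZ.dd f (hat i e₂)) = 0 at hcon
    rw [e1] at hcon
    have e2 := congrArg lam hcon
    rw [map_sum, map_zero] at e2
    rw [← e2]
    refine Finset.sum_congr rfl fun l _ => ?_
    rw [← Algebra.smul_def, map_smul, smul_eq_mul]
  · have e3 : (fun a => x a + 1 * hat k e₁ a) = rpl x k (z + e₁) := by
      rw [rpl_add]
      congr 1
      funext l
      rw [one_mul]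
      rfl
    rw [e3]
    exact k2

lemma NZs_three {f : MvPolynomial (Vr n) F} {d : Fin r → ℕ} (hf : MH d f) {x : Vr n → F}
    {k : Fin r} (hk : d k = 3) (h : ∃ e : Fin (n k + 1) → F, D3 f (hat k e) x ≠ 0) :
    NZs f x k := by
  refine ⟨fun e => D3 f (hat k e) x, ⟨?_, h⟩, fun e he s hs => ?_⟩
  · exact (PK_D3_e f x).comp (φ := fun (a : Vr n) (u : Fin (n k + 1) → F) =>
      hat k u a) fun a => PK_hat k a
  · refine D3_root ?_ he hs
    have := deg_hat hf x k e
    rwa [hk] at this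

end alg

end Pool.Agent.K6.H43.TC
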