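import Pool.Agent.K6.H96.MX.Nn
import Pool.Agent.K6.H43.TC.Srv

/-!
# The divisor (helper43)
-/

set_option autoImplicit false
set_option linter.unusedVariables false
set_option linter.unusedSectionVars false

open Filter Topology Pool.Agent.Y720.MZ Pool.Agent.Y718.CL Pool.Agent.Y718.SF
  Pool.Agent.K6.H96.MX

namespace Pool.Agent.K6.H43.TC

section hat

variable {r : ℕ} {n : Fin r → ℕ} {F : Type*} [Field F] [CharZero F]

lemma co_hat (f : MvPolynomial (Vr n) F) (x : Vr n → F) (i : Fin r) (e : Fin (n i + 1) → F)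
    (j : ℕ) : (rst f x (hat i e)).coeff j = (rst (Gi f x i) (fun j => x ⟨i, j⟩) e).coeff j := by
  rw [rst_hat]
  rfl

lemma D3_hat (f : MvPolynomial (Vr n) F) (x : Vr n → F) (i : Fin r) (e : Fin (n i + 1) → F) :
    D3 f (hat i e) x = D3 (Gi f x i) e (fun j => x ⟨i, j⟩) := by
  rw [D3, D3, co_hat, co_hat, co_hat, Gi_self]

lemma H3_hat (f : MvPolynomial (Vr n) F) (x : Vr n → F) (i : Fin r) (e : Fin (n i + 1) → F) :
    H3 f (hat i e) x = H3 (Gi f x i) e (fun j => x ⟨i, j⟩) := by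
  rw [H3, H3, co_hat, co_hat, Gi_self]

lemma G3_hat (f : MvPolynomial (Vr n) F) (x : Vr n → F) (i : Fin r) (e : Fin (n i + 1) → F) :
    G3 f (hat i e) x = G3 (Gi f x i) e (fun j => x ⟨i, j⟩) := by
  rw [G3, G3, co_hat, co_hat, co_hat, Gi_self]

lemma th3_hat (f : MvPolynomial (Vr n) F) (x : Vr n → F) (y : F) (i : Fin r)
    (e : Fin (n i + 1) → F) :
    th3 f (hat i e) x y = th3 (Gi f x i) e (fun j => x ⟨i, j⟩) y := by
  rw [th3, th3, co_hat, co_hat, co_hat]

lemma IO3_hat (f : MvPolynomial (Vr n) F) (x : Vr n → F) (y : F) (i : Fin r)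
    (e : Fin (n i + 1) → F) :
    IO3 f (hat i e) x y ↔ IO3 (Gi f x i) e (fun j => x ⟨i, j⟩) y := by
  rw [IO3, IO3, th3_hat, H3_hat]

lemma onC_Gi {f : MvPolynomial (Vr n) F} {x : Vr n → F} {y : F} (h : onC f x y) (i : Fin r) :
    onC (Gi f x i) (fun j => x ⟨i, j⟩) y := by
  unfold onC at *
  rw [Gi_self]
  exact h

lemma Gi_rpl (f : MvPolynomial (Vr n) F) (x : Vr n → F) (k : Fin r) (u : Fin (n k + 1) → F) :
    Gi f (rpl x k u) k = Gi f x k := by
  have : Infinite F := CharZero.infinite F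
  refine MvPolynomial.funext fun y => ?_
  rw [← eval_rpl, rpl_rpl, eval_rpl]

lemma rpl_k (x : Vr n → F) (k : Fin r) (u : Fin (n k + 1) → F) :
    (fun j => rpl x k u ⟨k, j⟩) = u := by
  funext j
  simp [rpl]

end hat

section pol

variable {F : Type*} [Field F] [CharZero F] {α : Type*} [Fintype α]

/-- the discriminant as a polynomial -/
noncomputable def D3P (f : MvPolynomial α F) (e : α → F) : MvPolynomial α F :=
  Dc f (gk f e 1) (gk f e 2) (gk f e 3)

/-- the Hessian covariant as a polynomial -/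
noncomputable def H3P (f : MvPolynomial α F) (e : α → F) : MvPolynomial α F :=
  Hc f (gk f e 1) (gk f e 2)

/-- the cubic covariant as a polynomial -/
noncomputable def G3P (f : MvPolynomial α F) (e : α → F) : MvPolynomial α F :=
  Gc f (gk f e 1) (gk f e 2) (gk f e 3)

lemma D3P_eval (f : MvPolynomial α F) (e z : α → F) : MvPolynomial.eval z (D3P f e) = D3 f e z := by
  simp only [D3P, Dc, D3, map_sub, map_add, map_mul, map_pow, map_ofNat, gk_eval]

lemma H3P_eval (f : MvPolynomial α F) (e z : α → F) : MvPolynomial.eval z (H3P f e) = H3 f e z := by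
  simp only [H3P, Hc, H3, map_sub, map_add, map_mul, map_pow, map_ofNat, gk_eval]

lemma G3P_eval (f : MvPolynomial α F) (e z : α → F) : MvPolynomial.eval z (G3P f e) = G3 f e z := by
  simp only [G3P, Gc, G3, map_sub, map_add, map_mul, map_pow, map_ofNat, gk_eval]

variable {S : Type*} [Field S] [CharZero S] (φ : F →+* S)

lemma D3P_map (f : MvPolynomial α F) (e : α → F) :
    MvPolynomial.map φ (D3P f e) = D3P (MvPolynomial.map φ f) (fun a => φ (e a)) := by
  simp only [D3P, Dc, map_sub, map_add, map_mul, map_pow, map_ofNat, gk_map]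

lemma H3P_map (f : MvPolynomial α F) (e : α → F) :
    MvPolynomial.map φ (H3P f e) = H3P (MvPolynomial.map φ f) (fun a => φ (e a)) := by
  simp only [H3P, Hc, map_sub, map_add, map_mul, map_pow, map_ofNat, gk_map]

lemma G3P_map (f : MvPolynomial α F) (e : α → F) :
    MvPolynomial.map φ (G3P f e) = G3P (MvPolynomial.map φ f) (fun a => φ (e a)) := by
  simp only [G3P, Gc, map_sub, map_add, map_mul, map_pow, map_ofNat, gk_map]

end pol

section good

variable {r : ℕ} {n : Fin r → ℕ}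

/-- the conditions at a place -/
structure Good3 {F : Type} [Field F] [CharZero F] (g : MvPolynomial (Vr n) F)
    (k : Fin r) (x : Vr n → F) : Prop where
  /-- the invariant depends on the line in the `k`-th factor -/
  free : ∃ e e' : Fin (n k + 1) → F, G3 g (hat k e) x ^ 2 * H3 g (hat k e') x ^ 3 ≠
    G3 g (hat k e') x ^ 2 * H3 g (hat k e) x ^ 3
  /-- the derivatives -/
  ind : ∀ i, i ≠ k → Ind g x k i
  /-- the lines -/
  sep : ∀ i, ∃ e : Fin (n i + 1) → F, D3 g (hat i e) x ≠ 0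

variable {K : Type} [Field K] [CharZero K]

lemma exists_D3P (hA : S_SMA) {f : MvPolynomial (Vr n) K} (hf : MH (fun _ => 3) f)
    {i : Fin r} (hn : 1 ≤ n i) (hs : ∃ x : Vr n → K, Sm (Gi f x i)) :
    ∃ e : Fin (n i + 1) → K, D3P f (hat i e) ≠ 0 := by
  obtain ⟨x, hx, hx0⟩ := exists_x hn hs
  obtain ⟨e, he⟩ := hA K (n i + 1) (Gi f x i) (Gi_hom hf x i) hx (by omega)
    (fun j => x ⟨i, j⟩) (by rw [Gi_self]; exact hx0)
  refine ⟨e, fun h => he ?_⟩
  have h1 : MvPolynomial.eval x (D3P f (hat i e)) = 0 := by rw [h, map_zero]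
  rw [D3P_eval, D3_hat, D3] at h1
  have h2 : (ln (Gi f x i) (fun j => x ⟨i, j⟩) e).coeff 0 =
      MvPolynomial.eval (fun j => x ⟨i, j⟩) (Gi f x i) := by
    change (rst (Gi f x i) (fun j => x ⟨i, j⟩) e).coeff 0 = _
    rw [Polynomial.coeff_zero_eq_eval_zero, rst_eval, zero_smul, add_zero]
  rw [h2]
  exact h1

/-- the polynomial which is not zero at the points where the invariant depends on the line -/
noncomputable def frP (f : MvPolynomial (Vr n) K) (k : Fin r) (e e' : Fin (n k + 1) → K) :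
    MvPolynomial (Vr n) K :=
  G3P f (hat k e) ^ 2 * H3P f (hat k e') ^ 3 - G3P f (hat k e') ^ 2 * H3P f (hat k e) ^ 3

lemma exists_frP (hB : S_SMB) (hC : S_SMC) {f : MvPolynomial (Vr n) K} (hf : MH (fun _ => 3) f)
    {k : Fin r} (hn : 2 ≤ n k) (hs : ∃ x : Vr n → K, Sm (Gi f x k)) :
    ∃ e e' : Fin (n k + 1) → K, frP f k e e' ≠ 0 := by
  obtain ⟨x, hx⟩ := hs
  obtain ⟨u, hu, e₀, he₀⟩ := hC K (n k + 1) (Gi f x k) (Gi_hom hf x k) hx (by omega)
  obtain ⟨e, e', he⟩ := hB K (n k + 1) (Gi f x k) (Gi_hom hf x k) hx (by omega) u hu ⟨e₀, he₀⟩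
  refine ⟨e, e', fun h => he ?_⟩
  have h1 : MvPolynomial.eval (rpl x k u) (frP f k e e') = 0 := by rw [h, map_zero]
  simp only [frP, map_sub, map_mul, map_pow, G3P_eval, H3P_eval, G3_hat, H3_hat] at h1
  rw [Gi_rpl, rpl_k, sub_eq_zero] at h1
  simp only [G3, H3] at h1
  have h2 : ∀ e, (ln (Gi f x k) u e).coeff 0 = MvPolynomial.eval u (Gi f x k) := by
    intro e
    change (rst (Gi f x k) u e).coeff 0 = _
    rw [Polynomial.coeff_zero_eq_eval_zero, rst_eval, zero_smul, add_zero]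
  rw [h2, h2]
  exact h1

/-- **The divisor.** -/
theorem exists_N3 (hA : S_SMA) (hB : S_SMB) (hC : S_SMC) {f : MvPolynomial (Vr n) K}
    (hf : MH (fun _ => 3) f) (hirr : Irreducible f) (hn : ∀ i, 1 ≤ n i)
    (hs : ∀ i, ∃ x : Vr n → K, Sm (Gi f x i)) {k : Fin r} (hk : 2 ≤ n k) :
    ∃ N : MvPolynomial (Vr n) K, N ≠ 0 ∧ ∀ (F : Type) [Field F] [CharZero F] (σ : K →+* F)
      (x : Vr n → F), MvPolynomial.eval x (MvPolynomial.map σ N) ≠ 0 →
        Good3 (MvPolynomial.map σ f) k x := by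
  classical
  have hinf : Infinite K := CharZero.infinite K
  obtain ⟨e, e', he⟩ := exists_frP hB hC hf hk (hs k)
  choose a ha using fun i => exists_D3P hA hf (hn i) (hs i)
  have h2 : ∀ i : Fin r, ∃ N : MvPolynomial (Vr n) K, N ≠ 0 ∧ ∀ (F : Type) [Field F] [CharZero F]
      (σ : K →+* F) (x : Vr n → F), MvPolynomial.eval x (MvPolynomial.map σ N) ≠ 0 →
        i ≠ k → Ind (MvPolynomial.map σ f) x k i := by
    intro i
    by_cases hi : i ≠ k
    · obtain ⟨j, e, he⟩ := ndP_ne hf hirr (k := k) (i := i) (by norm_num) (by norm_num)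
      exact ⟨ndP f k i j e, he, fun F _ _ σ z hz _ => ind_of σ hz⟩
    · exact ⟨1, one_ne_zero, fun F _ _ σ z hz b => absurd b hi⟩
  choose N₂ hN₂ h₂ using h2
  refine ⟨(frP f k e e' * ∏ i, D3P f (hat i (a i))) * ∏ i, N₂ i,
    mul_ne_zero (mul_ne_zero he (Finset.prod_ne_zero_iff.2 fun i _ => ha i))
      (Finset.prod_ne_zero_iff.2 fun i _ => hN₂ i), fun F _ _ σ z hz => ?_⟩
  rw [map_mul, map_mul, map_mul, map_mul, map_prod, map_prod, map_prod, map_prod] at hz
  obtain ⟨hz1, hz2⟩ := mul_ne_zero_iff.1 hz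
  obtain ⟨hz0, hz1⟩ := mul_ne_zero_iff.1 hz1
  rw [Finset.prod_ne_zero_iff] at hz1 hz2
  refine ⟨⟨fun j => σ (e j), fun j => σ (e' j), ?_⟩,
    fun i hi => h₂ i F σ z (hz2 i (Finset.mem_univ i)) hi,
    fun i => ⟨fun j => σ (a i j), ?_⟩⟩
  · simp only [frP, map_sub, map_mul, map_pow, G3P_map, H3P_map, G3P_eval, H3P_eval,
      hat_map] at hz0
    exact sub_ne_zero.1 hz0
  · have h3 := hz1 i (Finset.mem_univ i)
    rw [D3P_map, D3P_eval, hat_map] at h3
    exact h3

end good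

end Pool.Agent.K6.H43.TC
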