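import Pool.Agent.Y718.CL.Op
import Pool.Agent.Y720.WL.LemR
import Pool.Agent.K6.H43.TC.Stm

/-!
# Infinite order is an open condition; moves in directions of infinite order (helper43)
-/

set_option autoImplicit false
set_option linter.unusedVariables false
set_option linter.unusedSectionVars false

open Filter Topology Pool.Agent.Y720.MZ Pool.Agent.Y718.CL

namespace Pool.Agent.K6.H43.TC

section cont

variable {F : Type*} [NontriviallyNormedField F] [CharZero F] {α : Type*} [Fintype α]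

lemma co_cont_e (f : MvPolynomial α F) (x : α → F) (j : ℕ) :
    Continuous fun e : α → F => (rst f x e).coeff j := by
  obtain ⟨p, hp⟩ := Pool.Agent.Y718.SF.PKu_coeff f x j
  have : (fun e : α → F => (rst f x e).coeff j) = fun e => MvPolynomial.eval e p := funext hp
  rw [this]
  exact MvPolynomial.continuous_eval p

lemma H3_cont_e (f : MvPolynomial α F) (x : α → F) : Continuous fun e : α → F => H3 f e x := by
  have h1 := co_cont_e f x 1
  have h2 := co_cont_e f x 2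
  unfold H3 Hc
  fun_prop

lemma D3_cont_e (f : MvPolynomial α F) (x : α → F) : Continuous fun e : α → F => D3 f e x := by
  have h1 := co_cont_e f x 1
  have h2 := co_cont_e f x 2
  have h3 := co_cont_e f x 3
  unfold D3 Dc
  fun_prop

lemma th3_cont_e (f : MvPolynomial α F) (x : α → F) (y : F) :
    Continuous fun e : α → F => th3 f e x y := by
  have h1 := co_cont_e f x 1
  have h2 := co_cont_e f x 2
  have h3 := co_cont_e f x 3
  unfold th3 tq
  refine Continuous.prodMk ?_ (continuous_pi fun j => ?_)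
  · refine Continuous.div_const ?_ _
    unfold Hc
    fun_prop
  · fin_cases j
    · change Continuous fun e => 4 * Gc (y ^ 3) ((rst f x e).coeff 1) ((rst f x e).coeff 2)
        ((rst f x e).coeff 3) / (9 * y ^ 4)
      refine Continuous.div_const ?_ _
      unfold Gc
      fun_prop
    · change Continuous fun e => 2 * Hc (y ^ 3) ((rst f x e).coeff 1) ((rst f x e).coeff 2) / y ^ 2
      refine Continuous.div_const ?_ _
      unfold Hc
      fun_prop
    · exact continuous_const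
    · exact continuous_const

end cont

section alg

variable {F : Type*} [Field F] [CharZero F] {α : Type*} [Fintype α]

/-- the discriminant of the resolvent cubic -/
lemma dsc_tq {w c₁ c₂ c₃ : F} (hw : w ≠ 0) :
    dsc (tA (tq w c₁ c₂ c₃)) (tB (tq w c₁ c₂ c₃)) (tC (tq w c₁ c₂ c₃)) =
      -6912 * Dc (w ^ 3) c₁ c₂ c₃ ^ 2 := by
  have eA : tA (tq w c₁ c₂ c₃) = 2 * Hc (w ^ 3) c₁ c₂ / w ^ 2 := rfl
  have eB : tB (tq w c₁ c₂ c₃) = 4 * Hc (w ^ 3) c₁ c₂ ^ 2 / (3 * w ^ 4) := by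
    change 4 * Gc (w ^ 3) c₁ c₂ c₃ / (9 * w ^ 4) * 0 - 4 * (Hc (w ^ 3) c₁ c₂ / (3 * w ^ 3)) ^ 2 *
      (-3 * w ^ 2) = _
    field_simp
    ring
  have eC : tC (tq w c₁ c₂ c₃) =
      (72 * Hc (w ^ 3) c₁ c₂ ^ 3 - 16 * Gc (w ^ 3) c₁ c₂ c₃ ^ 2) / (27 * w ^ 6) := by
    change (4 * Gc (w ^ 3) c₁ c₂ c₃ / (9 * w ^ 4)) ^ 2 * (-3 * w ^ 2) +
      (Hc (w ^ 3) c₁ c₂ / (3 * w ^ 3)) ^ 2 * 0 ^ 2 -
      4 * (Hc (w ^ 3) c₁ c₂ / (3 * w ^ 3)) ^ 2 * (2 * Hc (w ^ 3) c₁ c₂ / w ^ 2) * (-3 * w ^ 2) = _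
    field_simp
    ring
  have h1 : Dc (w ^ 3) c₁ c₂ c₃ =
      (4 * Hc (w ^ 3) c₁ c₂ ^ 3 - Gc (w ^ 3) c₁ c₂ c₃ ^ 2) / (27 * w ^ 6) := by
    rw [syz]
    field_simp
  rw [eA, eB, eC, h1]
  unfold dsc
  field_simp
  ring

lemma tq_fst_ne {w c₁ c₂ c₃ : F} (hw : w ≠ 0) (hH : Hc (w ^ 3) c₁ c₂ ≠ 0) :
    (tq w c₁ c₂ c₃).1 ≠ 0 :=
  div_ne_zero hH (mul_ne_zero three_ne_zero (pow_ne_zero 3 hw))

lemma th3_fst_ne {f : MvPolynomial α F} {e x : α → F} {y : F} (hP : onC f x y) (hy : y ≠ 0)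
    (hH : H3 f e x ≠ 0) : (th3 f e x y).1 ≠ 0 := by
  refine tq_fst_ne hy ?_
  unfold H3 at hH
  rwa [← (show y ^ 3 = _ from hP)] at hH

lemma dsc_th3 {f : MvPolynomial α F} {e x : α → F} {y : F} (hP : onC f x y) (hy : y ≠ 0)
    (hD : D3 f e x ≠ 0) :
    dsc (tA (th3 f e x y)) (tB (th3 f e x y)) (tC (th3 f e x y)) ≠ 0 := by
  rw [th3, dsc_tq hy]
  unfold D3 at hD
  rw [← (show y ^ 3 = _ from hP)] at hD
  exact mul_ne_zero (by norm_num) (pow_ne_zero 2 hD)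

end alg

/-- infinite order is an open condition on the direction -/
lemma dir_open3 {p : ℕ} [Fact p.Prime] {α : Type*} [Fintype α] {f : MvPolynomial α ℚ_[p]}
    {e₀ x : α → ℚ_[p]} {y : ℚ_[p]} (hP : onC f x y) (hy : y ≠ 0) (h : IO3 f e₀ x y) :
    ∃ r : ℝ, 0 < r ∧ ∀ e : α → ℚ_[p], (∀ a, ‖e a - e₀ a‖ < r) → IO3 f e x y :=
  ball_of (((H3_cont_e f x).tendsto e₀ |>.eventually_ne h.1).and
    ((th3_cont_e f x y).tendsto e₀ |>.eventually
      (ev_IOt (θ₀ := th3 f e₀ x y) (th3_fst_ne hP hy h.1) h.2)))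

section moves

variable {K : Type} [Field K] [CharZero K] {α : Type} [Fintype α]

/-- moves in a direction of infinite order -/
theorem mv_io3 (hQ : S_QRT) {V : Type} [Finite V] {L : V → Type}
    [∀ v, NontriviallyNormedField (L v)] [∀ v, CompleteSpace (L v)] [∀ v, CharZero (L v)]
    {s : ∀ v, K →+* L v} (HWs : HW s) {f : MvPolynomial α K} {e : α → K}
    (he : ∀ z, (rst f z e).natDegree ≤ 3) {x₀ : ∀ v, α → L v} {y₀ : ∀ v, L v}
    (hP : ∀ v, onC (MvPolynomial.map (s v) f) (x₀ v) (y₀ v)) (hw : ∀ v, y₀ v ≠ 0)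
    (h : ∀ v, IO3 (MvPolynomial.map (s v) f) (fun a => s v (e a)) (x₀ v) (y₀ v)) :
    MvT s f e x₀ y₀ :=
  hQ K V L s α f e x₀ y₀ he hP hw (fun v => (h v).1)
    (HWs _ (fun v => th3_fst_ne (hP v) (hw v) (h v).1) fun v => (h v).2)

/-- moves in a direction which has infinite order at the p-adic places -/
theorem mv_ior3 (hQ : S_QRT) {ι : Type} [Finite ι] {p : ι → ℕ} [hp : ∀ i, Fact (p i).Prime]
    [Nonempty ι] (hinj : Function.Injective p) {σ : ∀ i, K →+* ℚ_[p i]} {τ : K →+* ℝ}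
    {f : MvPolynomial α K} {e : α → K}
    (he : ∀ z, (rst f z e).natDegree ≤ 3) {x₀ : ∀ v, α → Lv p v} {y₀ : ∀ v, Lv p v}
    (hP : ∀ v, onC (MvPolynomial.map (sv σ τ v) f) (x₀ v) (y₀ v)) (hw : ∀ v, y₀ v ≠ 0)
    (hH : H3 (MvPolynomial.map (sv σ τ none) f) (fun a => sv σ τ none (e a)) (x₀ none) ≠ 0)
    (hD : D3 (MvPolynomial.map (sv σ τ none) f) (fun a => sv σ τ none (e a)) (x₀ none) ≠ 0)
    (h : ∀ i, IO3 (MvPolynomial.map (sv σ τ (some i)) f)
      (fun a => sv σ τ (some i) (e a)) (x₀ (some i)) (y₀ (some i))) :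
    MvT (sv σ τ) f e x₀ y₀ := by
  have hH' : ∀ v, H3 (MvPolynomial.map (sv σ τ v) f) (fun a => sv σ τ v (e a)) (x₀ v) ≠ 0 := by
    rintro (_ | i)
    · exact hH
    · exact (h i).1
  refine hQ K (Option ι) (Lv p) (sv σ τ) α f e x₀ y₀ he hP hw hH' ?_
  refine hw_r hinj σ τ (θ := fun v => th3 (MvPolynomial.map (sv σ τ v) f)
    (fun a => sv σ τ v (e a)) (x₀ v) (y₀ v)) (fun v => th3_fst_ne (hP v) (hw v) (hH' v))
    (dsc_th3 (hP none) (hw none) hD) fun i => (h i).2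

end moves

end Pool.Agent.K6.H43.TC
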