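import Pool.Agent.K6.H43.TC.Cov
import Pool.Agent.K6.H43.TC.Opn
import Pool.Agent.K6.H43.TC.Dvs

/-!
# The assembly (helper43)
-/

set_option autoImplicit false
set_option linter.unusedVariables false
set_option linter.unusedSectionVars false

open Filter Topology Pool.Agent.Y720.MZ Pool.Agent.Y718.CL Pool.Agent.Y718.SF
  Pool.Agent.K6.H96.MX

namespace Pool.Agent.K6.H43.TC

section transfer

variable {K : Type} [Field K] [CharZero K] {V : Type} [Finite V] {L : V → Type}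
  [∀ v, NontriviallyNormedField (L v)] [∀ v, CompleteSpace (L v)] [∀ v, CharZero (L v)]
  {s : ∀ v, K →+* L v}

/-- **Transfer, at a local point.** -/
theorem mv_transfer3 (hQ : S_QRT) (hN : S_NEA) (HWs : HW s) {α : Type} [Fintype α]
    {f : MvPolynomial α K} {v e : α → K} {x₀ : ∀ v, α → L v} {y₀ : ∀ v, L v}
    (hP : ∀ v, onC (MvPolynomial.map (s v) f) (x₀ v) (y₀ v)) (hw : ∀ v, y₀ v ≠ 0)
    (hv : MvT s f v x₀ y₀) (he : ∀ z, (rst f z e).natDegree ≤ 3)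
    (heL : ∀ v' z, (rst (MvPolynomial.map (s v') f) z (fun a => s v' (e a))).natDegree ≤ 3)
    (hT : ∀ v', Tr3 (MvPolynomial.map (s v') f) (fun a => s v' (v a))
      (fun a => s v' (e a)) (x₀ v')) : MvT s f e x₀ y₀ := by
  refine mv_viaT hP hw hv fun δ hδ => ?_
  have h1 : ∀ v' : V, ∃ u Z : L v',
      onC (MvPolynomial.map (s v') f) (fun a => x₀ v' a + u * s v' (v a)) Z ∧ Z ≠ 0 ∧
      ‖u‖ < δ ∧ ‖Z - y₀ v'‖ < δ ∧ IO3 (MvPolynomial.map (s v') f)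
        (fun a => s v' (e a)) (fun a => x₀ v' a + u * s v' (v a)) Z := by
    intro v'
    obtain ⟨⟨s₀, k1, k2⟩, k4⟩ := hT v'
    exact hN (L v') α _ _ _ _ _ (hP v') (hw v') (heL v') s₀ k1 k2 k4 δ hδ
  choose u Z k1 k2 k3 k4 k5 using h1
  exact ⟨u, Z, k1, k2, fun v' => ⟨k3 v', k4 v'⟩, mv_io3 hQ HWs he k1 k2 k5⟩

variable {r : ℕ} {n : Fin r → ℕ}

/-- **The transfer from one factor to another one.** -/
theorem step3 (hQ : S_QRT) (hN : S_NEA) (hden : Dn s) (HWs : HW s) {f : MvPolynomial (Vr n) K}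
    (hf : MH (fun _ => 3) f) {x₀ : ∀ v, Vr n → L v} {y₀ : ∀ v, L v}
    (hP : ∀ v, onC (MvPolynomial.map (s v) f) (x₀ v) (y₀ v)) (hw : ∀ v, y₀ v ≠ 0) {k i : Fin r}
    (hk : ∀ e : Fin (n k + 1) → K, MvT s f (hat k e) x₀ y₀)
    (hS : ∀ v, ∃ g₁ : (Fin (n k + 1) → L v) → L v, NZ g₁ ∧ ∀ e₁, g₁ e₁ ≠ 0 →
      ∃ g₂ : (Fin (n i + 1) → L v) → L v, NZ g₂ ∧ ∀ e₂, g₂ e₂ ≠ 0 →
        Tr3 (MvPolynomial.map (s v) f) (hat k e₁) (hat i e₂) (x₀ v)) :
    ∀ e : Fin (n i + 1) → K, MvT s f (hat i e) x₀ y₀ := by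
  classical
  choose g₁ hg₁ hg₂ using hS
  choose c₁ ρ₁ hρ₁ hb₁ using fun v => (hg₁ v).ball
  obtain ⟨η, hη, hηm⟩ := fin_min hρ₁
  obtain ⟨e₁, he₁⟩ : ∃ e₁ : Fin (n k + 1) → K, ∀ v a, ‖s v (e₁ a) - c₁ v a‖ < η := by
    have h1 := fun a => hden (fun v => c₁ v a) η hη
    choose g hg using h1
    exact ⟨g, fun v a => hg a v⟩
  have h1 : ∀ v, g₁ v (fun a => s v (e₁ a)) ≠ 0 := fun v =>
    hb₁ v _ fun a => (he₁ v a).trans_le (hηm v)
  choose g₂ hg₂a hg₂b using fun v => hg₂ v _ (h1 v)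
  choose c₂ ρ₂ hρ₂ hb₂ using fun v => (hg₂a v).ball
  obtain ⟨η', hη', hηm'⟩ := fin_min hρ₂
  intro e
  have h5 : e ∈ (mvSubT hP hw).comap (hatL K i) := by
    refine near_top hden _ c₂ hη' (fun e₂ he₂ => ?_) e
    refine mv_transfer3 hQ hN HWs hP hw (hk e₁) (fun z => deg_hat hf z i e₂) (fun v z => ?_)
      fun v => ?_
    · change (rst (MvPolynomial.map (s v) f) z (fun a => s v (hat i e₂ a))).natDegree ≤ 3
      rw [hat_map]
      exact deg_hat (hf.map (s v)) z i _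
    · change Tr3 (MvPolynomial.map (s v) f) (fun a => s v (hat k e₁ a))
        (fun a => s v (hat i e₂ a)) (x₀ v)
      rw [hat_map, hat_map]
      exact hg₂b v _ (hb₂ v _ fun a => (he₂ v a).trans_le (hηm' v))
  exact h5

end transfer

section free

variable {r : ℕ} {n : Fin r → ℕ} {K : Type} [Field K] [CharZero K] {ι : Type} [Finite ι]
  {p : ι → ℕ} [hp : ∀ i, Fact (p i).Prime]

/-- **A factor with a direction of infinite order: p-adic places** -/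
theorem free3_p (hQ : S_QRT) [Nonempty ι] (hinj : Function.Injective p) (σ : ∀ i, K →+* ℚ_[p i])
    {f : MvPolynomial (Vr n) K} (hf : MH (fun _ => 3) f) {i : Fin r}
    {x₀ : ∀ v, Vr n → ℚ_[p v]} {y₀ : ∀ v, ℚ_[p v]}
    (hP : ∀ v, onC (MvPolynomial.map (σ v) f) (x₀ v) (y₀ v)) (hw : ∀ v, y₀ v ≠ 0)
    (h : ∀ v, ∃ e : Fin (n i + 1) → ℚ_[p v],
      IO3 (Gi (MvPolynomial.map (σ v) f) (x₀ v) i) e (fun j => x₀ v ⟨i, j⟩) (y₀ v))
    (e : Fin (n i + 1) → K) : MvT σ f (hat i e) x₀ y₀ := by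
  classical
  choose e₀ he₀ using h
  choose ρ hρ hρb using fun v => dir_open3 (onC_Gi (hP v) i) (hw v) (he₀ v)
  obtain ⟨ρ₀, hρ₀, hρ₀m⟩ := fin_min hρ
  have h5 : e ∈ (mvSubT hP hw).comap (hatL K i) := by
    refine near_top (dn_p hinj σ) _ e₀ hρ₀ (fun e he => ?_) _
    refine mv_io3 hQ (hw_p hinj σ) (fun z => deg_hat hf z i e) hP hw fun v => ?_
    have h6 := hρb v (fun a => σ v (e a)) fun a => (he v a).trans_le (hρ₀m v)
    rw [← IO3_hat, ← hat_map] at h6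
    exact h6
  exact h5

/-- **the real place and p-adic places** -/
theorem free3_r (hQ : S_QRT) [Nonempty ι] (hinj : Function.Injective p) (σ : ∀ i, K →+* ℚ_[p i])
    (τ : K →+* ℝ) {f : MvPolynomial (Vr n) K} (hf : MH (fun _ => 3) f) {i : Fin r}
    {x₀ : ∀ v, Vr n → Lv p v} {y₀ : ∀ v, Lv p v}
    (hP : ∀ v, onC (MvPolynomial.map (Pool.Agent.Y720.MZ.sv σ τ v) f) (x₀ v) (y₀ v))
    (hw : ∀ v, y₀ v ≠ 0)
    (hD : ∃ e : Fin (n i + 1) → ℝ,
      H3 (Gi (MvPolynomial.map τ f) (x₀ none) i) e (fun j => x₀ none ⟨i, j⟩) ≠ 0 ∧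
      D3 (Gi (MvPolynomial.map τ f) (x₀ none) i) e (fun j => x₀ none ⟨i, j⟩) ≠ 0)
    (h : ∀ v, ∃ e : Fin (n i + 1) → ℚ_[p v],
      IO3 (Gi (MvPolynomial.map (σ v) f) (x₀ (some v)) i) e (fun j => x₀ (some v) ⟨i, j⟩)
        (y₀ (some v))) (e : Fin (n i + 1) → K) :
    MvT (Pool.Agent.Y720.MZ.sv σ τ) f (hat i e) x₀ y₀ := by
  classical
  choose e₁ he₁ using h
  obtain ⟨e₂, he₂, he₂'⟩ := hD
  choose ρ hρ hρb using fun v : ι => dir_open3
    (f := Gi (MvPolynomial.map (σ v) f) (x₀ (some v)) i)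
    (onC_Gi (F := ℚ_[p v]) (f := MvPolynomial.map (σ v) f) (hP (some v)) i)
    (hw (some v)) (he₁ v)
  obtain ⟨r₁, hr₁, hr₁m⟩ := fin_min hρ
  obtain ⟨r₂, hr₂, hr₂b⟩ := ball_of (((H3_cont_e (Gi (MvPolynomial.map τ f) (x₀ none) i)
    (fun j => x₀ none ⟨i, j⟩)).tendsto e₂ |>.eventually_ne he₂).and
      ((D3_cont_e (Gi (MvPolynomial.map τ f) (x₀ none) i)
    (fun j => x₀ none ⟨i, j⟩)).tendsto e₂ |>.eventually_ne he₂'))
  let e₀ : ∀ v, Fin (n i + 1) → Lv p v := fun v => match v with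
    | none => e₂
    | some v => e₁ v
  have h5 : e ∈ (mvSubT hP hw).comap (hatL K i) := by
    refine near_top (dn_all hinj σ τ) _ e₀ (lt_min hr₁ hr₂) (fun e he => ?_) _
    have h6 := hr₂b (fun a => τ (e a)) fun a => (he none a).trans_le (min_le_right _ _)
    refine mv_ior3 hQ hinj (fun z => deg_hat hf z i e) hP hw ?_ ?_ fun v => ?_
    · have h7 : H3 (F := ℝ) (MvPolynomial.map τ f) (fun a => τ (hat i e a)) (x₀ none) ≠ 0 := by
        rw [hat_map, H3_hat (F := ℝ) (MvPolynomial.map τ f) (x₀ none) i (fun j => τ (e j))]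
        exact h6.1
      exact h7
    · have h7 : D3 (F := ℝ) (MvPolynomial.map τ f) (fun a => τ (hat i e a)) (x₀ none) ≠ 0 := by
        rw [hat_map, D3_hat (F := ℝ) (MvPolynomial.map τ f) (x₀ none) i (fun j => τ (e j))]
        exact h6.2
      exact h7
    · have h6 := hρb v (fun a => σ v (e a)) fun a =>
        (he (some v) a).trans_le ((min_le_left _ _).trans (hr₁m v))
      have h7 : IO3 (F := ℚ_[p v]) (MvPolynomial.map (σ v) f) (fun a => σ v (hat i e a))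
          (x₀ (some v)) (y₀ (some v)) := by
        rw [hat_map, IO3_hat (F := ℚ_[p v]) (MvPolynomial.map (σ v) f) (x₀ (some v))
          (y₀ (some v)) i (fun j => σ v (e j))]
        exact h6
      exact h7
  exact h5

end free

section good

variable {r : ℕ} {n : Fin r → ℕ}

lemma Good3.io (hd : S_DIR) {p : ℕ} [Fact p.Prime] {g : MvPolynomial (Vr n) ℚ_[p]}
    (hg : MH (fun _ => 3) g) {k : Fin r} {x : Vr n → ℚ_[p]} {y : ℚ_[p]} (h : Good3 g k x)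
    (hP : onC g x y) (hy : y ≠ 0) :
    ∃ e : Fin (n k + 1) → ℚ_[p], IO3 (Gi g x k) e (fun j => x ⟨k, j⟩) y := by
  refine hd p (Fin (n k + 1)) (Gi g x k) (fun j => x ⟨k, j⟩) y (onC_Gi hP k) hy
    (fun e => ?_) ?_
  · have h1 := deg_hat hg x k e
    rw [rst_hat] at h1
    exact h1
  · obtain ⟨e, e', he⟩ := h.free
    refine ⟨e, e', ?_⟩
    simpa only [G3_hat, H3_hat] using he

/-- the transfer -/
lemma Good3.srv {F : Type} [Field F] [CharZero F] {g : MvPolynomial (Vr n) F}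
    (hg : MH (fun _ => 3) g) {k : Fin r} {x : Vr n → F} (h : Good3 g k x)
    (hx : MvPolynomial.eval x g ≠ 0) {i : Fin r} (hi : i ≠ k) :
    ∃ g₁ : (Fin (n k + 1) → F) → F, NZ g₁ ∧ ∀ e₁, g₁ e₁ ≠ 0 →
      ∃ g₂ : (Fin (n i + 1) → F) → F, NZ g₂ ∧ ∀ e₂, g₂ e₂ ≠ 0 →
        Tr3 g (hat k e₁) (hat i e₂) x := by
  obtain ⟨e, he⟩ := h.sep i
  exact srv3 hg hx (Ne.symm hi) (NZs_three hg rfl (h.sep k)) (h.ind i hi)
    ⟨fun j => x ⟨k, j⟩, e, by rw [rpl_self]; exact he⟩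

/-- a direction where both covariants are not zero -/
lemma Good3.both {F : Type} [Field F] [CharZero F] {g : MvPolynomial (Vr n) F}
    {k : Fin r} {x : Vr n → F} (h : Good3 g k x) :
    ∃ e : Fin (n k + 1) → F, H3 (Gi g x k) e (fun j => x ⟨k, j⟩) ≠ 0 ∧
      D3 (Gi g x k) e (fun j => x ⟨k, j⟩) ≠ 0 := by
  obtain ⟨e₁, e₂, h12⟩ := h.free
  obtain ⟨e₃, h3⟩ := h.sep k
  have h4 : ∃ e : Fin (n k + 1) → F, H3 g (hat k e) x ≠ 0 := by
    by_contra hcon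
    push Not at hcon
    apply h12
    rw [hcon, hcon]
    ring
  obtain ⟨e₄, h4⟩ := h4
  have n1 : NZ fun e : Fin (n k + 1) → F => H3 g (hat k e) x :=
    ⟨(PK_H3_e g x).comp (φ := fun (a : Vr n) (u : Fin (n k + 1) → F) => hat k u a)
      fun a => PK_hat k a, e₄, h4⟩
  have n2 : NZ fun e : Fin (n k + 1) → F => D3 g (hat k e) x :=
    ⟨(PK_D3_e g x).comp (φ := fun (a : Vr n) (u : Fin (n k + 1) → F) => hat k u a)
      fun a => PK_hat k a, e₃, h3⟩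
  obtain ⟨-, e, he⟩ := n1.mul n2
  obtain ⟨k1, k2⟩ := mul_ne_zero_iff.1 he
  exact ⟨e, by rw [← H3_hat]; exact k1, by rw [← D3_hat]; exact k2⟩

end good

section places

variable {r : ℕ} {n : Fin r → ℕ} {K : Type} [Field K] [CharZero K] {ι : Type} [Finite ι]
  {p : ι → ℕ} [hp : ∀ i, Fact (p i).Prime]

/-- **p-adic places** -/
theorem gen3_p (hQ : S_QRT) (hN : S_NEA) (hd : S_DIR) [Nonempty ι] (hinj : Function.Injective p)
    (σ : ∀ i, K →+* ℚ_[p i]) {f : MvPolynomial (Vr n) K} (hf : MH (fun _ => 3) f)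
    {k : Fin r} {x₀ : ∀ v, Vr n → ℚ_[p v]} {y₀ : ∀ v, ℚ_[p v]}
    (hP : ∀ v, onC (MvPolynomial.map (σ v) f) (x₀ v) (y₀ v)) (hw : ∀ v, y₀ v ≠ 0)
    (h : ∀ v, Good3 (MvPolynomial.map (σ v) f) k (x₀ v)) : IntT σ f x₀ y₀ := by
  classical
  have hne : ∀ v, MvPolynomial.eval (x₀ v) (MvPolynomial.map (σ v) f) ≠ 0 := fun v => by
    rw [← (show y₀ v ^ 3 = _ from hP v)]
    exact pow_ne_zero 3 (hw v)
  have hk : ∀ e : Fin (n k + 1) → K, MvT σ f (hat k e) x₀ y₀ :=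
    free3_p hQ hinj σ hf hP hw fun v => (h v).io hd (hf.map (σ v)) (hP v) (hw v)
  refine int_of_mvT hP hw fun ⟨i, j⟩ => ?_
  rw [hat_single]
  by_cases hi : i = k
  · subst hi
    exact hk _
  · exact step3 hQ hN (dn_p hinj σ) (hw_p hinj σ) hf hP hw hk
      (fun v => (h v).srv (hf.map (σ v)) (hne v) hi) _

/-- **the real place and p-adic places** -/
theorem gen3_r (hQ : S_QRT) (hN : S_NEA) (hd : S_DIR) [Nonempty ι] (hinj : Function.Injective p)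
    (σ : ∀ i, K →+* ℚ_[p i]) (τ : K →+* ℝ) {f : MvPolynomial (Vr n) K} (hf : MH (fun _ => 3) f)
    {k : Fin r} {x₀ : ∀ v, Vr n → Lv p v} {y₀ : ∀ v, Lv p v}
    (hP : ∀ v, onC (MvPolynomial.map (sv σ τ v) f) (x₀ v) (y₀ v)) (hw : ∀ v, y₀ v ≠ 0)
    (h0 : Good3 (F := ℝ) (MvPolynomial.map τ f) k (x₀ none))
    (h : ∀ v, Good3 (F := ℚ_[p v]) (MvPolynomial.map (σ v) f) k (x₀ (some v))) :
    IntT (sv σ τ) f x₀ y₀ := by
  classical
  have hne : ∀ v, MvPolynomial.eval (x₀ v) (MvPolynomial.map (sv σ τ v) f) ≠ 0 := fun v => by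
    rw [← (show y₀ v ^ 3 = _ from hP v)]
    exact pow_ne_zero 3 (hw v)
  have hk : ∀ e : Fin (n k + 1) → K, MvT (sv σ τ) f (hat k e) x₀ y₀ :=
    free3_r hQ hinj σ τ hf hP hw h0.both fun v =>
      (h v).io hd (hf.map (σ v)) (hP (some v)) (hw (some v))
  refine int_of_mvT hP hw fun ⟨i, j⟩ => ?_
  rw [hat_single]
  by_cases hi : i = k
  · subst hi
    exact hk _
  · refine step3 hQ hN (dn_all hinj σ τ) (hw_all hinj σ τ) hf hP hw hk ?_ _
    rintro (_ | v)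
    · exact h0.srv (F := ℝ) (hf.map τ) (hne none) hi
    · exact (h v).srv (F := ℚ_[p v]) (hf.map (σ v)) (hne (some v)) hi

end places

end Pool.Agent.K6.H43.TC
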