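import Pool.Agent.K6.H43.TC.Stm

/-!
# Moves on the triple covers `w³ = f(z)`: the formal machinery (helper13, for helper43)

The directions of the moves close to a local point form a vector space, moves in all the
coordinate directions give openness, and moves may be transported through another point.  The
proofs follow `Pool/Agent/Y718/CL/Mv.lean` and `Pool/Agent/Y720/WL/Mv.lean` (double covers).
-/

set_option autoImplicit false
set_option linter.unusedVariables false
set_option linter.unusedSectionVars false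

open Filter Topology Pool.Agent.Y720.MZ

namespace Pool.Agent.K6.H43.TC

variable {K : Type} [Field K] [CharZero K] {V : Type} [Finite V] {L : V → Type}
  [∀ v, NontriviallyNormedField (L v)] [∀ v, CompleteSpace (L v)] {s : ∀ v, K →+* L v}
  {α : Type} [Fintype α] {f : MvPolynomial α K} {x₀ : ∀ v, α → L v} {y₀ : ∀ v, L v}

omit [CharZero K] [Finite V] [∀ v, CompleteSpace (L v)] in
/-- the points of the triple cover are preserved by the embeddings -/
lemma onC_map {f : MvPolynomial α K} {z : α → K} {w : K} (h : onC f z w) (v : V) :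
    onC (MvPolynomial.map (s v) f) (fun a => s v (z a)) (s v w) := by
  unfold onC at *
  rw [← map_pow, h, MvPolynomial.eval_map, ← MvPolynomial.eval₂_id, MvPolynomial.eval₂_comp_left,
    RingHom.comp_id]
  rfl

/-- two cube roots of the same element close to the same nonzero element coincide -/
lemma cb_uniq (hw : ∀ v, y₀ v ≠ 0) [∀ v, CharZero (L v)] : ∃ ε : ℝ, 0 < ε ∧
    ∀ (v : V) (Y W : L v), ‖Y - y₀ v‖ < ε → ‖W - y₀ v‖ < ε → Y ^ 3 = W ^ 3 → Y = W := by
  have h0 : ∀ v : V, ∃ ε : ℝ, 0 < ε ∧ ∀ Y W : L v, ‖Y - y₀ v‖ < ε → ‖W - y₀ v‖ < ε →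
      Y ^ 2 + Y * W + W ^ 2 ≠ 0 := by
    intro v
    let G : L v × L v → L v := fun e => e.1 ^ 2 + e.1 * e.2 + e.2 ^ 2
    have hG : ContinuousAt G (y₀ v, y₀ v) := by fun_prop
    have hG0 : G (y₀ v, y₀ v) ≠ 0 := by
      have h1 : G (y₀ v, y₀ v) = 3 * y₀ v ^ 2 := by simp only [G]; ring
      rw [h1]
      exact mul_ne_zero three_ne_zero (pow_ne_zero 2 (hw v))
    obtain ⟨ε, hε, hb⟩ := Metric.eventually_nhds_iff_ball.1 (hG.eventually_ne hG0)
    refine ⟨ε, hε, fun Y W h1 h2 => hb (Y, W) ?_⟩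
    rw [Metric.mem_ball, Prod.dist_eq]
    refine max_lt ?_ ?_
    · rw [dist_eq_norm]; exact h1
    · rw [dist_eq_norm]; exact h2
  choose ε hε hb using h0
  obtain ⟨ε', hε', hm⟩ := fin_min hε
  refine ⟨ε', hε', fun v Y W h1 h2 h3 => ?_⟩
  have h4 : (Y - W) * (Y ^ 2 + Y * W + W ^ 2) = 0 := by linear_combination h3
  exact sub_eq_zero.1 ((mul_eq_zero.1 h4).resolve_right
    (hb v Y W (h1.trans_le (hm v)) (h2.trans_le (hm v))))

/-- the trivial move -/
theorem mv_zeroT (hw : ∀ v, y₀ v ≠ 0) : MvT s f (0 : α → K) x₀ y₀ := by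
  have hcz : ∀ v, CharZero (L v) := fun v => charZero_of_injective_ringHom (s v).injective
  obtain ⟨ε, hε, hm⟩ := cb_uniq hw
  refine ⟨ε, hε, fun z w hzw hn t Y ht hY hYe η hη => ⟨z, w, hzw, fun v => ?_⟩⟩
  have e0 : (fun a => s v (z a) + t v * s v ((0 : α → K) a)) = fun a => s v (z a) := by
    funext a; simp
  have h2 := hYe v
  rw [e0] at h2
  have h3 : Y v ^ 3 = s v w ^ 3 := h2.trans (onC_map (s := s) hzw v).symm
  have h6 : Y v = s v w := hm v _ _ (hY v) (hn v).2 h3
  refine ⟨fun a => ?_, ?_⟩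
  · have := congrFun e0 a
    change ‖s v (z a) - (s v (z a) + t v * s v ((0 : α → K) a))‖ < η
    rw [this, sub_self, norm_zero]; exact hη
  · rw [h6, sub_self, norm_zero]; exact hη

/-- multiples of the direction -/
theorem mv_smulT (hw : ∀ v, y₀ v ≠ 0) {e : α → K} (h : MvT s f e x₀ y₀) (c : K) :
    MvT s f (c • e) x₀ y₀ := by
  by_cases hc : c = 0
  · rw [hc, zero_smul]; exact mv_zeroT hw
  obtain ⟨δ, hδ, hm⟩ := h
  have hcv : ∀ v, 0 < ‖s v c‖ := fun v => norm_pos_iff.2 ((map_ne_zero (s v)).2 hc)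
  obtain ⟨δ', hδ', hδ'v⟩ := fin_min (f := fun v : V => δ / ‖s v c‖) fun v => div_pos hδ (hcv v)
  refine ⟨min δ δ', lt_min hδ hδ', fun z w hzw hn t Y ht hY hYe η hη => ?_⟩
  have e1 : ∀ v a, s v (z a) + t v * s v ((c • e) a) = s v (z a) + (t v * s v c) * s v (e a) := by
    intro v a
    rw [Pi.smul_apply, smul_eq_mul, map_mul]
    ring
  obtain ⟨z', w', h1, h2⟩ := hm z w hzw (hn.mono (min_le_left _ _)) (fun v => t v * s v c) Y
    (fun v => by
      have := (ht v).trans_le ((min_le_right _ _).trans (hδ'v v))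
      rw [lt_div_iff₀ (hcv v)] at this
      rw [norm_mul]
      exact this)
    (fun v => (hY v).trans_le (min_le_left _ _)) (fun v => by
      have := hYe v
      simp only [e1] at this
      exact this) η hη
  refine ⟨z', w', h1, fun v => ⟨fun a => ?_, (h2 v).2⟩⟩
  have := (h2 v).1 a
  dsimp only at this ⊢
  rw [e1]
  exact this

/-- sums of directions -/
theorem mv_addT (hP : ∀ v, onC (MvPolynomial.map (s v) f) (x₀ v) (y₀ v)) (hw : ∀ v, y₀ v ≠ 0)
    {e e' : α → K} (h : MvT s f e x₀ y₀) (h' : MvT s f e' x₀ y₀) : MvT s f (e + e') x₀ y₀ := by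
  by_cases hV : IsEmpty V
  · exact ⟨1, one_pos, fun z w hzw hn t Y ht hY hYe η hη => ⟨z, w, hzw,
      fun v => (hV.false v).elim⟩⟩
  rw [not_isEmpty_iff] at hV
  have hcz : ∀ v, CharZero (L v) := fun v => charZero_of_injective_ringHom (s v).injective
  obtain ⟨δ₁, hδ₁, hm⟩ := h
  obtain ⟨δ₂, hδ₂, hm'⟩ := h'
  -- cube roots close to the base point
  have hsq : ∀ v', ∃ ρ : ℝ, 0 < ρ ∧ ∀ x' : α → L v',
      (∀ a, ‖x' a - x₀ v' a‖ < ρ) →
      ∃ y' : L v', ‖y' - y₀ v'‖ < min δ₁ (δ₂ / 2) ∧ onC (MvPolynomial.map (s v') f) x' y' := by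
    intro v'
    have := hcz v'
    exact cb_near (hP v') (hw v') (lt_min hδ₁ (half_pos hδ₂))
  choose ρ hρ hρb using hsq
  obtain ⟨ρ₀, hρ₀, hρm⟩ := fin_min hρ
  set ε₀ := min (δ₂ / 4) (ρ₀ / 2) with hε₀
  have hε₀0 : 0 < ε₀ := lt_min (by positivity) (by positivity)
  have a1 : ε₀ ≤ δ₂ / 4 := min_le_left _ _
  have a2 : ε₀ ≤ ρ₀ / 2 := min_le_right _ _
  obtain ⟨κ, hκ, hκle, hdir⟩ := dir_bound (s := s) e hε₀0
  obtain ⟨ω, hω, hωm⟩ := fin_min (f := fun v' : V => ‖y₀ v'‖) fun v' => norm_pos_iff.2 (hw v')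
  set ε := min (min κ ω) (min δ₁ (δ₂ / 2)) with hε
  have hε0 : 0 < ε := lt_min (lt_min hκ hω) (lt_min hδ₁ (half_pos hδ₂))
  have b1 : ε ≤ κ := (min_le_left _ _).trans (min_le_left _ _)
  have b2 : ε ≤ ω := (min_le_left _ _).trans (min_le_right _ _)
  have b3 : ε ≤ δ₁ := (min_le_right _ _).trans (min_le_left _ _)
  have b4 : ε ≤ δ₂ / 2 := (min_le_right _ _).trans (min_le_right _ _)
  refine ⟨ε, hε0, fun z w hzw hn t Y ht hY hYe η hη => ?_⟩
  have hte : ∀ v' a, ‖t v' * s v' (e a)‖ < ε₀ := fun v' a =>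
    hdir v' a _ ((ht v').trans_le b1)
  -- cube roots close to the target
  have hsq' : ∀ v', ∃ ρ : ℝ, 0 < ρ ∧ ∀ x' : α → L v',
      (∀ a, ‖x' a - (s v' (z a) + t v' * s v' ((e + e') a))‖ < ρ) →
      ∃ y' : L v', ‖y' - Y v'‖ < min (η / 2) (δ₂ / 2) ∧
        onC (MvPolynomial.map (s v') f) x' y' := by
    intro v'
    have := hcz v'
    refine cb_near (hYe v') ?_ (lt_min (half_pos hη) (half_pos hδ₂))
    intro h0
    have h1 := (hY v').trans_le b2
    rw [h0, zero_sub, norm_neg] at h1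
    exact absurd h1 (not_lt.2 (hωm v'))
  choose ρ' hρ' hρb' using hsq'
  obtain ⟨ρ₁, hρ₁, hρm'⟩ := fin_min hρ'
  set η₁ := min (min (δ₂ / 4) ρ₁) (η / 2) with hη₁
  have hη₁0 : 0 < η₁ := lt_min (lt_min (by positivity) hρ₁) (half_pos hη)
  have c1 : η₁ ≤ δ₂ / 4 := (min_le_left _ _).trans (min_le_left _ _)
  have c2 : η₁ ≤ ρ₁ := (min_le_left _ _).trans (min_le_right _ _)
  have c3 : η₁ ≤ η / 2 := min_le_right _ _
  -- the first step
  choose Y₁ hY₁a hY₁b using fun v' => hρb v' (fun a => s v' (z a) + t v' * s v' (e a))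
    (fun a => by
      have e1 : s v' (z a) + t v' * s v' (e a) - x₀ v' a =
          (s v' (z a) - x₀ v' a) + t v' * s v' (e a) := by ring
      rw [e1]
      have k1 := norm_add_le (s v' (z a) - x₀ v' a) (t v' * s v' (e a))
      have k2 := (hn v').1 a
      have k3 := hte v' a
      have k4 := hρm v'
      have k5 : ε ≤ ε₀ := b1.trans hκle
      linarith)
  obtain ⟨z₁, w₁, hzw₁, hn₁⟩ := hm z w hzw (hn.mono b3) t Y₁
    (fun v' => (ht v').trans_le b3) (fun v' => (hY₁a v').trans_le (min_le_left _ _)) hY₁b η₁ hη₁0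
  have hz₁ : ∀ v' a, ‖s v' (z₁ a) - (s v' (z a) + t v' * s v' (e a))‖ < η₁ := fun v' a =>
    (hn₁ v').1 a
  -- the second step
  choose Y₂ hY₂a hY₂b using fun v' => hρb' v' (fun a => s v' (z₁ a) + t v' * s v' (e' a))
    (fun a => by
      have e1 : s v' (z₁ a) + t v' * s v' (e' a) - (s v' (z a) + t v' * s v' ((e + e') a)) =
          s v' (z₁ a) - (s v' (z a) + t v' * s v' (e a)) := by
        rw [Pi.add_apply, map_add]; ring
      rw [e1]
      exact (hz₁ v' a).trans_le (c2.trans (hρm' v')))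
  obtain ⟨z₂, w₂, hzw₂, hn₂⟩ := hm' z₁ w₁ hzw₁ (fun v' => ⟨fun a => by
      have e1 : s v' (z₁ a) - x₀ v' a = (s v' (z₁ a) - (s v' (z a) + t v' * s v' (e a))) +
          ((s v' (z a) - x₀ v' a) + t v' * s v' (e a)) := by ring
      rw [e1]
      have k1 := norm_add_le (s v' (z₁ a) - (s v' (z a) + t v' * s v' (e a)))
        ((s v' (z a) - x₀ v' a) + t v' * s v' (e a))
      have k2 := norm_add_le (s v' (z a) - x₀ v' a) (t v' * s v' (e a))
      have k3 := hz₁ v' a
      have k4 := (hn v').1 a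
      have k5 := hte v' a
      linarith, by
      have k1 := (hn₁ v').2
      have k2 := (hY₁a v').trans_le (min_le_right _ _)
      have k3 := norm_sub_le_norm_sub_add_norm_sub (s v' w₁) (Y₁ v') (y₀ v')
      linarith⟩) t Y₂ (fun v' => (ht v').trans_le (b4.trans (by linarith))) (fun v' => by
      have k1 := (hY₂a v').trans_le (min_le_right _ _)
      have k2 := (hY v').trans_le b4
      have k3 := norm_sub_le_norm_sub_add_norm_sub (Y₂ v') (Y v') (y₀ v')
      linarith) hY₂b η₁ hη₁0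
  refine ⟨z₂, w₂, hzw₂, fun v' => ⟨fun a => ?_, ?_⟩⟩
  · have e1 : s v' (z₂ a) - (s v' (z a) + t v' * s v' ((e + e') a)) =
        (s v' (z₂ a) - (s v' (z₁ a) + t v' * s v' (e' a))) +
        (s v' (z₁ a) - (s v' (z a) + t v' * s v' (e a))) := by
      rw [Pi.add_apply, map_add]; ring
    have k1 := (hn₂ v').1 a
    have k2 := hz₁ v' a
    have k3 := norm_add_le (s v' (z₂ a) - (s v' (z₁ a) + t v' * s v' (e' a)))
        (s v' (z₁ a) - (s v' (z a) + t v' * s v' (e a)))
    dsimp only at k1 ⊢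
    rw [e1]
    linarith
  · have k1 := (hn₂ v').2
    have k2 := (hY₂a v').trans_le (min_le_left _ _)
    have k3 := norm_sub_le_norm_sub_add_norm_sub (s v' w₂) (Y₂ v') (Y v')
    linarith

/-- the space of the directions of moves -/
def mvSubT (hP : ∀ v, onC (MvPolynomial.map (s v) f) (x₀ v) (y₀ v)) (hw : ∀ v, y₀ v ≠ 0) :
    Submodule K (α → K) where
  carrier := {e | MvT s f e x₀ y₀}
  add_mem' h h' := mv_addT hP hw h h'
  zero_mem' := mv_zeroT hw
  smul_mem' c _ h := mv_smulT hw h c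

/-- **Assembly.** -/
theorem int_of_mvT [DecidableEq α] {f : MvPolynomial α K} {x₀ : ∀ v, α → L v} {y₀ : ∀ v, L v}
    (hP : ∀ v, onC (MvPolynomial.map (s v) f) (x₀ v) (y₀ v)) (hw : ∀ v, y₀ v ≠ 0)
    (hM : ∀ a, MvT s f (Pi.single a 1) x₀ y₀) : IntT s f x₀ y₀ := by
  classical
  have hcz : ∀ v, CharZero (L v) := fun v => charZero_of_injective_ringHom (s v).injective
  have hw' : ∀ v, 0 < ‖y₀ v‖ := fun v => norm_pos_iff.2 (hw v)
  have hw2 : ∀ v, 0 < ‖2 * y₀ v‖ := fun v => by
    have := hcz v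
    exact norm_pos_iff.2 (mul_ne_zero two_ne_zero (hw v))
  have claim : ∀ S : Finset α, ∃ ε : ℝ, 0 < ε ∧ ∀ (z : α → K) (w : K), onC f z w →
      nr s ε z w x₀ y₀ →
      ∀ (x : ∀ v, α → L v) (y : ∀ v, L v),
      (∀ v, onC (MvPolynomial.map (s v) f) (x v) (y v)) →
      (∀ v, (∀ a, ‖x v a - x₀ v a‖ < ε) ∧ ‖y v - y₀ v‖ < ε) →
      (∀ v, ∀ a ∉ S, x v a = s v (z a)) → ∀ η : ℝ, 0 < η →
      ∃ (z' : α → K) (w' : K), onC f z' w' ∧ nr s η z' w' x y := by
    intro S
    induction S using Finset.induction_on with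
    | empty =>
      obtain ⟨ε, hε, hm⟩ := cb_uniq hw
      refine ⟨ε, hε, fun z w hzw hn x y hxy hT hx η hη => ⟨z, w, hzw, fun v => ?_⟩⟩
      have h1 : x v = fun a => s v (z a) := by
        funext a
        exact hx v a (Finset.notMem_empty a)
      have h2 := hxy v
      rw [h1] at h2
      have h3 : y v ^ 3 = s v w ^ 3 := h2.trans (onC_map (s := s) hzw v).symm
      have h6 : y v = s v w := hm v _ _ (hT v).2 (hn v).2 h3
      refine ⟨fun a => ?_, ?_⟩
      · rw [h1, sub_self, norm_zero]; exact hη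
      · rw [h6, sub_self, norm_zero]; exact hη
    | insert a S ha ih =>
      obtain ⟨ε', hε', hcl⟩ := ih
      obtain ⟨δ, hδ, hmv⟩ := hM a
      have hsq : ∀ v, ∃ ρ : ℝ, 0 < ρ ∧ ∀ x' : α → L v, (∀ a, ‖x' a - x₀ v a‖ < ρ) →
          ∃ y' : L v, ‖y' - y₀ v‖ < min δ (ε' / 2) ∧ onC (MvPolynomial.map (s v) f) x' y' := by
        intro v
        have := hcz v
        exact cb_near (hP v) (hw v) (lt_min hδ (half_pos hε'))
      choose ρ hρ hρb using hsq
      obtain ⟨ε, hε, hm⟩ := fin_min (f := fun v : V => min (min (ε' / 2) (δ / 2))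
        (min (ρ v) (‖y₀ v‖))) fun v => lt_min (lt_min (half_pos hε') (half_pos hδ))
          (lt_min (hρ v) (hw' v))
      by_cases hV : IsEmpty V
      · exact ⟨1, one_pos, fun z w hzw hn x y hxy hT hx η hη => ⟨z, w, hzw,
          fun v => (hV.false v).elim⟩⟩
      rw [not_isEmpty_iff] at hV
      have hε1 : ε ≤ ε' / 2 := by
        obtain ⟨v⟩ := hV
        exact (hm v).trans ((min_le_left _ _).trans (min_le_left _ _))
      have hε2 : ε ≤ δ / 2 := by
        obtain ⟨v⟩ := hV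
        exact (hm v).trans ((min_le_left _ _).trans (min_le_right _ _))
      have hε3 : ∀ v, ε ≤ ρ v := fun v => (hm v).trans ((min_le_right _ _).trans (min_le_left _ _))
      have hε4 : ∀ v, ε ≤ ‖y₀ v‖ := fun v =>
        (hm v).trans ((min_le_right _ _).trans (min_le_right _ _))
      refine ⟨ε, hε, fun z w hzw hn x y hxy hT hx η hη => ?_⟩
      -- the first target
      set t : ∀ v, L v := fun v => x v a - s v (z a) with ht
      set x₁ : ∀ v, α → L v := fun v b => s v (z b) + t v * s v ((Pi.single a 1 : α → K) b) with hx₁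
      have hx₁a : ∀ v, x₁ v a = x v a := by
        intro v
        simp only [hx₁, ht, Pi.single_eq_same, map_one, mul_one]
        ring
      have hx₁b : ∀ v b, b ≠ a → x₁ v b = s v (z b) := by
        intro v b hb
        simp only [hx₁, Pi.single_eq_of_ne hb, map_zero, mul_zero, add_zero]
      have hx₁P : ∀ v b, ‖x₁ v b - x₀ v b‖ < ε := by
        intro v b
        by_cases hb : b = a
        · rw [hb, hx₁a]; exact (hT v).1 a
        · rw [hx₁b v b hb]; exact (hn v).1 b
      have hx₁S : ∀ v b, b ∉ S → x₁ v b = x v b := by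
        intro v b hb
        by_cases hba : b = a
        · rw [hba, hx₁a]
        · rw [hx₁b v b hba, hx v b]
          rw [Finset.mem_insert, not_or]
          exact ⟨hba, hb⟩
      choose Y hY1 hY2 using fun v => hρb v (x₁ v) fun b => (hx₁P v b).trans_le (hε3 v)
      -- the second target
      have hsq' : ∀ v, ∃ ρ : ℝ, 0 < ρ ∧ ∀ x' : α → L v, (∀ a, ‖x' a - x v a‖ < ρ) →
          ∃ y' : L v, ‖y' - y v‖ < min (η / 2) (ε' / 2) ∧
            onC (MvPolynomial.map (s v) f) x' y' := by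
        intro v
        have := hcz v
        refine cb_near (hxy v) ?_ (lt_min (half_pos hη) (half_pos hε'))
        intro h0
        have h1 := (hT v).2
        rw [h0, zero_sub, norm_neg] at h1
        exact absurd h1 (not_lt.2 (hε4 v))
      choose ρ' hρ' hρb' using hsq'
      obtain ⟨η₁, hη₁, hm₁⟩ := fin_min (f := fun v : V => min (min (ε' / 2) (η / 2)) (ρ' v))
        fun v => lt_min (lt_min (half_pos hε') (half_pos hη)) (hρ' v)
      have g1 : η₁ ≤ ε' / 2 := by
        obtain ⟨v⟩ := hV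
        exact (hm₁ v).trans ((min_le_left _ _).trans (min_le_left _ _))
      have g2 : η₁ ≤ η / 2 := by
        obtain ⟨v⟩ := hV
        exact (hm₁ v).trans ((min_le_left _ _).trans (min_le_right _ _))
      have g3 : ∀ v, η₁ ≤ ρ' v := fun v => (hm₁ v).trans (min_le_right _ _)
      obtain ⟨z₁, w₁, hzw₁, hn₁⟩ := hmv z w hzw (hn.mono (hε2.trans (by linarith))) t Y
        (fun v => by
          have h1 := (hT v).1 a
          have h2 := (hn v).1 a
          have h3 : t v = (x v a - x₀ v a) + -(s v (z a) - x₀ v a) := by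
            simp only [ht]; ring
          have h4 := norm_add_le (x v a - x₀ v a) (-(s v (z a) - x₀ v a))
          rw [← h3, norm_neg] at h4
          linarith)
        (fun v => (hY1 v).trans_le (min_le_left _ _)) hY2 η₁ hη₁
      set x' : ∀ v, α → L v := fun v b => if b ∈ S then x v b else s v (z₁ b) with hx'
      have hx'x : ∀ v b, ‖x' v b - x v b‖ < η₁ := by
        intro v b
        simp only [hx']
        by_cases hb : b ∈ S
        · rw [if_pos hb, sub_self, norm_zero]; exact hη₁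
        · rw [if_neg hb, ← hx₁S v b hb]
          exact (hn₁ v).1 b
      choose y' hy1 hy2 using fun v => hρb' v (x' v) fun b => (hx'x v b).trans_le (g3 v)
      obtain ⟨z', w', h1, h2⟩ := hcl z₁ w₁ hzw₁ (fun v => ⟨fun b => by
          have k1 := (hn₁ v).1 b
          have k2 := hx₁P v b
          have k3 := norm_sub_le_norm_sub_add_norm_sub (s v (z₁ b)) (x₁ v b) (x₀ v b)
          change ‖s v (z₁ b) - x₁ v b‖ < η₁ at k1
          linarith, by
          have k1 := (hn₁ v).2
          have k2 := (hY1 v).trans_le (min_le_right _ _)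
          have k3 := norm_sub_le_norm_sub_add_norm_sub (s v w₁) (Y v) (y₀ v)
          linarith⟩) x' y' hy2 (fun v => ⟨fun b => by
          have k1 := (hT v).1 b
          have k2 := hx'x v b
          have k3 := norm_sub_le_norm_sub_add_norm_sub (x' v b) (x v b) (x₀ v b)
          linarith, by
          have k1 := (hT v).2
          have k2 := (hy1 v).trans_le (min_le_right _ _)
          have k3 := norm_sub_le_norm_sub_add_norm_sub (y' v) (y v) (y₀ v)
          linarith⟩) (fun v b hb => by simp only [hx', if_neg hb]) (η / 2) (half_pos hη)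
      refine ⟨z', w', h1, fun v => ⟨fun b => ?_, ?_⟩⟩
      · have k1 := (h2 v).1 b
        have k2 := hx'x v b
        have k3 := norm_sub_le_norm_sub_add_norm_sub (s v (z' b)) (x' v b) (x v b)
        linarith
      · have k1 := (h2 v).2
        have k2 := (hy1 v).trans_le (min_le_left _ _)
        have k3 := norm_sub_le_norm_sub_add_norm_sub (s v w') (y' v) (y v)
        linarith
  -- the coordinates of the target may be taken rational one after another
  obtain ⟨ε, hε, h⟩ := claim Finset.univ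
  exact ⟨ε, hε, fun z w hzw hn x y hxy hT η hη => h z w hzw hn x y hxy hT
    (fun v a ha => absurd (Finset.mem_univ a) ha) η hη⟩

/-- **Moves through another point.** -/
theorem mv_viaT {f : MvPolynomial α K} {v e : α → K} {x₀ : ∀ v, α → L v} {y₀ : ∀ v, L v}
    (hP : ∀ v, onC (MvPolynomial.map (s v) f) (x₀ v) (y₀ v)) (hw : ∀ v, y₀ v ≠ 0)
    (hv : MvT s f v x₀ y₀) (h : ∀ δ : ℝ, 0 < δ → ∃ u Z : ∀ v, L v,
      (∀ v', onC (MvPolynomial.map (s v') f) (fun a => x₀ v' a + u v' * s v' (v a)) (Z v')) ∧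
      (∀ v', Z v' ≠ 0) ∧ (∀ v', ‖u v'‖ < δ ∧ ‖Z v' - y₀ v'‖ < δ) ∧
      MvT s f e (fun v' a => x₀ v' a + u v' * s v' (v a)) Z) : MvT s f e x₀ y₀ := by
  by_cases hV : IsEmpty V
  · exact ⟨1, one_pos, fun z w hzw hn t Y ht hY hYe η hη => ⟨z, w, hzw,
      fun v => (hV.false v).elim⟩⟩
  rw [not_isEmpty_iff] at hV
  have hcz : ∀ v, CharZero (L v) := fun v => charZero_of_injective_ringHom (s v).injective
  obtain ⟨δ₁, hδ₁, hmv⟩ := hv
  obtain ⟨κ, hκ, hκle, hdirv⟩ := dir_bound (s := s) v (show (0 : ℝ) < δ₁ / 4 by positivity)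
  obtain ⟨u, Z', hzP', hZ', hnP', hMe⟩ := h (min κ (δ₁ / 4)) (lt_min hκ (by positivity))
  have hu1 : ∀ v', ‖u v'‖ < δ₁ / 4 := fun v' => (hnP' v').1.trans_le (min_le_right _ _)
  have hu2 : ∀ v' a, ‖u v' * s v' (v a)‖ < δ₁ / 4 := fun v' a =>
    hdirv v' a _ ((hnP' v').1.trans_le (min_le_left _ _))
  have hZ1 : ∀ v', ‖Z' v' - y₀ v'‖ < δ₁ / 4 := fun v' =>
    (hnP' v').2.trans_le (min_le_right _ _)
  obtain ⟨δ', hδ', hme⟩ := hMe
  -- cube roots close to the intermediate point
  have hsq : ∀ v', ∃ ρ : ℝ, 0 < ρ ∧ ∀ x' : α → L v',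
      (∀ a, ‖x' a - (x₀ v' a + u v' * s v' (v a))‖ < ρ) →
      ∃ y' : L v', ‖y' - Z' v'‖ < min (δ' / 2) (δ₁ / 4) ∧
        onC (MvPolynomial.map (s v') f) x' y' := by
    intro v'
    have := hcz v'
    exact cb_near (hzP' v') (hZ' v') (lt_min (half_pos hδ') (by positivity))
  choose ρ hρ hρb using hsq
  obtain ⟨ρ₀, hρ₀, hρm⟩ := fin_min hρ
  -- the radius
  set ε₀ := min (min (δ₁ / 8) (δ' / 4)) (ρ₀ / 4) with hε₀
  have hε₀0 : 0 < ε₀ := lt_min (lt_min (by positivity) (by positivity)) (by positivity)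
  have a1 : ε₀ ≤ δ₁ / 8 := (min_le_left _ _).trans (min_le_left _ _)
  have a2 : ε₀ ≤ δ' / 4 := (min_le_left _ _).trans (min_le_right _ _)
  have a3 : ε₀ ≤ ρ₀ / 4 := min_le_right _ _
  obtain ⟨κ', hκ', hκ'le, hdire⟩ := dir_bound (s := s) e hε₀0
  obtain ⟨ω, hω, hωm⟩ := fin_min (f := fun v' : V => ‖y₀ v'‖) fun v' => norm_pos_iff.2 (hw v')
  set ε := min κ' ω with hε
  have hε0 : 0 < ε := lt_min hκ' hω
  have b1 : ε ≤ ε₀ := (min_le_left _ _).trans hκ'le
  refine ⟨ε, hε0, fun z w hzw hn t Y ht hY hYe η hη => ?_⟩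
  have hte : ∀ v' a, ‖t v' * s v' (e a)‖ < ε₀ := fun v' a =>
    hdire v' a _ ((ht v').trans_le (min_le_left _ _))
  -- cube roots close to the target
  have hsq' : ∀ v', ∃ ρ : ℝ, 0 < ρ ∧ ∀ x' : α → L v',
      (∀ a, ‖x' a - (s v' (z a) + t v' * s v' (e a))‖ < ρ) →
      ∃ y' : L v', ‖y' - Y v'‖ < min (η / 2) (δ₁ / 4) ∧ onC (MvPolynomial.map (s v') f) x' y' := by
    intro v'
    have := hcz v'
    refine cb_near (hYe v') ?_ (lt_min (half_pos hη) (by positivity))
    intro h0
    have h1 := (hY v').trans_le (min_le_right _ _)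
    rw [h0, zero_sub, norm_neg] at h1
    exact absurd h1 (not_lt.2 (hωm v'))
  choose ρ' hρ' hρb' using hsq'
  obtain ⟨ρ₁, hρ₁, hρm'⟩ := fin_min hρ'
  set η₁ := min (min (δ₁ / 8) (δ' / 4)) (min (ρ₀ / 4) (min (ρ₁ / 2) (η / 8))) with hη₁
  have hη₁0 : 0 < η₁ := lt_min (lt_min (by positivity) (by positivity))
    (lt_min (by positivity) (lt_min (by positivity) (by positivity)))
  have c1 : η₁ ≤ δ₁ / 8 := (min_le_left _ _).trans (min_le_left _ _)
  have c2 : η₁ ≤ δ' / 4 := (min_le_left _ _).trans (min_le_right _ _)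
  have c3 : η₁ ≤ ρ₀ / 4 := (min_le_right _ _).trans (min_le_left _ _)
  have c4 : η₁ ≤ ρ₁ / 2 := (min_le_right _ _).trans ((min_le_right _ _).trans (min_le_left _ _))
  have c5 : η₁ ≤ η / 8 := (min_le_right _ _).trans ((min_le_right _ _).trans (min_le_right _ _))
  -- the first step
  choose Y₁ hY₁a hY₁b using fun v' => hρb v' (fun a => s v' (z a) + u v' * s v' (v a))
    (fun a => by
      have e1 : s v' (z a) + u v' * s v' (v a) - (x₀ v' a + u v' * s v' (v a)) =
          s v' (z a) - x₀ v' a := by ring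
      rw [e1]
      have := (hn v').1 a
      have := hρm v'
      linarith)
  obtain ⟨z₁, w₁, hzw₁, hn₁⟩ := hmv z w hzw (hn.mono (by linarith)) u Y₁
    (fun v' => (hu1 v').trans (by linarith)) (fun v' => by
      have k1 := (hY₁a v').trans_le (min_le_right _ _)
      have k2 := hZ1 v'
      have k3 := norm_sub_le_norm_sub_add_norm_sub (Y₁ v') (Z' v') (y₀ v')
      linarith) hY₁b η₁ hη₁0
  have hz₁ : ∀ v' a, ‖s v' (z₁ a) - (x₀ v' a + u v' * s v' (v a))‖ < η₁ + ε := by
    intro v' a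
    have k1 := (hn₁ v').1 a
    have k2 := (hn v').1 a
    have e1 : s v' (z₁ a) - (x₀ v' a + u v' * s v' (v a)) =
        (s v' (z₁ a) - (s v' (z a) + u v' * s v' (v a))) + (s v' (z a) - x₀ v' a) := by ring
    rw [e1]
    have := norm_add_le (s v' (z₁ a) - (s v' (z a) + u v' * s v' (v a)))
      (s v' (z a) - x₀ v' a)
    linarith
  -- the second step
  choose Y₂ hY₂a hY₂b using fun v' => hρb v' (fun a => s v' (z₁ a) + t v' * s v' (e a))
    (fun a => by
      have e1 : s v' (z₁ a) + t v' * s v' (e a) - (x₀ v' a + u v' * s v' (v a)) =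
          (s v' (z₁ a) - (x₀ v' a + u v' * s v' (v a))) + t v' * s v' (e a) := by ring
      rw [e1]
      have k1 := norm_add_le (s v' (z₁ a) - (x₀ v' a + u v' * s v' (v a))) (t v' * s v' (e a))
      have k2 := hz₁ v' a
      have k3 := hte v' a
      have := hρm v'
      linarith)
  obtain ⟨z₂, w₂, hzw₂, hn₂⟩ := hme z₁ w₁ hzw₁ (fun v' => ⟨fun a => by
      have k1 := hz₁ v' a
      dsimp only
      linarith, by
      have k1 := (hn₁ v').2
      have k2 := (hY₁a v').trans_le (min_le_left _ _)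
      have k3 := norm_sub_le_norm_sub_add_norm_sub (s v' w₁) (Y₁ v') (Z' v')
      linarith⟩) t Y₂ (fun v' => ((ht v').trans_le b1).trans_le (by linarith)) (fun v' => by
      have k2 := (hY₂a v').trans_le (min_le_left _ _)
      linarith) hY₂b η₁ hη₁0
  -- the third step
  choose Y₃ hY₃a hY₃b using fun v' => hρb' v' (fun a => s v' (z₂ a) + (-u v') * s v' (v a))
    (fun a => by
      have e1 : s v' (z₂ a) + (-u v') * s v' (v a) - (s v' (z a) + t v' * s v' (e a)) =
          (s v' (z₂ a) - (s v' (z₁ a) + t v' * s v' (e a))) +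
          (s v' (z₁ a) - (s v' (z a) + u v' * s v' (v a))) := by ring
      rw [e1]
      have k1 := norm_add_le (s v' (z₂ a) - (s v' (z₁ a) + t v' * s v' (e a)))
        (s v' (z₁ a) - (s v' (z a) + u v' * s v' (v a)))
      have k2 := (hn₁ v').1 a
      have k3 := (hn₂ v').1 a
      have := hρm' v'
      linarith)
  obtain ⟨z₃, w₃, hzw₃, hn₃⟩ := hmv z₂ w₂ hzw₂ (fun v' => ⟨fun a => by
      have e1 : s v' (z₂ a) - x₀ v' a = (s v' (z₂ a) - (s v' (z₁ a) + t v' * s v' (e a))) +
          (s v' (z₁ a) - (x₀ v' a + u v' * s v' (v a))) + t v' * s v' (e a) +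
            u v' * s v' (v a) := by ring
      have k1 := (hn₂ v').1 a
      have k2 := hz₁ v' a
      have k3 := hte v' a
      have k4 := hu2 v' a
      have k5 := norm_add_le ((s v' (z₂ a) - (s v' (z₁ a) + t v' * s v' (e a))) +
          (s v' (z₁ a) - (x₀ v' a + u v' * s v' (v a))) + t v' * s v' (e a)) (u v' * s v' (v a))
      have k6 := norm_add_le ((s v' (z₂ a) - (s v' (z₁ a) + t v' * s v' (e a))) +
          (s v' (z₁ a) - (x₀ v' a + u v' * s v' (v a)))) (t v' * s v' (e a))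
      have k7 := norm_add_le (s v' (z₂ a) - (s v' (z₁ a) + t v' * s v' (e a)))
          (s v' (z₁ a) - (x₀ v' a + u v' * s v' (v a)))
      rw [e1]
      linarith, by
      have k1 := (hn₂ v').2
      have k2 := (hY₂a v').trans_le (min_le_right _ _)
      have k3 := hZ1 v'
      have k4 := norm_sub_le_norm_sub_add_norm_sub (s v' w₂) (Y₂ v') (y₀ v')
      have k5 := norm_sub_le_norm_sub_add_norm_sub (Y₂ v') (Z' v') (y₀ v')
      linarith⟩) (fun v' => -u v') Y₃ (fun v' => by
      rw [norm_neg]; have := hu1 v'; linarith) (fun v' => by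
      have k1 := (hY₃a v').trans_le (min_le_right _ _)
      have k2 := (hY v').trans_le b1
      have k3 := norm_sub_le_norm_sub_add_norm_sub (Y₃ v') (Y v') (y₀ v')
      linarith) hY₃b η₁ hη₁0
  refine ⟨z₃, w₃, hzw₃, fun v' => ⟨fun a => ?_, ?_⟩⟩
  · have e1 : s v' (z₃ a) - (s v' (z a) + t v' * s v' (e a)) =
        (s v' (z₃ a) - (s v' (z₂ a) + (-u v') * s v' (v a))) +
        (s v' (z₂ a) - (s v' (z₁ a) + t v' * s v' (e a))) +
          (s v' (z₁ a) - (s v' (z a) + u v' * s v' (v a))) := by ring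
    have k1 := (hn₁ v').1 a
    have k2 := (hn₂ v').1 a
    have k3 := (hn₃ v').1 a
    have k4 := norm_add_le ((s v' (z₃ a) - (s v' (z₂ a) + (-u v') * s v' (v a))) +
        (s v' (z₂ a) - (s v' (z₁ a) + t v' * s v' (e a))))
          (s v' (z₁ a) - (s v' (z a) + u v' * s v' (v a)))
    have k5 := norm_add_le (s v' (z₃ a) - (s v' (z₂ a) + (-u v') * s v' (v a)))
        (s v' (z₂ a) - (s v' (z₁ a) + t v' * s v' (e a)))
    rw [e1]
    linarith
  · have k1 := (hn₃ v').2
    have k2 := (hY₃a v').trans_le (min_le_left _ _)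
    have k3 := norm_sub_le_norm_sub_add_norm_sub (s v' w₃) (Y₃ v') (Y v')
    linarith

end Pool.Agent.K6.H43.TC
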