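import Pool.Agent.K6.H43.TC.Stm

/-!
# Piece CSP: a family of cubics which degenerates to a cuspidal cubic (helper25)
-/

set_option autoImplicit false
set_option linter.unusedVariables false
set_option linter.unusedSectionVars false

open Filter Topology Pool.Agent.Y720.MZ

namespace Pool.Agent.K6.H43.TC

/-- the doubling sequence on the cuspidal cubic `Y² = X³` -/
lemma csp_seq {M : Type*} [Field M] [CharZero M] {N D : M} (hN : N ≠ 0) (hD : D ≠ 0) (i : ℕ) :
    (itd 0 0 0 (N, D) i).1 ≠ 0 ∧ (itd 0 0 0 (N, D) i).2 ≠ 0 ∧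
      (itd 0 0 0 (N, D) i).2 * N = 4 ^ i * D * (itd 0 0 0 (N, D) i).1 := by
  induction i with
  | zero => exact ⟨hN, hD, by simp [itd]⟩
  | succ i ih =>
    obtain ⟨h1, h2, h3⟩ := ih
    set q := itd 0 0 0 (N, D) i with hq
    have e1 : (itd 0 0 0 (N, D) (i + 1)).1 = q.1 ^ 4 := by
      simp only [itd, dbl]
      rw [← hq]
      ring
    have e2 : (itd 0 0 0 (N, D) (i + 1)).2 = 4 * q.2 * q.1 ^ 3 := by
      simp only [itd, dbl]
      rw [← hq]
      ring
    refine ⟨by rw [e1]; exact pow_ne_zero 4 h1, ?_, ?_⟩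
    · rw [e2]
      exact mul_ne_zero (mul_ne_zero (by norm_num) h2) (pow_ne_zero 3 h1)
    · rw [e1, e2, pow_succ]
      linear_combination (4 * q.1 ^ 3) * h3

/-- **Piece CSP.** -/
theorem t_CSP : S_CSP := by
  intro F _ _ c N D M _ _ s₀ hc hN hD B
  classical
  have : CharZero M := charZero_of_injective_algebraMap (algebraMap F M).injective
  set q : ℕ → Polynomial F × Polynomial F := fun i => itd 0 0 c (N, D) i with hq
  have hev : ∀ (u : F) (i : ℕ), itd 0 0 (c.eval u) (N.eval u, D.eval u) i =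
      ((q i).1.eval u, (q i).2.eval u) := by
    intro u i
    have h1 := itd_map (Polynomial.evalRingHom u) 0 0 c (N, D) i
    rw [map_zero] at h1
    exact h1
  set φ : Polynomial F →+* M := (Polynomial.aeval s₀ : Polynomial F →ₐ[F] M).toRingHom with hφ
  have hφa : ∀ P : Polynomial F, φ P = Polynomial.aeval s₀ P := fun P => rfl
  have hq0 : ∀ i, (φ (q i).1, φ (q i).2) = itd 0 0 0 (φ N, φ D) i := by
    intro i
    have h1 := itd_map φ 0 0 c (N, D) i
    have h2 : φ c = 0 := hc
    rw [map_zero, h2] at h1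
    exact h1.symm
  have hseq : ∀ i, φ (q i).1 ≠ 0 ∧ φ (q i).2 ≠ 0 ∧
      φ (q i).2 * φ N = 4 ^ i * φ D * φ (q i).1 := by
    intro i
    have h1 := csp_seq (N := φ N) (D := φ D) hN hD i
    rw [← hq0 i] at h1
    exact h1
  have hq2 : ∀ i, (q i).2 ≠ 0 := by
    intro i h0
    exact (hseq i).2.1 (by rw [h0, map_zero])
  have hqij : ∀ i j, i ≠ j → (q i).1 * (q j).2 - (q j).1 * (q i).2 ≠ 0 := by
    intro i j hij h0
    have h5 := congrArg φ h0
    rw [map_sub, map_mul, map_mul, map_zero] at h5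
    obtain ⟨n1, -, m1⟩ := hseq i
    obtain ⟨n2, -, m2⟩ := hseq j
    have h6 : (4 : M) ^ i ≠ 4 ^ j := by
      intro h
      have h7 : ((4 ^ i : ℕ) : M) = ((4 ^ j : ℕ) : M) := by push_cast; exact h
      have h8 : (4 : ℕ) ^ i = 4 ^ j := Nat.cast_injective h7
      exact hij (Nat.pow_right_injective (le_refl 2 |>.trans (by norm_num)) h8)
    have h8 : (φ (q i).1 * φ (q j).1 * φ D) * (4 ^ j - 4 ^ i) = 0 := by
      linear_combination φ N * h5 - φ (q i).1 * m2 + φ (q j).1 * m1
    exact mul_ne_zero (mul_ne_zero (mul_ne_zero n1 n2) hD) (sub_ne_zero.2 h6.symm) h8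
  -- finiteness
  have hfin1 : {s : F | ∃ i ≤ B, (q i).2.eval s = 0}.Finite := by
    have : {s : F | ∃ i ≤ B, (q i).2.eval s = 0} = ⋃ i ∈ Finset.range (B + 1),
        {s | (q i).2.IsRoot s} := by
      ext s
      simp
    rw [this]
    exact Set.Finite.biUnion (Finset.finite_toSet _) fun i _ =>
      Polynomial.finite_setOf_isRoot (hq2 i)
  have hfin2 : {s : F | ∃ i ≤ B, ∃ j ≤ B, i ≠ j ∧
      ((q i).1 * (q j).2 - (q j).1 * (q i).2).eval s = 0}.Finite := by
    have : {s : F | ∃ i ≤ B, ∃ j ≤ B, i ≠ j ∧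
        ((q i).1 * (q j).2 - (q j).1 * (q i).2).eval s = 0} ⊆
        ⋃ i ∈ Finset.range (B + 1), ⋃ j ∈ Finset.range (B + 1),
        {s | i ≠ j ∧ ((q i).1 * (q j).2 - (q j).1 * (q i).2).IsRoot s} := by
      rintro s ⟨i, hi, j, hj, hij, h⟩
      simp only [Set.mem_iUnion]
      exact ⟨i, Finset.mem_range.2 (by omega), j, Finset.mem_range.2 (by omega), hij, h⟩
    refine (Set.Finite.biUnion (Finset.finite_toSet _) fun i _ =>
      Set.Finite.biUnion (Finset.finite_toSet _) fun j _ => ?_).subset this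
    by_cases hij : i = j
    · refine Set.finite_empty.subset ?_
      rintro s ⟨h, -⟩
      exact absurd hij h
    · exact (Polynomial.finite_setOf_isRoot (hqij i j hij)).subset fun s h => h.2
  refine (hfin1.union hfin2).subset ?_
  intro s hs
  rw [Set.mem_setOf_eq, not_and_or] at hs
  simp only [hev] at hs
  rcases hs with hs | hs
  · push Not at hs
    left
    exact hs
  · push Not at hs
    obtain ⟨i, hi, j, hj, hij, h⟩ := hs
    right
    refine ⟨i, hi, j, hj, hij, ?_⟩
    rw [Polynomial.eval_sub, Polynomial.eval_mul, Polynomial.eval_mul]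
    exact h

end Pool.Agent.K6.H43.TC
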