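import Pool.Agent.K6.H43.TC.Stm

/-!
# A direction of infinite order at a given point of a cyclic triple cover (piece DIR)
-/

set_option autoImplicit false
set_option linter.unusedVariables false
set_option linter.unusedSectionVars false

open Pool.Agent.Y720.MZ

namespace Pool.Agent.K6.H43.TC

section dirpoly

variable {F : Type*} [Field F] [CharZero F] {α : Type*} [Fintype α]

lemma coeff_mul_lin_zero (A : Polynomial F) (a b : F) :
    (A * (Polynomial.C a + Polynomial.C b * Polynomial.X)).coeff 0 = A.coeff 0 * a := by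
  simp [Polynomial.mul_coeff_zero]

lemma coeff_mul_lin_succ (A : Polynomial F) (a b : F) (j : ℕ) :
    (A * (Polynomial.C a + Polynomial.C b * Polynomial.X)).coeff (j + 1) =
      A.coeff (j + 1) * a + A.coeff j * b := by
  rw [mul_add, Polynomial.coeff_add, Polynomial.coeff_mul_C, ← mul_assoc,
    Polynomial.coeff_mul_X, Polynomial.coeff_mul_C]

lemma rst_mul_X (g : MvPolynomial α F) (i : α) (x v : α → F) :
    rst (g * MvPolynomial.X i) x v =
      rst g x v * (Polynomial.C (x i) + Polynomial.C (v i) * Polynomial.X) := by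
  simp only [rst, map_mul, MvPolynomial.aeval_X]

/-- the coefficients of the restriction of `f` to the line through `x` with the direction
`e₁ + u e₂`, as polynomials in `u` -/
lemma dir_poly (f : MvPolynomial α F) (x e₁ e₂ : α → F) :
    ∃ q : ℕ → Polynomial F, (∀ u j, (q j).eval u = (rst f x (e₁ + u • e₂)).coeff j) ∧
      (∀ j, (q j).natDegree ≤ j) ∧ ∀ j, (q j).coeff j = (rst f x e₂).coeff j := by
  induction f using MvPolynomial.induction_on with
  | C a =>
    refine ⟨fun j => if j = 0 then Polynomial.C a else 0, ?_, ?_, ?_⟩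
    · intro u j
      by_cases hj : j = 0 <;> simp [rst, hj, Polynomial.coeff_C]
    · intro j
      by_cases hj : j = 0 <;> simp [hj]
    · intro j
      by_cases hj : j = 0 <;> simp [rst, hj, Polynomial.coeff_C]
  | add g h hg hh =>
    obtain ⟨q, h1, h2, h3⟩ := hg
    obtain ⟨r, k1, k2, k3⟩ := hh
    refine ⟨fun j => q j + r j, ?_, ?_, ?_⟩
    · intro u j
      have : rst (g + h) x (e₁ + u • e₂) = rst g x (e₁ + u • e₂) + rst h x (e₁ + u • e₂) := by
        simp [rst]
      rw [this, Polynomial.coeff_add, ← h1, ← k1, Polynomial.eval_add]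
    · intro j
      exact (Polynomial.natDegree_add_le _ _).trans (max_le (h2 j) (k2 j))
    · intro j
      have : rst (g + h) x e₂ = rst g x e₂ + rst h x e₂ := by simp [rst]
      rw [this, Polynomial.coeff_add, Polynomial.coeff_add, h3, k3]
  | mul_X g i hg =>
    obtain ⟨q, h1, h2, h3⟩ := hg
    refine ⟨fun j => match j with
      | 0 => q 0 * Polynomial.C (x i)
      | j + 1 => q (j + 1) * Polynomial.C (x i) +
          q j * (Polynomial.C (e₁ i) + Polynomial.C (e₂ i) * Polynomial.X), ?_, ?_, ?_⟩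
    · intro u j
      rw [rst_mul_X]
      rcases j with _ | j
      · simp only [Polynomial.eval_mul, Polynomial.eval_C]
        rw [coeff_mul_lin_zero, h1]
      · simp only [Polynomial.eval_add, Polynomial.eval_mul, Polynomial.eval_C,
          Polynomial.eval_X]
        rw [coeff_mul_lin_succ, h1, h1]
        simp only [Pi.add_apply, Pi.smul_apply, smul_eq_mul]
        ring
    · intro j
      rcases j with _ | j
      · simp only
        exact (Polynomial.natDegree_mul_C_le _ _).trans (h2 0)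
      · simp only
        refine (Polynomial.natDegree_add_le _ _).trans (max_le ?_ ?_)
        · exact (Polynomial.natDegree_mul_C_le _ _).trans (h2 (j + 1))
        · refine Polynomial.natDegree_mul_le.trans (add_le_add (h2 j) ?_)
          refine (Polynomial.natDegree_add_le _ _).trans (max_le ?_ ?_)
          · simp
          · exact (Polynomial.natDegree_C_mul_le _ _).trans Polynomial.natDegree_X_le
    · intro j
      rw [rst_mul_X]
      rcases j with _ | j
      · simp only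
        rw [coeff_mul_lin_zero, Polynomial.coeff_mul_C, h3]
      · simp only
        rw [coeff_mul_lin_succ, Polynomial.coeff_add, Polynomial.coeff_mul_C,
          coeff_mul_lin_succ, h3, h3,
          Polynomial.coeff_eq_zero_of_natDegree_lt (Nat.lt_succ_of_le (h2 j)), zero_mul, zero_add]

end dirpoly

/-- DIR -/
theorem t_DIR (h1 : S_IOC) (h2 : S_CSP) (h3 : S_POL) : S_DIR := by
  intro p hp α _ f x y hxy hy hdeg hne
  obtain ⟨ea, eb, hab⟩ := hne
  -- the constant coefficient
  have hc0 : MvPolynomial.eval x f = y ^ 3 := hxy.symm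
  -- (a)
  obtain ⟨e₂, he2⟩ : ∃ e₂, 4 * H3 f e₂ x ^ 3 - G3 f e₂ x ^ 2 ≠ 0 := by
    by_contra hcon
    push Not at hcon
    apply hab
    have k1 : G3 f ea x ^ 2 = 4 * H3 f ea x ^ 3 := (sub_eq_zero.1 (hcon ea)).symm
    have k2 : G3 f eb x ^ 2 = 4 * H3 f eb x ^ 3 := (sub_eq_zero.1 (hcon eb)).symm
    rw [k1, k2]
    ring
  -- (b)
  obtain ⟨e₁, he1⟩ : ∃ e₁, G3 f e₁ x ^ 2 * H3 f e₂ x ^ 3 ≠ G3 f e₂ x ^ 2 * H3 f e₁ x ^ 3 := by
    by_contra hcon
    push Not at hcon
    apply hab
    by_cases hH : H3 f e₂ x = 0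
    · have hG : G3 f e₂ x ^ 2 ≠ 0 := by
        intro h
        apply he2
        rw [hH, h]
        ring
      have hz : ∀ e, H3 f e x ^ 3 = 0 := by
        intro e
        have := hcon e
        rw [hH] at this
        have h5 : G3 f e₂ x ^ 2 * H3 f e x ^ 3 = 0 := by
          rw [← this]
          ring
        exact (mul_eq_zero.1 h5).resolve_left hG
      rw [hz ea, hz eb, mul_zero, mul_zero]
    · apply mul_right_cancel₀ (pow_ne_zero 3 hH)
      calc G3 f ea x ^ 2 * H3 f eb x ^ 3 * H3 f e₂ x ^ 3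
          = (G3 f ea x ^ 2 * H3 f e₂ x ^ 3) * H3 f eb x ^ 3 := by ring
        _ = (G3 f e₂ x ^ 2 * H3 f eb x ^ 3) * H3 f ea x ^ 3 := by rw [hcon ea]; ring
        _ = (G3 f eb x ^ 2 * H3 f e₂ x ^ 3) * H3 f ea x ^ 3 := by rw [hcon eb]
        _ = G3 f eb x ^ 2 * H3 f ea x ^ 3 * H3 f e₂ x ^ 3 := by ring
  -- (c)
  obtain ⟨q, q1, q2, q3⟩ := dir_poly f x e₁ e₂
  have q0 : ∀ j, (q j).coeff 0 = (rst f x e₁).coeff j := by
    intro j
    have := q1 0 j
    rw [zero_smul, add_zero] at this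
    rw [← this, Polynomial.coeff_zero_eq_eval_zero]
  have qd : ∀ j n, j < n → (q j).coeff n = 0 := fun j n hn =>
    Polynomial.coeff_eq_zero_of_natDegree_lt (lt_of_le_of_lt (q2 j) hn)
  obtain ⟨c₀, hc₀⟩ : ∃ c : ℚ_[p], c = y ^ 3 := ⟨_, rfl⟩
  rw [← hc₀] at hc0
  have hc0ne : c₀ ≠ 0 := by rw [hc₀]; exact pow_ne_zero 3 hy
  set Hp : Polynomial ℚ_[p] := Hc (Polynomial.C c₀) (q 1) (q 2) with hHp
  set Gp : Polynomial ℚ_[p] := Gc (Polynomial.C c₀) (q 1) (q 2) (q 3) with hGp
  set Dp : Polynomial ℚ_[p] := Dc (Polynomial.C c₀) (q 1) (q 2) (q 3) with hDp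
  have hHpe : ∀ u, Hp.eval u = H3 f (e₁ + u • e₂) x := by
    intro u
    simp only [hHp, Hc, H3, hc0, Polynomial.eval_sub, Polynomial.eval_mul, Polynomial.eval_pow,
      Polynomial.eval_C, Polynomial.eval_ofNat, q1]
  have hGpe : ∀ u, Gp.eval u = G3 f (e₁ + u • e₂) x := by
    intro u
    simp only [hGp, Gc, G3, hc0, Polynomial.eval_sub, Polynomial.eval_add, Polynomial.eval_mul,
      Polynomial.eval_pow, Polynomial.eval_C, Polynomial.eval_ofNat, q1]
  have hDpe : ∀ u, Dp.eval u = Dc c₀ ((rst f x (e₁ + u • e₂)).coeff 1)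
      ((rst f x (e₁ + u • e₂)).coeff 2) ((rst f x (e₁ + u • e₂)).coeff 3) := by
    intro u
    simp only [hDp, Dc, Polynomial.eval_sub, Polynomial.eval_add, Polynomial.eval_mul,
      Polynomial.eval_pow, Polynomial.eval_C, Polynomial.eval_ofNat, q1]
  have e10 : H3 f e₁ x = Hp.coeff 0 := by
    have := hHpe 0
    rw [zero_smul, add_zero] at this
    rw [← this, Polynomial.coeff_zero_eq_eval_zero]
  have g10 : G3 f e₁ x = Gp.coeff 0 := by
    have := hGpe 0
    rw [zero_smul, add_zero] at this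
    rw [← this, Polynomial.coeff_zero_eq_eval_zero]
  have d1 := q2 1
  have d2 := q2 2
  have d3 := q2 3
  -- degrees and leading coefficients
  have dH : Hp.natDegree ≤ 2 := by
    rw [hHp, Hc]
    refine (Polynomial.natDegree_sub_le _ _).trans (max_le ?_ ?_)
    · exact (Polynomial.natDegree_pow_le_of_le 2 d1)
    · have : (3 * Polynomial.C c₀ * q 2 : Polynomial ℚ_[p]) = Polynomial.C (3 * c₀) * q 2 := by
        rw [Polynomial.C_mul]; rfl
      rw [this]
      exact (Polynomial.natDegree_C_mul_le _ _).trans d2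
  have dG : Gp.natDegree ≤ 3 := by
    have : Gp = Polynomial.C 2 * q 1 ^ 3 - Polynomial.C (9 * c₀) * (q 1 * q 2) +
        Polynomial.C (27 * c₀ ^ 2) * q 3 := by
      simp only [hGp, Gc, Polynomial.C_mul, Polynomial.C_pow]
      have a1 : (Polynomial.C (2 : ℚ_[p])) = 2 := rfl
      have a2 : (Polynomial.C (9 : ℚ_[p])) = 9 := rfl
      have a3 : (Polynomial.C (27 : ℚ_[p])) = 27 := rfl
      rw [a1, a2, a3]
      ring
    rw [this]
    refine (Polynomial.natDegree_add_le _ _).trans (max_le ?_ ?_)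
    · refine (Polynomial.natDegree_sub_le _ _).trans (max_le ?_ ?_)
      · exact (Polynomial.natDegree_C_mul_le _ _).trans (Polynomial.natDegree_pow_le_of_le 3 d1)
      · exact (Polynomial.natDegree_C_mul_le _ _).trans
          (Polynomial.natDegree_mul_le.trans (add_le_add d1 d2))
    · exact (Polynomial.natDegree_C_mul_le _ _).trans d3
  have lH : Hp.coeff 2 = H3 f e₂ x := by
    have : Hp = q 1 ^ 2 - Polynomial.C (3 * c₀) * q 2 := by
      rw [hHp, Hc, Polynomial.C_mul]
      have a1 : (Polynomial.C (3 : ℚ_[p])) = 3 := rfl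
      rw [a1]
    rw [this, Polynomial.coeff_sub, Polynomial.coeff_C_mul]
    have k1 : (q 1 ^ 2).coeff 2 = (q 1).coeff 1 ^ 2 := by
      have := Polynomial.coeff_pow_of_natDegree_le (m := 2) d1
      simpa using this
    rw [k1, q3, q3, H3, Hc, hc0]
  have lG : Gp.coeff 3 = G3 f e₂ x := by
    have : Gp = Polynomial.C 2 * q 1 ^ 3 - Polynomial.C (9 * c₀) * (q 1 * q 2) +
        Polynomial.C (27 * c₀ ^ 2) * q 3 := by
      simp only [hGp, Gc, Polynomial.C_mul, Polynomial.C_pow]
      have a1 : (Polynomial.C (2 : ℚ_[p])) = 2 := rfl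
      have a2 : (Polynomial.C (9 : ℚ_[p])) = 9 := rfl
      have a3 : (Polynomial.C (27 : ℚ_[p])) = 27 := rfl
      rw [a1, a2, a3]
      ring
    rw [this, Polynomial.coeff_add, Polynomial.coeff_sub, Polynomial.coeff_C_mul,
      Polynomial.coeff_C_mul, Polynomial.coeff_C_mul]
    have k1 : (q 1 ^ 3).coeff 3 = (q 1).coeff 1 ^ 3 := by
      have := Polynomial.coeff_pow_of_natDegree_le (m := 3) d1
      simpa using this
    have k2 : (q 1 * q 2).coeff 3 = (q 1).coeff 1 * (q 2).coeff 2 :=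
      Polynomial.coeff_mul_add_eq_of_natDegree_le d1 d2
    rw [k1, k2, q3, q3, q3, G3, Gc, hc0]
    ring
  have evH : ∀ {M : Type} [Field M] [Algebra ℚ_[p] M] (s : M), Polynomial.aeval s Hp =
      algebraMap ℚ_[p] M (Hp.coeff 0) + algebraMap ℚ_[p] M (Hp.coeff 1) * s +
        algebraMap ℚ_[p] M (Hp.coeff 2) * s ^ 2 := by
    intro M _ _ s
    rw [Polynomial.aeval_eq_sum_range' (lt_of_le_of_lt dH (Nat.lt_succ_self 2)),
      Finset.sum_range_succ, Finset.sum_range_succ, Finset.sum_range_succ]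
    simp [Algebra.smul_def]
  have evG : ∀ {M : Type} [Field M] [Algebra ℚ_[p] M] (s : M), Polynomial.aeval s Gp =
      algebraMap ℚ_[p] M (Gp.coeff 0) + algebraMap ℚ_[p] M (Gp.coeff 1) * s +
        algebraMap ℚ_[p] M (Gp.coeff 2) * s ^ 2 + algebraMap ℚ_[p] M (Gp.coeff 3) * s ^ 3 := by
    intro M _ _ s
    rw [Polynomial.aeval_eq_sum_range' (lt_of_le_of_lt dG (Nat.lt_succ_self 3)),
      Finset.sum_range_succ, Finset.sum_range_succ, Finset.sum_range_succ,
      Finset.sum_range_succ]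
    simp [Algebra.smul_def]
  have hcz : CharZero (AlgebraicClosure ℚ_[p]) := charZero_of_injective_algebraMap
    (algebraMap ℚ_[p] (AlgebraicClosure ℚ_[p])).injective
  obtain ⟨s₀, hs1, hs2⟩ := h3 (AlgebraicClosure ℚ_[p])
    (algebraMap _ _ (Hp.coeff 0)) (algebraMap _ _ (Hp.coeff 1)) (algebraMap _ _ (Hp.coeff 2))
    (algebraMap _ _ (Gp.coeff 0)) (algebraMap _ _ (Gp.coeff 1)) (algebraMap _ _ (Gp.coeff 2))
    (algebraMap _ _ (Gp.coeff 3)) (by
      rw [lH, lG]
      intro h
      apply he2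
      apply (algebraMap ℚ_[p] (AlgebraicClosure ℚ_[p])).injective
      rw [map_zero, map_sub, map_mul, map_pow, map_pow, map_ofNat]
      exact h) (by
      rw [lH, lG, ← e10, ← g10]
      intro h
      apply he1
      apply (algebraMap ℚ_[p] (AlgebraicClosure ℚ_[p])).injective
      rw [map_mul, map_mul, map_pow, map_pow, map_pow, map_pow]
      exact h)
  rw [← evH s₀] at hs1 hs2
  rw [← evG s₀] at hs1
  -- (d)
  set cp : Polynomial ℚ_[p] := Polynomial.C (16 * c₀ ^ 2) * Dp with hcp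
  set N : Polynomial ℚ_[p] := 4 * Gp ^ 2 - 12 * Hp ^ 3 with hN
  set D : Polynomial ℚ_[p] := 9 * Hp ^ 2 with hD
  have hsyz : 4 * Hp ^ 3 - Gp ^ 2 = 27 * Polynomial.C c₀ ^ 2 * Dp := syz _ _ _ _
  have hDp0 : Polynomial.aeval s₀ Dp = 0 := by
    have h5 := congrArg (Polynomial.aeval s₀) hsyz
    rw [map_sub, map_mul, map_mul, map_mul, map_pow, map_pow, map_pow, map_ofNat, map_ofNat,
      hs1, sub_self, Polynomial.aeval_C] at h5
    have h6 : (27 * (algebraMap ℚ_[p] (AlgebraicClosure ℚ_[p])) c₀ ^ 2) ≠ 0 := by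
      refine mul_ne_zero (by norm_num) (pow_ne_zero 2 ?_)
      exact (map_ne_zero _).2 hc0ne
    exact (mul_eq_zero.1 h5.symm).resolve_left h6
  have hcp0 : Polynomial.aeval s₀ cp = 0 := by
    rw [hcp, map_mul, hDp0, mul_zero]
  have hN0 : Polynomial.aeval s₀ N ≠ 0 := by
    have : Polynomial.aeval s₀ N = 4 * (Polynomial.aeval s₀ Hp) ^ 3 := by
      rw [hN, map_sub, map_mul, map_mul, map_pow, map_pow, map_ofNat, map_ofNat, ← hs1]
      ring
    rw [this]
    exact mul_ne_zero (by norm_num) (pow_ne_zero 3 hs2)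
  have hD0 : Polynomial.aeval s₀ D ≠ 0 := by
    rw [hD, map_mul, map_pow, map_ofNat]
    exact mul_ne_zero (by norm_num) (pow_ne_zero 2 hs2)
  have hfin := h2 ℚ_[p] cp N D (AlgebraicClosure ℚ_[p]) s₀ hcp0 hN0 hD0
  have hHne : Hp ≠ 0 := by
    intro h
    rw [h, map_zero] at hs2
    exact hs2 rfl
  have hDne : Dp ≠ 0 := by
    intro h
    rw [h, mul_zero] at hsyz
    have k1 : (Hp ^ 3).coeff 6 = Hp.coeff 2 ^ 3 := by
      have := Polynomial.coeff_pow_of_natDegree_le (m := 3) dH
      simpa using this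
    have k2 : (Gp ^ 2).coeff 6 = Gp.coeff 3 ^ 2 := by
      have := Polynomial.coeff_pow_of_natDegree_le (m := 2) dG
      simpa using this
    have k3 := congrArg (fun P : Polynomial ℚ_[p] => P.coeff 6) hsyz
    have a1 : (4 : Polynomial ℚ_[p]) = Polynomial.C (4 : ℚ_[p]) := rfl
    simp only [Polynomial.coeff_sub, Polynomial.coeff_zero] at k3
    rw [a1, Polynomial.coeff_C_mul, k1, k2, lH, lG] at k3
    exact he2 k3
  have hfH : {u : ℚ_[p] | Hp.eval u = 0}.Finite := Polynomial.finite_setOfPred_isRoot hHne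
  have hfD : {u : ℚ_[p] | Dp.eval u = 0}.Finite := Polynomial.finite_setOfPred_isRoot hDne
  have hcount := ((Set.countable_iUnion fun B => (hfin B).countable).union
    (hfH.countable.union hfD.countable))
  obtain ⟨u, hu⟩ := (hcount.dense_compl ℚ_[p]).nonempty
  rw [Set.mem_compl_iff, Set.mem_union, Set.mem_union, not_or, not_or, Set.mem_iUnion,
    not_exists] at hu
  obtain ⟨u1, u2, u3⟩ := hu
  simp only [Set.mem_ofPred_eq, not_not] at u1 u2 u3
  have ecp : cp.eval u = 16 * (y ^ 3) ^ 2 * Dc (y ^ 3) ((rst f x (e₁ + u • e₂)).coeff 1)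
      ((rst f x (e₁ + u • e₂)).coeff 2) ((rst f x (e₁ + u • e₂)).coeff 3) := by
    rw [hcp, Polynomial.eval_mul, Polynomial.eval_C, hDpe, hc₀]
  have eN : N.eval u = 4 * Gc (y ^ 3) ((rst f x (e₁ + u • e₂)).coeff 1)
      ((rst f x (e₁ + u • e₂)).coeff 2) ((rst f x (e₁ + u • e₂)).coeff 3) ^ 2 -
      12 * Hc (y ^ 3) ((rst f x (e₁ + u • e₂)).coeff 1)
      ((rst f x (e₁ + u • e₂)).coeff 2) ^ 3 := by
    rw [hN, Polynomial.eval_sub, Polynomial.eval_mul, Polynomial.eval_mul, Polynomial.eval_pow,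
      Polynomial.eval_pow, hHpe, hGpe, Polynomial.eval_ofNat, Polynomial.eval_ofNat, H3, G3, hc0, hc₀]
  have eD : D.eval u = 9 * Hc (y ^ 3) ((rst f x (e₁ + u • e₂)).coeff 1)
      ((rst f x (e₁ + u • e₂)).coeff 2) ^ 2 := by
    rw [hD, Polynomial.eval_mul, Polynomial.eval_pow, hHpe, Polynomial.eval_ofNat, H3, hc0, hc₀]
  rw [ecp, eN, eD] at u1
  refine ⟨e₁ + u • e₂, ?_, ?_⟩
  · rw [← hHpe]
    exact u2
  · refine h1 ℚ_[p] y _ _ _ hy ?_ ?_ (fun i => (u1 i).1 i le_rfl) (fun i j hij => ?_)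
    · intro h
      apply u2
      rw [hHpe, H3, hc0, hc₀]
      exact h
    · intro h
      apply u3
      rw [hDpe, hc₀]
      exact h
    · exact (u1 (max i j)).2 i (le_max_left _ _) j (le_max_right _ _) hij

end Pool.Agent.K6.H43.TC
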