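import Pool.Agent.K6.H43.TC.Stm

/-!
# Piece IOC of call43 (helper21)
-/

set_option autoImplicit false
set_option linter.unusedVariables false

open Filter Topology Pool.Agent.Y720.MZ

namespace Pool.Agent.K6.H43.TC

/-- translation and scaling of the doubling sequence -/
lemma itd_trans {A : Type*} [CommRing A] (g τ c N D : A) (i : ℕ) :
    ∃ l : A, (∃ k : ℕ, l = g ^ k) ∧
      (itd 0 0 (g ^ 3 * (c - τ ^ 3)) (g * (N + τ * D), D) i).1 =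
        l * (g * ((itd (3 * τ) (3 * τ ^ 2) c (N, D) i).1 +
          τ * (itd (3 * τ) (3 * τ ^ 2) c (N, D) i).2)) ∧
      (itd 0 0 (g ^ 3 * (c - τ ^ 3)) (g * (N + τ * D), D) i).2 =
        l * (itd (3 * τ) (3 * τ ^ 2) c (N, D) i).2 := by
  induction i with
  | zero => exact ⟨1, ⟨0, by rw [pow_zero]⟩, by simp [itd], by simp [itd]⟩
  | succ i ih =>
    obtain ⟨l, ⟨k, hk⟩, h1, h2⟩ := ih
    refine ⟨g ^ 3 * l ^ 4, ⟨3 + k * 4, by rw [hk, pow_add, pow_mul]⟩, ?_, ?_⟩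
    · simp only [itd, dbl]
      rw [h1, h2]
      ring
    · simp only [itd, dbl]
      rw [h1, h2]
      ring

theorem t_IOC : S_IOC := by
  intro F _ _ w c₁ c₂ c₃ hw hH hD h1 h2
  obtain ⟨H, hHd⟩ : ∃ H : F, H = Hc (w ^ 3) c₁ c₂ := ⟨_, rfl⟩
  obtain ⟨G, hGd⟩ : ∃ G : F, G = Gc (w ^ 3) c₁ c₂ c₃ := ⟨_, rfl⟩
  obtain ⟨D, hDd⟩ : ∃ D : F, D = Dc (w ^ 3) c₁ c₂ c₃ := ⟨_, rfl⟩
  have hs : 4 * H ^ 3 - G ^ 2 = 27 * (w ^ 3) ^ 2 * D := by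
    rw [hHd, hGd, hDd]
    exact syz _ _ _ _
  have hq : tq w c₁ c₂ c₃ = (H / (3 * w ^ 3),
      ![4 * G / (9 * w ^ 4), 2 * H / w ^ 2, 0, -3 * w ^ 2]) := by
    rw [hHd, hGd]
    rfl
  rw [← hHd] at hH
  rw [← hDd] at hD
  rw [← hHd, ← hGd, ← hDd] at h1 h2
  rw [hq]
  have h27 : (27 : F) ≠ 0 := by norm_num
  have h3 : (3 : F) ≠ 0 := by norm_num
  have h9 : (9 : F) ≠ 0 := by norm_num
  obtain ⟨θ, hθ⟩ : ∃ θ : F × (Fin 4 → F), θ = (H / (3 * w ^ 3),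
      ![4 * G / (9 * w ^ 4), 2 * H / w ^ 2, 0, -3 * w ^ 2]) := ⟨_, rfl⟩
  rw [← hθ]
  obtain ⟨τ, hτ⟩ : ∃ τ : F, τ = 2 * H / (3 * w ^ 2) := ⟨_, rfl⟩
  have hA : tA θ = 3 * τ := by
    have e : tA θ = 2 * H / w ^ 2 := by rw [hθ]; rfl
    rw [e, hτ]
    field_simp
  have hB : tB θ = 3 * τ ^ 2 := by
    have e : tB θ = (4 * G / (9 * w ^ 4)) * 0 - 4 * (H / (3 * w ^ 3)) ^ 2 * (-3 * w ^ 2) := by
      rw [hθ]; rfl
    rw [e, hτ]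
    field_simp
    ring
  have hC : tC θ = τ ^ 3 + 16 * D := by
    have e : tC θ = (4 * G / (9 * w ^ 4)) ^ 2 * (-3 * w ^ 2) + (H / (3 * w ^ 3)) ^ 2 * 0 ^ 2 -
        4 * (H / (3 * w ^ 3)) ^ 2 * (2 * H / w ^ 2) * (-3 * w ^ 2) := by
      rw [hθ]; rfl
    rw [e, hτ]
    have e2 : D = (4 * H ^ 3 - G ^ 2) / (27 * (w ^ 3) ^ 2) := by
      rw [hs]
      field_simp
    rw [e2]
    field_simp
    ring
  have hX : tX θ = (4 * G ^ 2 - 18 * H ^ 3) / (9 * H ^ 2 * w ^ 2) := by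
    have e : tX θ = (4 * G / (9 * w ^ 4)) ^ 2 / (4 * (H / (3 * w ^ 3)) ^ 2) - 2 * H / w ^ 2 := by
      rw [hθ]; rfl
    rw [e]
    field_simp
    ring
  obtain ⟨N, hN⟩ : ∃ N : F, N = (4 * G ^ 2 - 18 * H ^ 3) / w ^ 2 := ⟨_, rfl⟩
  have hxN : tX θ * (9 * H ^ 2) = N := by
    rw [hX, hN]
    field_simp
  have hN' : 4 * G ^ 2 - 12 * H ^ 3 = w ^ 2 * (N + τ * (9 * H ^ 2)) := by
    rw [hN, hτ]
    field_simp
    ring
  have hc' : 16 * (w ^ 3) ^ 2 * D = (w ^ 2) ^ 3 * ((τ ^ 3 + 16 * D) - τ ^ 3) := by ring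
  rw [hc', hN'] at h1 h2
  have hl : ∀ i, ∃ l : F, l ≠ 0 ∧
      (itd 0 0 ((w ^ 2) ^ 3 * ((τ ^ 3 + 16 * D) - τ ^ 3))
        (w ^ 2 * (N + τ * (9 * H ^ 2)), 9 * H ^ 2) i).1 =
        l * (w ^ 2 * ((itd (3 * τ) (3 * τ ^ 2) (τ ^ 3 + 16 * D) (N, 9 * H ^ 2) i).1 +
          τ * (itd (3 * τ) (3 * τ ^ 2) (τ ^ 3 + 16 * D) (N, 9 * H ^ 2) i).2)) ∧
      (itd 0 0 ((w ^ 2) ^ 3 * ((τ ^ 3 + 16 * D) - τ ^ 3))
        (w ^ 2 * (N + τ * (9 * H ^ 2)), 9 * H ^ 2) i).2 =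
        l * (itd (3 * τ) (3 * τ ^ 2) (τ ^ 3 + 16 * D) (N, 9 * H ^ 2) i).2 := by
    intro i
    obtain ⟨l, ⟨k, hk⟩, g1, g2⟩ := itd_trans (w ^ 2) τ (τ ^ 3 + 16 * D) N (9 * H ^ 2) i
    exact ⟨l, by rw [hk]; exact pow_ne_zero _ (pow_ne_zero _ hw), g1, g2⟩
  refine ⟨?_, ?_⟩
  · rw [hA, hB, hC]
    have e : dsc (3 * τ) (3 * τ ^ 2) (τ ^ 3 + 16 * D) = -(27 * (16 * D) ^ 2) := by
      unfold dsc
      ring
    rw [e]
    refine neg_ne_zero.2 (mul_ne_zero h27 (pow_ne_zero 2 (mul_ne_zero (by norm_num) hD)))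
  · letI : DecidableEq F := Classical.decEq F
    intro h n hn
    revert h
    rw [hA, hB, hC]
    intro h
    refine nontor_of_itd (N := N) (D := 9 * H ^ 2) h hxN (M := n) ?_ ?_ n hn le_rfl
    · intro i _ h0
      obtain ⟨l, g0, g1, g2⟩ := hl i
      apply h1 i
      rw [g2, h0, mul_zero]
    · intro i _ j _ hij h0
      obtain ⟨l, g0, g1, g2⟩ := hl i
      obtain ⟨l', g0', g1', g2'⟩ := hl j
      apply h2 i j hij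
      rw [g1, g2, g1', g2']
      linear_combination (l * l' * w ^ 2) * h0

end Pool.Agent.K6.H43.TC
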