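import Pool.Agent.K6.H43.TC.Stm

/-!
# Piece NEA of call43 (helper21)
-/

set_option autoImplicit false
set_option linter.unusedVariables false
set_option linter.unusedSectionVars false

open Filter Topology Pool.Agent.Y720.MZ

namespace Pool.Agent.K6.H43.TC

theorem t_NEA (h1 : S_IOC) (h2 : S_CSP) : S_NEA := by
  classical
  intro F _ _ _ α _ f v e x₀ y₀ hP hw he s₀ k0 k1 hT δ hδ
  -- the polynomials
  set W : Polynomial F := rst f x₀ v with hW
  set Q : Fin 4 → Polynomial F := fun j => rst (gk f e ((j : ℕ) + 1)) x₀ v with hQ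
  have hWe : ∀ u, W.eval u = MvPolynomial.eval (fun a => x₀ a + u * v a) f := by
    intro u
    rw [hW, rst_eval]
    congr 1
  have hQe : ∀ j u, (Q j).eval u = cq f (fun a => x₀ a + u * v a) e j := fun j u =>
    gk_line f x₀ v e j u
  obtain ⟨H, hH⟩ : ∃ H : Polynomial F, H = Hc W (Q 0) (Q 1) := ⟨_, rfl⟩
  obtain ⟨G, hG⟩ : ∃ G : Polynomial F, G = Gc W (Q 0) (Q 1) (Q 2) := ⟨_, rfl⟩
  obtain ⟨D, hD⟩ : ∃ D : Polynomial F, D = Dc W (Q 0) (Q 1) (Q 2) := ⟨_, rfl⟩
  have hHe : ∀ u, H.eval u = H3 f e (fun a => x₀ a + u * v a) := by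
    intro u
    rw [hH]
    unfold Hc
    simp only [Polynomial.eval_sub, Polynomial.eval_mul, Polynomial.eval_pow,
      Polynomial.eval_ofNat, hQe, hWe]
    rfl
  have hGe : ∀ u, G.eval u = G3 f e (fun a => x₀ a + u * v a) := by
    intro u
    rw [hG]
    unfold Gc
    simp only [Polynomial.eval_sub, Polynomial.eval_add, Polynomial.eval_mul,
      Polynomial.eval_pow, Polynomial.eval_ofNat, hQe, hWe]
    rfl
  have hDe : ∀ u, D.eval u = D3 f e (fun a => x₀ a + u * v a) := by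
    intro u
    rw [hD]
    unfold Dc
    simp only [Polynomial.eval_sub, Polynomial.eval_add, Polynomial.eval_mul,
      Polynomial.eval_pow, Polynomial.eval_ofNat, hQe, hWe]
    rfl
  -- the values at the branch point
  have hW0 : Polynomial.aeval s₀ W = 0 := by rw [hW, aeval_rst]; exact k0
  have hQ0 : Polynomial.aeval s₀ (Q 0) ≠ 0 := by
    rw [hQ]
    dsimp only
    have : ((0 : Fin 4) : ℕ) + 1 = 1 := rfl
    rw [this, gk_one, aeval_rst]
    exact k1
  have hHs : Polynomial.aeval s₀ H = Polynomial.aeval s₀ (Q 0) ^ 2 := by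
    rw [hH]
    unfold Hc
    simp only [map_sub, map_mul, map_pow, map_ofNat, hW0]
    ring
  have hGs : Polynomial.aeval s₀ G = 2 * Polynomial.aeval s₀ (Q 0) ^ 3 := by
    rw [hG]
    unfold Gc
    simp only [map_sub, map_add, map_mul, map_pow, map_ofNat, hW0]
    ring
  have hc0 : Polynomial.aeval s₀ (16 * W ^ 2 * D) = 0 := by
    simp only [map_mul, map_pow, map_ofNat, hW0]
    ring
  have hN0 : Polynomial.aeval s₀ (4 * G ^ 2 - 12 * H ^ 3) ≠ 0 := by
    have e1 : Polynomial.aeval s₀ (4 * G ^ 2 - 12 * H ^ 3) =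
        4 * Polynomial.aeval s₀ (Q 0) ^ 6 := by
      simp only [map_sub, map_mul, map_pow, map_ofNat, hHs, hGs]
      ring
    rw [e1]
    exact mul_ne_zero (by norm_num) (pow_ne_zero 6 hQ0)
  have hD0 : Polynomial.aeval s₀ (9 * H ^ 2) ≠ 0 := by
    have e1 : Polynomial.aeval s₀ (9 * H ^ 2) = 9 * Polynomial.aeval s₀ (Q 0) ^ 4 := by
      simp only [map_mul, map_pow, map_ofNat, hHs]
      ring
    rw [e1]
    exact mul_ne_zero (by norm_num) (pow_ne_zero 4 hQ0)
  -- the exceptional sets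
  have hWne : W ≠ 0 := by
    intro h
    have h3 := hWe 0
    rw [h, Polynomial.eval_zero] at h3
    have h4 : (fun a => x₀ a + 0 * v a) = x₀ := by funext a; ring
    rw [h4] at h3
    have h5 : y₀ ^ 3 = MvPolynomial.eval x₀ f := hP
    rw [← h3] at h5
    exact hw (pow_eq_zero_iff (three_ne_zero) |>.1 h5)
  have hHne : H ≠ 0 := by
    intro h
    rw [h, map_zero] at hHs
    exact hQ0 (pow_eq_zero_iff two_ne_zero |>.1 hHs.symm)
  have hDne : D ≠ 0 := by
    obtain ⟨u, hu⟩ := hT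
    intro h
    rw [← hDe, h, Polynomial.eval_zero] at hu
    exact hu rfl
  have hfinW : {u : F | W.eval u = 0}.Finite := Polynomial.finite_setOfPred_isRoot hWne
  have hfinH : {u : F | H.eval u = 0}.Finite := Polynomial.finite_setOfPred_isRoot hHne
  have hfinD : {u : F | D.eval u = 0}.Finite := Polynomial.finite_setOfPred_isRoot hDne
  have hcnt : (⋃ m : ℕ, {u : F | ¬ ((∀ i ≤ m, (itd 0 0 ((16 * W ^ 2 * D).eval u)
      ((4 * G ^ 2 - 12 * H ^ 3).eval u, (9 * H ^ 2).eval u) i).2 ≠ 0) ∧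
    ∀ i ≤ m, ∀ j ≤ m, i ≠ j →
      (itd 0 0 ((16 * W ^ 2 * D).eval u)
        ((4 * G ^ 2 - 12 * H ^ 3).eval u, (9 * H ^ 2).eval u) i).1 *
        (itd 0 0 ((16 * W ^ 2 * D).eval u)
          ((4 * G ^ 2 - 12 * H ^ 3).eval u, (9 * H ^ 2).eval u) j).2 -
      (itd 0 0 ((16 * W ^ 2 * D).eval u)
        ((4 * G ^ 2 - 12 * H ^ 3).eval u, (9 * H ^ 2).eval u) j).1 *
        (itd 0 0 ((16 * W ^ 2 * D).eval u)
          ((4 * G ^ 2 - 12 * H ^ 3).eval u, (9 * H ^ 2).eval u) i).2 ≠ 0)}).Countable :=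
    Set.countable_iUnion fun m =>
      (h2 F (16 * W ^ 2 * D) (4 * G ^ 2 - 12 * H ^ 3) (9 * H ^ 2) (AlgebraicClosure F) s₀
        hc0 hN0 hD0 m).countable
  have hdense := (Set.Countable.dense_compl F
    (hcnt.union (hfinW.countable.union (hfinH.countable.union hfinD.countable))))
  obtain ⟨ρ, hρ, hcb⟩ := cb_near hP hw hδ
  obtain ⟨ρ', hρ', -, hdir⟩ := dir_bound (s := fun _ : Unit => RingHom.id F) v hρ
  obtain ⟨u, hu1, hu2⟩ := Metric.dense_iff.1 hdense 0 (min δ ρ') (lt_min hδ hρ')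
  rw [mem_ball_zero_iff] at hu1
  rw [Set.mem_compl_iff, Set.mem_union, Set.mem_union, Set.mem_union, not_or, not_or,
    not_or] at hu2
  obtain ⟨g1, g2, g3, g4⟩ := hu2
  obtain ⟨Z, hZ1, hZ2⟩ := hcb (fun a => x₀ a + u * v a) (fun a => by
    rw [add_sub_cancel_left]
    exact hdir () a _ (hu1.trans_le (min_le_right _ _)))
  have hZW : Z ^ 3 = W.eval u := by
    rw [hWe]
    exact hZ2
  have hZe : Z ^ 3 = MvPolynomial.eval (fun a => x₀ a + u * v a) f := hZ2
  have hZ0 : Z ≠ 0 := by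
    intro h
    apply g2
    change W.eval u = 0
    rw [← hZW, h, zero_pow three_ne_zero]
  have hall : ∀ m, ((∀ i ≤ m, (itd 0 0 ((16 * W ^ 2 * D).eval u)
      ((4 * G ^ 2 - 12 * H ^ 3).eval u, (9 * H ^ 2).eval u) i).2 ≠ 0) ∧
    ∀ i ≤ m, ∀ j ≤ m, i ≠ j →
      (itd 0 0 ((16 * W ^ 2 * D).eval u)
        ((4 * G ^ 2 - 12 * H ^ 3).eval u, (9 * H ^ 2).eval u) i).1 *
        (itd 0 0 ((16 * W ^ 2 * D).eval u)
          ((4 * G ^ 2 - 12 * H ^ 3).eval u, (9 * H ^ 2).eval u) j).2 -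
      (itd 0 0 ((16 * W ^ 2 * D).eval u)
        ((4 * G ^ 2 - 12 * H ^ 3).eval u, (9 * H ^ 2).eval u) j).1 *
        (itd 0 0 ((16 * W ^ 2 * D).eval u)
          ((4 * G ^ 2 - 12 * H ^ 3).eval u, (9 * H ^ 2).eval u) i).2 ≠ 0) := by
    intro m
    by_contra hcon
    exact g1 (Set.mem_iUnion.2 ⟨m, hcon⟩)
  have ec : (16 * W ^ 2 * D).eval u = 16 * (Z ^ 3) ^ 2 * Dc (Z ^ 3)
      ((rst f (fun a => x₀ a + u * v a) e).coeff 1)
      ((rst f (fun a => x₀ a + u * v a) e).coeff 2)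
      ((rst f (fun a => x₀ a + u * v a) e).coeff 3) := by
    simp only [Polynomial.eval_mul, Polynomial.eval_pow, Polynomial.eval_ofNat, hDe, ← hZW]
    unfold D3
    rw [← hZe]
  have eN : (4 * G ^ 2 - 12 * H ^ 3).eval u = 4 * Gc (Z ^ 3)
      ((rst f (fun a => x₀ a + u * v a) e).coeff 1)
      ((rst f (fun a => x₀ a + u * v a) e).coeff 2)
      ((rst f (fun a => x₀ a + u * v a) e).coeff 3) ^ 2 - 12 * Hc (Z ^ 3)
      ((rst f (fun a => x₀ a + u * v a) e).coeff 1)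
      ((rst f (fun a => x₀ a + u * v a) e).coeff 2) ^ 3 := by
    simp only [Polynomial.eval_sub, Polynomial.eval_mul, Polynomial.eval_pow,
      Polynomial.eval_ofNat, hGe, hHe]
    unfold G3 H3
    rw [← hZe]
  have eD : (9 * H ^ 2).eval u = 9 * Hc (Z ^ 3)
      ((rst f (fun a => x₀ a + u * v a) e).coeff 1)
      ((rst f (fun a => x₀ a + u * v a) e).coeff 2) ^ 2 := by
    simp only [Polynomial.eval_mul, Polynomial.eval_pow, Polynomial.eval_ofNat, hHe]
    unfold H3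
    rw [← hZe]
  rw [ec, eN, eD] at hall
  refine ⟨u, Z, hZ2, hZ0, hu1.trans_le (min_le_left _ _), hZ1, ?_, ?_⟩
  · rw [← hHe]
    exact g3
  · unfold th3
    refine h1 F Z _ _ _ hZ0 ?_ ?_ ?_ ?_
    · have : H.eval u ≠ 0 := g3
      rw [hHe] at this
      unfold H3 at this
      rw [← hZe] at this
      exact this
    · have : D.eval u ≠ 0 := g4
      rw [hDe] at this
      unfold D3 at this
      rw [← hZe] at this
      exact this
    · intro i
      exact (hall i).1 i le_rfl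
    · intro i j hij
      exact (hall (max i j)).2 i (le_max_left _ _) j (le_max_right _ _) hij

end Pool.Agent.K6.H43.TC
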