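import Pool.Agent.K6.H43.TC.Alg

/-!
# Piece POL: two polynomials of degrees two and three (helper20)
-/

set_option autoImplicit false

namespace Pool.Agent.K6.H43.TC

open Polynomial

section pol

variable {M : Type*} [Field M] [CharZero M]

lemma four_ne : (4 : M[X]) ≠ 0 := by
  have h : (4 : M[X]) = C 4 := (map_ofNat C 4).symm
  rw [h]
  exact C_ne_zero.2 (by norm_num)

lemma rm_cube {H : M[X]} (hH : H ≠ 0) (a : M) :
    (4 * H ^ 3).rootMultiplicity a = 3 * H.rootMultiplicity a := by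
  have h4 : (4 : M[X]) = C 4 := (map_ofNat C 4).symm
  have e : 4 * H ^ 3 = C 4 * (H * (H * H)) := by rw [h4]; ring
  have h2 : H * H ≠ 0 := mul_ne_zero hH hH
  have h3 : H * (H * H) ≠ 0 := mul_ne_zero hH h2
  rw [e, rootMultiplicity_mul (mul_ne_zero (C_ne_zero.2 (by norm_num)) h3),
    rootMultiplicity_mul h3, rootMultiplicity_mul h2, rootMultiplicity_C]
  ring

omit [CharZero M] in
lemma rm_sq {G : M[X]} (hG : G ≠ 0) (a : M) :
    (G ^ 2).rootMultiplicity a = 2 * G.rootMultiplicity a := by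
  rw [sq, rootMultiplicity_mul (mul_ne_zero hG hG)]
  ring

/-- multiplicity of `4 H³ - G²` at a simple root of `H` -/
lemma key1 {H G : M[X]} {a : M} (hP : 4 * H ^ 3 - G ^ 2 ≠ 0) (hH : H ≠ 0)
    (h1 : H.rootMultiplicity a = 1) :
    (4 * H ^ 3 - G ^ 2).rootMultiplicity a ≤ 3 ∧
      ((4 * H ^ 3 - G ^ 2).rootMultiplicity a = 3 → (X - C a) ^ 2 ∣ G) := by
  by_cases hG : G = 0
  · subst hG
    refine ⟨?_, fun _ => dvd_zero _⟩
    have e : 4 * H ^ 3 - (0 : M[X]) ^ 2 = 4 * H ^ 3 := by ring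
    rw [e, rm_cube hH, h1]
  have hH3 : 4 * H ^ 3 ≠ 0 := mul_ne_zero four_ne (pow_ne_zero 3 hH)
  have hG2 : G ^ 2 ≠ 0 := pow_ne_zero 2 hG
  have step : 3 ≤ (4 * H ^ 3 - G ^ 2).rootMultiplicity a → 2 ≤ G.rootMultiplicity a := by
    intro h
    have d1 : (X - C a) ^ 3 ∣ 4 * H ^ 3 - G ^ 2 := (le_rootMultiplicity_iff hP).1 h
    have d2 : (X - C a) ^ 3 ∣ 4 * H ^ 3 := (le_rootMultiplicity_iff hH3).1 (by
      rw [rm_cube hH, h1])
    have d3 : (X - C a) ^ 3 ∣ G ^ 2 := by
      have := dvd_sub d2 d1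
      rwa [sub_sub_cancel] at this
    have d4 := (le_rootMultiplicity_iff hG2).2 d3
    rw [rm_sq hG] at d4
    omega
  constructor
  · by_contra hlt
    push Not at hlt
    have h2 := step (by omega)
    have d1 : (X - C a) ^ 4 ∣ 4 * H ^ 3 - G ^ 2 := (le_rootMultiplicity_iff hP).1 (by omega)
    have d2 : (X - C a) ^ 4 ∣ G ^ 2 := (le_rootMultiplicity_iff hG2).1 (by
      rw [rm_sq hG]; omega)
    have d3 : (X - C a) ^ 4 ∣ 4 * H ^ 3 := by
      have := dvd_add d1 d2
      rwa [sub_add_cancel] at this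
    have d4 := (le_rootMultiplicity_iff hH3).2 d3
    rw [rm_cube hH, h1] at d4
    omega
  · intro h
    exact (le_rootMultiplicity_iff hG).1 (step h.ge)

end pol

theorem t_POL : S_POL := by
  classical
  intro M _ _ _ h₀ h₁ h₂ g₀ g₁ g₂ g₃ hA hB
  by_contra hcon
  push Not at hcon
  set H : M[X] := C h₀ + C h₁ * X + C h₂ * X ^ 2 with hHdef
  set G : M[X] := C g₀ + C g₁ * X + C g₂ * X ^ 2 + C g₃ * X ^ 3 with hGdef
  have hHe : ∀ t, H.eval t = h₀ + h₁ * t + h₂ * t ^ 2 := fun t => by simp [hHdef]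
  have hGe : ∀ t, G.eval t = g₀ + g₁ * t + g₂ * t ^ 2 + g₃ * t ^ 3 := fun t => by simp [hGdef]
  have hroot : ∀ t, (4 * H ^ 3 - G ^ 2).eval t = 0 → H.eval t = 0 := by
    intro t ht
    rw [eval_sub, eval_mul, eval_pow, eval_pow, hHe, hGe, sub_eq_zero] at ht
    rw [hHe]
    apply hcon t
    have : eval t (4 : M[X]) = 4 := by simp
    rwa [this] at ht
  have hHdeg : H.natDegree ≤ 2 := by rw [hHdef]; compute_degree
  have hGdeg : G.natDegree ≤ 3 := by rw [hGdef]; compute_degree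
  have hP6 : (4 * H ^ 3 - G ^ 2).natDegree = 6 := by
    have e : 4 * H ^ 3 - G ^ 2 = C (4 * h₂ ^ 3 - g₃ ^ 2) * X ^ 6 +
        C (12 * h₂ ^ 2 * h₁ - 2 * g₂ * g₃) * X ^ 5 +
        C (12 * h₂ ^ 2 * h₀ + 12 * h₂ * h₁ ^ 2 - 2 * g₁ * g₃ - g₂ ^ 2) * X ^ 4 +
        C (24 * h₂ * h₁ * h₀ + 4 * h₁ ^ 3 - 2 * g₀ * g₃ - 2 * g₁ * g₂) * X ^ 3 +
        C (12 * h₂ * h₀ ^ 2 + 12 * h₁ ^ 2 * h₀ - 2 * g₀ * g₂ - g₁ ^ 2) * X ^ 2 +
        C (12 * h₁ * h₀ ^ 2 - 2 * g₀ * g₁) * X + C (4 * h₀ ^ 3 - g₀ ^ 2) := by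
      rw [hHdef, hGdef]
      simp only [map_sub, map_mul, map_pow, map_add, map_ofNat]
      ring
    rw [e]
    compute_degree!
  have hP0 : 4 * H ^ 3 - G ^ 2 ≠ 0 := by
    intro h
    rw [h, natDegree_zero] at hP6
    omega
  have hH0 : H ≠ 0 := by
    intro h
    have c0 : H.coeff 0 = h₀ := by simp [hHdef]
    have c2 : H.coeff 2 = h₂ := by
      simp [hHdef]
    rw [h, coeff_zero] at c0 c2
    apply hB
    rw [← c0, ← c2]
    ring
  -- sums of multiplicities
  have sumP : ∑ t ∈ (4 * H ^ 3 - G ^ 2).roots.toFinset,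
      (4 * H ^ 3 - G ^ 2).rootMultiplicity t = 6 := by
    have h1 : Multiset.card (4 * H ^ 3 - G ^ 2).roots = 6 := by
      rw [← hP6]
      exact (splits_iff_card_roots.1 (IsAlgClosed.splits _))
    rw [← h1, ← Multiset.toFinset_sum_count_eq]
    exact Finset.sum_congr rfl fun t _ => (count_roots _).symm
  have sumH : ∑ t ∈ H.roots.toFinset, H.rootMultiplicity t ≤ 2 := by
    have h1 : Multiset.card H.roots ≤ 2 := (card_roots' H).trans hHdeg
    refine le_trans (le_of_eq ?_) h1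
    rw [← Multiset.toFinset_sum_count_eq]
    exact Finset.sum_congr rfl fun t _ => (count_roots _).symm
  have hsub : (4 * H ^ 3 - G ^ 2).roots.toFinset ⊆ H.roots.toFinset := by
    intro t ht
    rw [Multiset.mem_toFinset, mem_roots hP0] at ht
    rw [Multiset.mem_toFinset, mem_roots hH0]
    exact hroot t ht
  have sumP' : 6 ≤ ∑ t ∈ H.roots.toFinset, (4 * H ^ 3 - G ^ 2).rootMultiplicity t := by
    rw [← sumP]
    exact Finset.sum_le_sum_of_subset hsub
  have hpos : ∀ t ∈ H.roots.toFinset, 1 ≤ H.rootMultiplicity t := by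
    intro t ht
    rw [Multiset.mem_toFinset, mem_roots hH0] at ht
    exact (rootMultiplicity_pos hH0).2 ht
  have hcard : H.roots.toFinset.card ≤ 2 := by
    rw [Finset.card_eq_sum_ones]
    exact (Finset.sum_le_sum hpos).trans sumH
  by_cases hs : ∀ t ∈ H.roots.toFinset, H.rootMultiplicity t = 1
  · -- all roots of `H` are simple
    have h3 : ∀ t ∈ H.roots.toFinset, (4 * H ^ 3 - G ^ 2).rootMultiplicity t ≤ 3 :=
      fun t ht => (key1 hP0 hH0 (hs t ht)).1
    have h4 : ∑ t ∈ H.roots.toFinset, (4 * H ^ 3 - G ^ 2).rootMultiplicity t ≤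
        H.roots.toFinset.card * 3 := by
      have := Finset.sum_le_card_nsmul _ _ _ h3
      simpa using this
    have hc2 : H.roots.toFinset.card = 2 := by omega
    obtain ⟨a, b, hab, hS⟩ := Finset.card_eq_two.1 hc2
    rw [hS, Finset.sum_pair hab] at sumP'
    rw [hS] at hs h3
    have ha := h3 a (by simp)
    have hb := h3 b (by simp)
    have da := (key1 hP0 hH0 (hs a (by simp))).2 (by omega)
    have db := (key1 hP0 hH0 (hs b (by simp))).2 (by omega)
    have hcop : IsCoprime ((X - C a) ^ 2) ((X - C b) ^ 2) :=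
      (isCoprime_X_sub_C_of_isUnit_sub (sub_ne_zero.2 hab).isUnit).pow
    have hd := hcop.mul_dvd da db
    have hG0 : G = 0 := by
      by_contra hG
      have h5 := natDegree_le_of_dvd hd hG
      have h6 : ((X - C a) ^ 2 * (X - C b) ^ 2).natDegree = 4 := by
        rw [natDegree_mul (pow_ne_zero 2 (X_sub_C_ne_zero a)) (pow_ne_zero 2 (X_sub_C_ne_zero b)),
          natDegree_pow, natDegree_pow, natDegree_X_sub_C, natDegree_X_sub_C]
      omega
    have c0 : G.coeff 0 = g₀ := by simp [hGdef]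
    have c3 : G.coeff 3 = g₃ := by
      simp [hGdef]
    rw [hG0, coeff_zero] at c0 c3
    apply hB
    rw [← c0, ← c3]
    ring
  · -- a double root
    push Not at hs
    obtain ⟨a, haS, ha⟩ := hs
    have ha2 : 2 ≤ H.rootMultiplicity a := by
      have := hpos a haS
      omega
    have hSa : H.roots.toFinset = {a} := by
      apply Finset.eq_singleton_iff_unique_mem.2 ⟨haS, fun b hb => ?_⟩
      by_contra hne
      have h5 : ∑ t ∈ ({a, b} : Finset M), H.rootMultiplicity t ≤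
          ∑ t ∈ H.roots.toFinset, H.rootMultiplicity t := by
        apply Finset.sum_le_sum_of_subset
        intro x hx
        rcases Finset.mem_insert.1 hx with rfl | hx
        · exact haS
        · rw [Finset.mem_singleton.1 hx]; exact hb
      rw [Finset.sum_pair (Ne.symm hne)] at h5
      have := hpos b hb
      omega
    rw [hSa, Finset.sum_singleton] at sumP'
    have hH3 : 4 * H ^ 3 ≠ 0 := mul_ne_zero four_ne (pow_ne_zero 3 hH0)
    have d1 : (X - C a) ^ 6 ∣ 4 * H ^ 3 - G ^ 2 := (le_rootMultiplicity_iff hP0).1 sumP'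
    have d2 : (X - C a) ^ 6 ∣ 4 * H ^ 3 := (le_rootMultiplicity_iff hH3).1 (by
      rw [rm_cube hH0]; omega)
    have d3 : (X - C a) ^ 6 ∣ G ^ 2 := by
      have := dvd_sub d2 d1
      rwa [sub_sub_cancel] at this
    have d4 : (X - C a) ^ 3 ∣ G := by
      by_cases hG : G = 0
      · rw [hG]; exact dvd_zero _
      have d5 := (le_rootMultiplicity_iff (pow_ne_zero 2 hG)).2 d3
      rw [rm_sq hG] at d5
      exact (le_rootMultiplicity_iff hG).1 (by omega)
    have d5 : (X - C a) ^ 2 ∣ H := (le_rootMultiplicity_iff hH0).1 ha2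
    obtain ⟨q, hq⟩ := d5
    obtain ⟨r, hr⟩ := d4
    have hq0 : q.natDegree = 0 := by
      have hqn : q ≠ 0 := by rintro rfl; exact hH0 (by rw [hq, mul_zero])
      have := hHdeg
      rw [hq, natDegree_mul (pow_ne_zero 2 (X_sub_C_ne_zero a)) hqn, natDegree_pow,
        natDegree_X_sub_C] at this
      omega
    have hr0 : r.natDegree = 0 := by
      by_cases hrn : r = 0
      · rw [hrn, natDegree_zero]
      have := hGdeg
      rw [hr, natDegree_mul (pow_ne_zero 3 (X_sub_C_ne_zero a)) hrn, natDegree_pow,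
        natDegree_X_sub_C] at this
      omega
    rw [natDegree_eq_zero] at hq0 hr0
    obtain ⟨u, rfl⟩ := hq0
    obtain ⟨v, rfl⟩ := hr0
    have hHx : ∀ t, h₀ + h₁ * t + h₂ * t ^ 2 = (t - a) ^ 2 * u := fun t => by
      rw [← hHe, hq]; simp
    have hGx : ∀ t, g₀ + g₁ * t + g₂ * t ^ 2 + g₃ * t ^ 3 = (t - a) ^ 3 * v := fun t => by
      rw [← hGe, hr]; simp
    have e0 : h₀ = a ^ 2 * u := by
      have := hHx 0
      linear_combination this
    have e2 : h₂ = u := by
      have t0 := hHx 0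
      have t1 := hHx 1
      have t2 := hHx (-1)
      have : 2 * (h₂ - u) = 0 := by linear_combination t1 + t2 - 2 * t0
      have h2 := (mul_eq_zero.1 this).resolve_left two_ne_zero
      exact sub_eq_zero.1 h2
    have f0 : g₀ = - a ^ 3 * v := by
      have := hGx 0
      linear_combination this
    have f3 : g₃ = v := by
      have t0 := hGx 0
      have t1 := hGx 1
      have t2 := hGx (-1)
      have t3 := hGx 2
      have : 6 * (g₃ - v) = 0 := by linear_combination t3 - 3 * t1 + 3 * t0 - t2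
      have h2 := (mul_eq_zero.1 this).resolve_left (by norm_num)
      exact sub_eq_zero.1 h2
    apply hB
    rw [e0, e2, f0, f3]
    ring

end Pool.Agent.K6.H43.TC
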