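import Pool.Agent.K6.H43.TC.Stm

/-!
# Piece QRT: moves on the plane cubics from the quartics (helper20)
-/

set_option autoImplicit false
set_option linter.unusedVariables false
set_option linter.unusedSectionVars false

open Filter Topology Pool.Agent.Y720.MZ

namespace Pool.Agent.K6.H43.TC

section alg

variable {F : Type*} [Field F] [CharZero F]

/-- leading coefficient of the quadratic equation for `t` -/
noncomputable def aq (w c₁ c₃ μ : F) : F := -c₃ + (c₁ / (3 * w ^ 2) + μ) ^ 3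

/-- middle coefficient -/
noncomputable def bq (w c₁ c₂ μ : F) : F :=
  (c₁ ^ 2 - 3 * w ^ 3 * c₂) / (3 * w ^ 3) + 2 * c₁ / w * μ + 3 * w * μ ^ 2

lemma qdisc {w : F} (hw : w ≠ 0) (c₁ c₂ c₃ μ : F) :
    bq w c₁ c₂ μ ^ 2 - 4 * aq w c₁ c₃ μ * (3 * w ^ 2 * μ) =
      qv (tq w c₁ c₂ c₃).1 (tq w c₁ c₂ c₃).2 μ := by
  have e0 : (tq w c₁ c₂ c₃).2 0 = 4 * Gc (w ^ 3) c₁ c₂ c₃ / (9 * w ^ 4) := rfl
  have e1 : (tq w c₁ c₂ c₃).2 1 = 2 * Hc (w ^ 3) c₁ c₂ / w ^ 2 := rfl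
  have e2 : (tq w c₁ c₂ c₃).2 2 = 0 := rfl
  have e3 : (tq w c₁ c₂ c₃).2 3 = -3 * w ^ 2 := rfl
  have e4 : (tq w c₁ c₂ c₃).1 = Hc (w ^ 3) c₁ c₂ / (3 * w ^ 3) := rfl
  unfold qv
  rw [e0, e1, e2, e3, e4]
  unfold aq bq Hc Gc
  field_simp
  ring

lemma qcub {w : F} (hw : w ≠ 0) (c₁ c₂ c₃ μ t : F) :
    (w + t * (c₁ / (3 * w ^ 2) + μ)) ^ 3 - (w ^ 3 + c₁ * t + c₂ * t ^ 2 + c₃ * t ^ 3) =
      t * (aq w c₁ c₃ μ * t ^ 2 + bq w c₁ c₂ μ * t + 3 * w ^ 2 * μ) := by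
  unfold aq bq
  field_simp
  ring

/-- from the cubic to the quadratic equation -/
lemma qfwd {w c₁ c₂ c₃ t Y μ : F} (hw : w ≠ 0)
    (hY : Y ^ 3 = w ^ 3 + c₁ * t + c₂ * t ^ 2 + c₃ * t ^ 3)
    (hD : 3 * w ^ 2 + 3 * w * (Y - w) + (Y - w) ^ 2 ≠ 0)
    (hμ : μ = (c₁ + c₂ * t + c₃ * t ^ 2) / (3 * w ^ 2 + 3 * w * (Y - w) + (Y - w) ^ 2) -
      c₁ / (3 * w ^ 2)) :
    Y - w = t * (c₁ / (3 * w ^ 2) + μ) ∧
      aq w c₁ c₃ μ * t ^ 2 + bq w c₁ c₂ μ * t + 3 * w ^ 2 * μ = 0 := by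
  have h1 : Y - w = t * (c₁ / (3 * w ^ 2) + μ) := by
    rw [hμ, add_sub_cancel, mul_div_assoc', eq_div_iff hD]
    linear_combination hY
  refine ⟨h1, ?_⟩
  by_cases ht : t = 0
  · subst ht
    rw [zero_mul] at h1
    rw [h1] at hμ
    have : μ = 0 := by rw [hμ]; ring
    rw [this]; ring
  · have h2 := qcub hw c₁ c₂ c₃ μ t
    rw [← h1, add_sub_cancel, hY, sub_self] at h2
    exact (mul_eq_zero.1 h2.symm).resolve_left ht

/-- from the quadratic equation to the cubic -/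
lemma qbwd {w c₁ c₂ c₃ u Z : F} (hw : w ≠ 0)
    (hZ : Z ^ 2 = bq w c₁ c₂ u ^ 2 - 4 * aq w c₁ c₃ u * (3 * w ^ 2 * u))
    (hD : bq w c₁ c₂ u + Z ≠ 0) :
    (w + -(6 * w ^ 2 * u) / (bq w c₁ c₂ u + Z) * (c₁ / (3 * w ^ 2) + u)) ^ 3 =
      w ^ 3 + c₁ * (-(6 * w ^ 2 * u) / (bq w c₁ c₂ u + Z)) +
        c₂ * (-(6 * w ^ 2 * u) / (bq w c₁ c₂ u + Z)) ^ 2 +
        c₃ * (-(6 * w ^ 2 * u) / (bq w c₁ c₂ u + Z)) ^ 3 := by
  have h1 := qcub hw c₁ c₂ c₃ u (-(6 * w ^ 2 * u) / (bq w c₁ c₂ u + Z))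
  have h2 : aq w c₁ c₃ u * (-(6 * w ^ 2 * u) / (bq w c₁ c₂ u + Z)) ^ 2 +
      bq w c₁ c₂ u * (-(6 * w ^ 2 * u) / (bq w c₁ c₂ u + Z)) + 3 * w ^ 2 * u = 0 := by
    generalize aq w c₁ c₃ u = a at *
    generalize bq w c₁ c₂ u = b at *
    field_simp
    linear_combination (3 * w ^ 2 * u) * hZ
  rw [h2, mul_zero, sub_eq_zero] at h1
  exact h1

lemma qval {w c₁ c₂ c₃ t μ : F}
    (h : aq w c₁ c₃ μ * t ^ 2 + bq w c₁ c₂ μ * t + 3 * w ^ 2 * μ = 0)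
    (hD : bq w c₁ c₂ μ + (2 * aq w c₁ c₃ μ * t + bq w c₁ c₂ μ) ≠ 0) :
    -(6 * w ^ 2 * μ) / (bq w c₁ c₂ μ + (2 * aq w c₁ c₃ μ * t + bq w c₁ c₂ μ)) = t := by
  rw [div_eq_iff hD]
  linear_combination (-2) * h

lemma map_aq {G : Type*} [Field G] (σ : F →+* G) (w c₁ c₃ μ : F) :
    σ (aq w c₁ c₃ μ) = -σ c₃ + (σ c₁ / (3 * σ w ^ 2) + σ μ) ^ 3 := by
  have h3 : σ 3 = 3 := map_ofNat σ 3
  simp [aq, h3]

lemma map_bq {G : Type*} [Field G] [CharZero G] (σ : F →+* G) (w c₁ c₂ μ : F) :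
    σ (bq w c₁ c₂ μ) = bq (σ w) (σ c₁) (σ c₂) (σ μ) := by
  have h2 : σ 2 = 2 := map_ofNat σ 2
  have h3 : σ 3 = 3 := map_ofNat σ 3
  simp [bq, h2, h3]

lemma map_tq1 {G : Type*} [Field G] [CharZero G] (σ : F →+* G) (w c₁ c₂ c₃ : F) :
    σ (tq w c₁ c₂ c₃).1 = (tq (σ w) (σ c₁) (σ c₂) (σ c₃)).1 := by
  have h3 : σ 3 = 3 := map_ofNat σ 3
  simp [tq, Hc, h3]

lemma map_tq2 {G : Type*} [Field G] [CharZero G] (σ : F →+* G) (w c₁ c₂ c₃ : F) (j : Fin 4) :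
    σ ((tq w c₁ c₂ c₃).2 j) = (tq (σ w) (σ c₁) (σ c₂) (σ c₃)).2 j := by
  have h2 : σ 2 = 2 := map_ofNat σ 2
  have h3 : σ 3 = 3 := map_ofNat σ 3
  have h4 : σ 4 = 4 := map_ofNat σ 4
  have h9 : σ 9 = 9 := map_ofNat σ 9
  have h27 : σ 27 = 27 := map_ofNat σ 27
  fin_cases j <;> simp [tq, Hc, Gc, h2, h3, h4, h9, h27]

/-- the value of `f` on the line -/
lemma eval_line {α : Type*} [Fintype α] {f : MvPolynomial α F} {z e : α → F}
    (h : (rst f z e).natDegree ≤ 3) {w : F} (hw : w ^ 3 = MvPolynomial.eval z f) (t : F) :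
    MvPolynomial.eval (fun a => z a + t * e a) f = w ^ 3 + (rst f z e).coeff 1 * t +
      (rst f z e).coeff 2 * t ^ 2 + (rst f z e).coeff 3 * t ^ 3 := by
  have h1 : (rst f z e).eval t = MvPolynomial.eval (z + t • e) f := rst_eval _ _ _ _
  have h2 : (z + t • e) = fun a => z a + t * e a := by
    funext a; simp
  rw [h2] at h1
  rw [← h1, (rst f z e).as_sum_range_C_mul_X_pow' (n := 4) (by omega), Polynomial.eval_finsetSum,
    Finset.sum_range]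
  simp only [Polynomial.eval_mul, Polynomial.eval_C, Polynomial.eval_pow, Polynomial.eval_X]
  rw [Fin.sum_univ_four]
  have h3 : (rst f z e).coeff 0 = w ^ 3 := by
    rw [hw, Polynomial.coeff_zero_eq_eval_zero, rst_eval]
    simp
  have g0 : ((0 : Fin 4) : ℕ) = 0 := rfl
  have g1 : ((1 : Fin 4) : ℕ) = 1 := rfl
  have g2 : ((2 : Fin 4) : ℕ) = 2 := rfl
  have g3 : ((3 : Fin 4) : ℕ) = 3 := rfl
  rw [g0, g1, g2, g3, h3]
  simp only [← Polynomial.as_sum_range_C_mul_X_pow' (n := 4) (p := rst f z e) (by omega)]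
  ring

end alg

section cont

variable {L : Type*} [NontriviallyNormedField L] [CharZero L]

/-- first continuity statement: the data of the quartic from the data of the cubic -/
lemma cont1 {y k₁ k₂ k₃ : L} (hy : y ≠ 0) (hH : Hc (y ^ 3) k₁ k₂ ≠ 0) {δ : ℝ} (hδ : 0 < δ) :
    ∃ ρ : ℝ, 0 < ρ ∧ ∀ w c₁ c₂ c₃ t Y : L, ‖w - y‖ < ρ → ‖c₁ - k₁‖ < ρ → ‖c₂ - k₂‖ < ρ →
      ‖c₃ - k₃‖ < ρ → ‖t‖ < ρ → ‖Y - y‖ < ρ →
      w ≠ 0 ∧ 3 * w ^ 2 + 3 * w * (Y - w) + (Y - w) ^ 2 ≠ 0 ∧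
      ‖(tq w c₁ c₂ c₃).1 - (tq y k₁ k₂ k₃).1‖ < δ ∧
      (∀ j, ‖(tq w c₁ c₂ c₃).2 j - (tq y k₁ k₂ k₃).2 j‖ < δ) ∧
      ∀ μ, μ = (c₁ + c₂ * t + c₃ * t ^ 2) / (3 * w ^ 2 + 3 * w * (Y - w) + (Y - w) ^ 2) -
        c₁ / (3 * w ^ 2) → ‖μ‖ < δ ∧
        ‖2 * aq w c₁ c₃ μ * t + bq w c₁ c₂ μ - (tq y k₁ k₂ k₃).1‖ < δ ∧
        bq w c₁ c₂ μ + (2 * aq w c₁ c₃ μ * t + bq w c₁ c₂ μ) ≠ 0 := by
  let e₀ : L × L × L × L × L × L := (y, k₁, k₂, k₃, 0, y)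
  have h3 : (3 : L) ≠ 0 := by norm_num
  -- coordinates
  have cw : ContinuousAt (fun e : L × L × L × L × L × L => e.1) e₀ := by fun_prop
  have c1 : ContinuousAt (fun e : L × L × L × L × L × L => e.2.1) e₀ := by fun_prop
  have c2 : ContinuousAt (fun e : L × L × L × L × L × L => e.2.2.1) e₀ := by fun_prop
  have c3 : ContinuousAt (fun e : L × L × L × L × L × L => e.2.2.2.1) e₀ := by fun_prop
  have ct : ContinuousAt (fun e : L × L × L × L × L × L => e.2.2.2.2.1) e₀ := by fun_prop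
  have cY : ContinuousAt (fun e : L × L × L × L × L × L => e.2.2.2.2.2) e₀ := by fun_prop
  have cD : ContinuousAt (fun e : L × L × L × L × L × L => 3 * e.1 ^ 2 +
      3 * e.1 * (e.2.2.2.2.2 - e.1) + (e.2.2.2.2.2 - e.1) ^ 2) e₀ := by fun_prop
  have hD0 : 3 * e₀.1 ^ 2 + 3 * e₀.1 * (e₀.2.2.2.2.2 - e₀.1) + (e₀.2.2.2.2.2 - e₀.1) ^ 2 ≠ 0 := by
    show 3 * y ^ 2 + 3 * y * (y - y) + (y - y) ^ 2 ≠ 0
    rw [sub_self, mul_zero, add_zero, zero_pow two_ne_zero, add_zero]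
    exact mul_ne_zero h3 (pow_ne_zero 2 hy)
  have hw2 : 3 * e₀.1 ^ 2 ≠ 0 := mul_ne_zero h3 (pow_ne_zero 2 hy)
  have hw3 : 3 * e₀.1 ^ 3 ≠ 0 := mul_ne_zero h3 (pow_ne_zero 3 hy)
  have hw1 : e₀.1 ≠ 0 := hy
  have cs : ContinuousAt (fun e : L × L × L × L × L × L => e.2.1 / (3 * e.1 ^ 2)) e₀ :=
    c1.div (by fun_prop) hw2
  have cm : ContinuousAt (fun e : L × L × L × L × L × L =>
      (e.2.1 + e.2.2.1 * e.2.2.2.2.1 + e.2.2.2.1 * e.2.2.2.2.1 ^ 2) / (3 * e.1 ^ 2 +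
      3 * e.1 * (e.2.2.2.2.2 - e.1) + (e.2.2.2.2.2 - e.1) ^ 2) - e.2.1 / (3 * e.1 ^ 2)) e₀ :=
    (ContinuousAt.div (by fun_prop) cD hD0).sub cs
  set mu : L × L × L × L × L × L → L := fun e =>
      (e.2.1 + e.2.2.1 * e.2.2.2.2.1 + e.2.2.2.1 * e.2.2.2.2.1 ^ 2) / (3 * e.1 ^ 2 +
      3 * e.1 * (e.2.2.2.2.2 - e.1) + (e.2.2.2.2.2 - e.1) ^ 2) - e.2.1 / (3 * e.1 ^ 2) with hmu
  have hmu0 : mu e₀ = 0 := by
    show (k₁ + k₂ * 0 + k₃ * 0 ^ 2) / (3 * y ^ 2 + 3 * y * (y - y) + (y - y) ^ 2) -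
      k₁ / (3 * y ^ 2) = 0
    simp
  have ca : ContinuousAt (fun e : L × L × L × L × L × L => aq e.1 e.2.1 e.2.2.2.1 (mu e)) e₀ := by
    unfold aq
    exact c3.neg.add ((cs.add cm).pow 3)
  have cb : ContinuousAt (fun e : L × L × L × L × L × L => bq e.1 e.2.1 e.2.2.1 (mu e)) e₀ := by
    unfold bq
    refine ContinuousAt.add (ContinuousAt.add ?_ ?_) ?_
    · exact ContinuousAt.div (by fun_prop) (by fun_prop) hw3
    · exact (ContinuousAt.div (by fun_prop) cw hw1).mul cm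
    · exact ContinuousAt.mul (by fun_prop) (cm.pow 2)
  have cZ : ContinuousAt (fun e : L × L × L × L × L × L =>
      2 * aq e.1 e.2.1 e.2.2.2.1 (mu e) * e.2.2.2.2.1 + bq e.1 e.2.1 e.2.2.1 (mu e)) e₀ :=
    ((continuousAt_const.mul ca).mul ct).add cb
  have hb0 : bq e₀.1 e₀.2.1 e₀.2.2.1 (mu e₀) = (tq y k₁ k₂ k₃).1 := by
    rw [hmu0]
    show bq y k₁ k₂ 0 = Hc (y ^ 3) k₁ k₂ / (3 * y ^ 3)
    unfold bq Hc
    ring
  have hZ0 : 2 * aq e₀.1 e₀.2.1 e₀.2.2.2.1 (mu e₀) * e₀.2.2.2.2.1 +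
      bq e₀.1 e₀.2.1 e₀.2.2.1 (mu e₀) = (tq y k₁ k₂ k₃).1 := by
    rw [hb0]
    show 2 * aq y k₁ k₃ (mu e₀) * 0 + _ = _
    rw [mul_zero, zero_add]
  have hT0 : (tq y k₁ k₂ k₃).1 ≠ 0 := div_ne_zero hH hw3
  have cT1 : ContinuousAt (fun e : L × L × L × L × L × L => (tq e.1 e.2.1 e.2.2.1 e.2.2.2.1).1)
      e₀ := by
    show ContinuousAt (fun e : L × L × L × L × L × L =>
      Hc (e.1 ^ 3) e.2.1 e.2.2.1 / (3 * e.1 ^ 3)) e₀
    unfold Hc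
    exact ContinuousAt.div (by fun_prop) (by fun_prop) hw3
  have cT2 : ∀ j, ContinuousAt (fun e : L × L × L × L × L × L =>
      (tq e.1 e.2.1 e.2.2.1 e.2.2.2.1).2 j) e₀ := by
    intro j
    fin_cases j
    · show ContinuousAt (fun e : L × L × L × L × L × L =>
        4 * Gc (e.1 ^ 3) e.2.1 e.2.2.1 e.2.2.2.1 / (9 * e.1 ^ 4)) e₀
      unfold Gc
      refine ContinuousAt.div (by fun_prop) (by fun_prop) (mul_ne_zero (by norm_num)
        (pow_ne_zero 4 hy))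
    · show ContinuousAt (fun e : L × L × L × L × L × L =>
        2 * Hc (e.1 ^ 3) e.2.1 e.2.2.1 / e.1 ^ 2) e₀
      unfold Hc
      exact ContinuousAt.div (by fun_prop) (by fun_prop) (pow_ne_zero 2 hy)
    · exact continuousAt_const
    · show ContinuousAt (fun e : L × L × L × L × L × L => -3 * e.1 ^ 2) e₀
      fun_prop
  have near : ∀ {g : L × L × L × L × L × L → L}, ContinuousAt g e₀ →
      ∀ᶠ e in 𝓝 e₀, ‖g e - g e₀‖ < δ := by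
    intro g hg
    have := (hg.sub (continuousAt_const (y := g e₀))).norm
    have h0 : ‖g e₀ - g e₀‖ < δ := by rwa [sub_self, norm_zero]
    exact this.eventually_lt continuousAt_const h0
  have hall := (cw.eventually_ne hw1).and ((cD.eventually_ne hD0).and ((near cT1).and
    ((Filter.eventually_all.2 fun j => near (cT2 j)).and ((near cm).and ((near cZ).and
      ((cb.add cZ).eventually_ne (by
        show bq e₀.1 e₀.2.1 e₀.2.2.1 (mu e₀) + (2 * aq e₀.1 e₀.2.1 e₀.2.2.2.1 (mu e₀) *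
          e₀.2.2.2.2.1 + bq e₀.1 e₀.2.1 e₀.2.2.1 (mu e₀)) ≠ 0
        rw [hZ0, hb0, ← two_mul]
        exact mul_ne_zero two_ne_zero hT0)))))))
  obtain ⟨ρ, hρ, hb⟩ := Metric.eventually_nhds_iff_ball.1 hall
  refine ⟨ρ, hρ, fun w c₁ c₂ c₃ t Y q1 q2 q3 q4 q5 q6 => ?_⟩
  obtain ⟨g1, g2, g3, g4, g5, g6, g7⟩ := hb (w, c₁, c₂, c₃, t, Y) (by
    rw [Metric.mem_ball, Prod.dist_eq, Prod.dist_eq, Prod.dist_eq, Prod.dist_eq, Prod.dist_eq]
    refine max_lt ?_ (max_lt ?_ (max_lt ?_ (max_lt ?_ (max_lt ?_ ?_))))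
    · rw [dist_eq_norm]; exact q1
    · rw [dist_eq_norm]; exact q2
    · rw [dist_eq_norm]; exact q3
    · rw [dist_eq_norm]; exact q4
    · rw [dist_eq_norm, sub_zero]; exact q5
    · rw [dist_eq_norm]; exact q6)
  refine ⟨g1, g2, g3, g4, fun μ hμ => ?_⟩
  have e1 : mu (w, c₁, c₂, c₃, t, Y) = μ := hμ.symm
  rw [hmu0, sub_zero, e1] at g5
  rw [hZ0] at g6
  simp only [Pi.add_apply] at g6 g7
  rw [e1] at g6 g7
  exact ⟨g5, g6, g7⟩

/-- second continuity statement: from the quartic back to the cubic -/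
lemma cont2 {w c₁ c₂ t r μ Z : L} (hw : w ≠ 0) (hD : bq w c₁ c₂ μ + Z ≠ 0)
    (ht : -(6 * w ^ 2 * μ) / (bq w c₁ c₂ μ + Z) = t) (hr : t * (c₁ / (3 * w ^ 2) + μ) = r)
    {η₁ η₂ : ℝ} (h₁ : 0 < η₁) (h₂ : 0 < η₂) :
    ∃ ρ : ℝ, 0 < ρ ∧ ∀ u Z' : L, ‖u - μ‖ < ρ → ‖Z' - Z‖ < ρ → bq w c₁ c₂ u + Z' ≠ 0 ∧
      ‖-(6 * w ^ 2 * u) / (bq w c₁ c₂ u + Z') - t‖ < η₁ ∧
      ‖-(6 * w ^ 2 * u) / (bq w c₁ c₂ u + Z') * (c₁ / (3 * w ^ 2) + u) - r‖ < η₂ := by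
  have cD : ContinuousAt (fun e : L × L => bq w c₁ c₂ e.1 + e.2) (μ, Z) := by
    unfold bq
    fun_prop
  have cT : ContinuousAt (fun e : L × L => -(6 * w ^ 2 * e.1) / (bq w c₁ c₂ e.1 + e.2)) (μ, Z) :=
    ContinuousAt.div (by fun_prop) cD hD
  have cR : ContinuousAt (fun e : L × L => -(6 * w ^ 2 * e.1) / (bq w c₁ c₂ e.1 + e.2) *
      (c₁ / (3 * w ^ 2) + e.1)) (μ, Z) := cT.mul (by fun_prop)
  have n1 : ∀ᶠ e in 𝓝 (μ, Z), ‖-(6 * w ^ 2 * e.1) / (bq w c₁ c₂ e.1 + e.2) - t‖ < η₁ := by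
    refine ((cT.sub (continuousAt_const (y := t))).norm).eventually_lt continuousAt_const ?_
    show ‖-(6 * w ^ 2 * μ) / (bq w c₁ c₂ μ + Z) - t‖ < η₁
    rwa [ht, sub_self, norm_zero]
  have n2 : ∀ᶠ e in 𝓝 (μ, Z), ‖-(6 * w ^ 2 * e.1) / (bq w c₁ c₂ e.1 + e.2) *
      (c₁ / (3 * w ^ 2) + e.1) - r‖ < η₂ := by
    refine ((cR.sub (continuousAt_const (y := r))).norm).eventually_lt continuousAt_const ?_
    show ‖-(6 * w ^ 2 * μ) / (bq w c₁ c₂ μ + Z) * (c₁ / (3 * w ^ 2) + μ) - r‖ < η₂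
    rwa [ht, hr, sub_self, norm_zero]
  obtain ⟨ρ, hρ, hb⟩ := Metric.eventually_nhds_iff_ball.1
    ((cD.eventually_ne hD).and (n1.and n2))
  refine ⟨ρ, hρ, fun u Z' q1 q2 => ?_⟩
  exact hb (u, Z') (by
    rw [Metric.mem_ball, Prod.dist_eq]
    refine max_lt ?_ ?_
    · rw [dist_eq_norm]; exact q1
    · rw [dist_eq_norm]; exact q2)

end cont

theorem t_QRT : S_QRT := by
  intro K _ _ V _ L _ _ _ s α _ f e x₀ y₀ hdeg hon hy hH hW
  obtain ⟨δ, hδ, hb⟩ := hW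
  have hH' : ∀ v, Hc (y₀ v ^ 3)
      (cq (MvPolynomial.map (s v) f) (x₀ v) (fun a => s v (e a)) 0)
      (cq (MvPolynomial.map (s v) f) (x₀ v) (fun a => s v (e a)) 1) ≠ 0 := by
    intro v
    have h1 := hH v
    unfold H3 at h1
    have h2 := hon v
    unfold onC at h2
    rw [← h2] at h1
    exact h1
  choose ρ hρ hρb using fun v => cont1 (k₃ := cq (MvPolynomial.map (s v) f) (x₀ v)
    (fun a => s v (e a)) 2) (hy v) (hH' v) hδ
  obtain ⟨δ₁, hδ₁, hm⟩ := fin_min hρ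
  obtain ⟨δ₂, hδ₂, hc⟩ := cq_nearL (s := s) f e x₀ hδ₁
  refine ⟨min δ₁ δ₂, lt_min hδ₁ hδ₂, fun z w hzw hn t Y ht hY hYe η hη => ?_⟩
  by_cases hV : IsEmpty V
  · exact ⟨z, w, hzw, fun v => (hV.false v).elim⟩
  rw [not_isEmpty_iff] at hV
  obtain ⟨η', hη', hη'le, hdir⟩ := dir_bound (s := s) e hη
  -- the data at the places
  have hcn : ∀ v j, ‖s v (cq f z e j) -
      cq (MvPolynomial.map (s v) f) (x₀ v) (fun a => s v (e a)) j‖ < ρ v := fun v j =>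
    (hc z (fun v a => ((hn v).1 a).trans_le (min_le_right _ _)) v j).trans_le (hm v)
  set c₁ := cq f z e 0 with hc₁
  set c₂ := cq f z e 1 with hc₂
  set c₃ := cq f z e 2 with hc₃
  have dat : ∀ v, _ := fun v => hρb v (s v w) (s v c₁) (s v c₂) (s v c₃) (t v) (Y v)
    ((hn v).2.trans_le ((min_le_left _ _).trans (hm v))) (hcn v 0) (hcn v 1) (hcn v 2)
    ((ht v).trans_le ((min_le_left _ _).trans (hm v)))
    ((hY v).trans_le ((min_le_left _ _).trans (hm v)))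
  have hw0 : w ≠ 0 := by
    obtain ⟨v⟩ := hV
    exact (map_ne_zero (s v)).1 (dat v).1
  set μ : ∀ v, L v := fun v => (s v c₁ + s v c₂ * t v + s v c₃ * t v ^ 2) /
    (3 * s v w ^ 2 + 3 * s v w * (Y v - s v w) + (Y v - s v w) ^ 2) -
      s v c₁ / (3 * s v w ^ 2) with hμ
  set Z : ∀ v, L v := fun v => 2 * aq (s v w) (s v c₁) (s v c₃) (μ v) * t v +
    bq (s v w) (s v c₁) (s v c₂) (μ v) with hZ
  have hYc : ∀ v, Y v ^ 3 = s v w ^ 3 + s v c₁ * t v + s v c₂ * t v ^ 2 +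
      s v c₃ * t v ^ 3 := by
    intro v
    have h1 := hYe v
    unfold onC at h1
    rw [h1]
    have h2 : (rst (MvPolynomial.map (s v) f) (fun a => s v (z a))
        (fun a => s v (e a))).natDegree ≤ 3 := by
      rw [← rst_map]
      exact Polynomial.natDegree_map_le.trans (hdeg z)
    have h3 : s v w ^ 3 = MvPolynomial.eval (fun a => s v (z a)) (MvPolynomial.map (s v) f) := by
      unfold onC at hzw
      rw [← map_pow, hzw, MvPolynomial.eval_map, ← MvPolynomial.eval₂_id,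
        MvPolynomial.eval₂_comp_left, RingHom.comp_id]
      rfl
    rw [eval_line h2 h3, ← rst_map, Polynomial.coeff_map, Polynomial.coeff_map,
      Polynomial.coeff_map]
    rfl
  have fw : ∀ v, _ := fun v => qfwd (μ := μ v) (dat v).1 (hYc v) (dat v).2.1 rfl
  have hmu : ∀ v, _ := fun v => (dat v).2.2.2.2 (μ v) rfl
  have hZq : ∀ v, Z v ^ 2 = qv (s v (th3 f e z w).1) (fun j => s v ((th3 f e z w).2 j))
      (μ v) := by
    intro v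
    have h1 := qdisc (dat v).1 (s v c₁) (s v c₂) (s v c₃) (μ v)
    have h2 := (fw v).2
    have e1 : s v (th3 f e z w).1 = (tq (s v w) (s v c₁) (s v c₂) (s v c₃)).1 :=
      map_tq1 (s v) w c₁ c₂ c₃
    have e2 : (fun j => s v ((th3 f e z w).2 j)) =
        (tq (s v w) (s v c₁) (s v c₂) (s v c₃)).2 := by
      funext j
      exact map_tq2 (s v) w c₁ c₂ c₃ j
    rw [e1, e2, ← h1]
    show (2 * aq (s v w) (s v c₁) (s v c₃) (μ v) * t v + bq (s v w) (s v c₁) (s v c₂) (μ v)) ^ 2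
      = _
    linear_combination (4 * aq (s v w) (s v c₁) (s v c₃) (μ v)) * h2
  -- back
  have bk : ∀ v, _ := fun v => cont2 (L := L v) (c₂ := s v c₂) (Z := Z v) (dat v).1
    (hmu v).2.2 (qval (fw v).2 (hmu v).2.2) (fw v).1.symm hη' hη
  choose κ hκ hκb using bk
  obtain ⟨κ₀, hκ₀, hκm⟩ := fin_min hκ
  obtain ⟨u, Z', g1, g2⟩ := hb (th3 f e z w)
    (fun v => by
      have := (dat v).2.2.1
      rw [← map_tq1 (s v)] at this
      exact this)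
    (fun v j => by
      have := (dat v).2.2.2.1 j
      rw [← map_tq2 (s v)] at this
      exact this)
    μ Z (fun v => (hmu v).1) (fun v => (hmu v).2.1) hZq κ₀ hκ₀
  have fin : ∀ v, _ := fun v => hκb v (s v u) (s v Z') ((g2 v).1.trans_le (hκm v))
    ((g2 v).2.trans_le (hκm v))
  have hD : bq w c₁ c₂ u + Z' ≠ 0 := by
    obtain ⟨v⟩ := hV
    have := (fin v).1
    rw [← map_bq, ← map_add] at this
    exact (map_ne_zero (s v)).1 this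
  have g3 : Z' ^ 2 = bq w c₁ c₂ u ^ 2 - 4 * aq w c₁ c₃ u * (3 * w ^ 2 * u) := by
    rw [g1, qdisc hw0]
    rfl
  have g4 := qbwd hw0 g3 hD
  set T := -(6 * w ^ 2 * u) / (bq w c₁ c₂ u + Z') with hT
  clear_value T
  have sT : ∀ v, s v T = -(6 * s v w ^ 2 * s v u) /
      (bq (s v w) (s v c₁) (s v c₂) (s v u) + s v Z') := by
    intro v
    rw [hT, map_div₀, map_neg, map_mul, map_mul, map_pow, map_add, map_bq, map_ofNat]
  refine ⟨fun a => z a + T * e a, w + T * (c₁ / (3 * w ^ 2) + u), ?_, fun v => ⟨fun a => ?_, ?_⟩⟩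
  · unfold onC
    rw [g4, eval_line (hdeg z) hzw]
    rfl
  · have e1 : s v (z a + T * e a) - (s v (z a) + t v * s v (e a)) =
        (s v T - t v) * s v (e a) := by
      rw [map_add, map_mul]; ring
    rw [e1]
    refine hdir v a _ ?_
    rw [sT]
    exact (fin v).2.1
  · have e1 : s v (w + T * (c₁ / (3 * w ^ 2) + u)) - Y v =
        s v T * (s v c₁ / (3 * s v w ^ 2) + s v u) - (Y v - s v w) := by
      rw [map_add, map_mul, map_add, map_div₀, map_mul, map_pow, map_ofNat]; ring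
    rw [e1, sT]
    exact (fin v).2.2

end Pool.Agent.K6.H43.TC
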