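import Pool.Agent.K6.H43.TC.Alg

/-!
Pieces SMA, SMB, SMC (helper11): the polar trilinear form of a cubic form.
-/

set_option autoImplicit false
set_option linter.unusedSectionVars false
set_option linter.unusedSimpArgs false

open MvPolynomial

namespace Pool.Agent.K6.H43.TC.SM

/-- a symmetric trilinear form -/
structure Tri (R V : Type) [CommRing R] [AddCommGroup V] [Module R V] where
  T : V → V → V → R
  add : ∀ u u' v w, T (u + u') v w = T u v w + T u' v w
  smul : ∀ (c : R) u v w, T (c • u) v w = c * T u v w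
  s12 : ∀ u v w, T u v w = T v u w
  s23 : ∀ u v w, T u v w = T u w v

namespace Tri

variable {R V : Type} [CommRing R] [AddCommGroup V] [Module R V] (B : Tri R V)

lemma add2 (u v v' w : V) : B.T u (v + v') w = B.T u v w + B.T u v' w := by
  rw [B.s12, B.add, B.s12 v, B.s12 v']

lemma smul2 (c : R) (u v w : V) : B.T u (c • v) w = c * B.T u v w := by
  rw [B.s12, B.smul, B.s12 v]

lemma add3 (u v w w' : V) : B.T u v (w + w') = B.T u v w + B.T u v w' := by
  rw [B.s23, B.add2, B.s23 u w, B.s23 u w']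

lemma smul3 (c : R) (u v w : V) : B.T u v (c • w) = c * B.T u v w := by
  rw [B.s23, B.smul2, B.s23 u w]

lemma cube (u v : V) (t : R) : B.T (u + t • v) (u + t • v) (u + t • v) =
    B.T u u u + 3 * t * B.T u u v + 3 * t ^ 2 * B.T u v v + t ^ 3 * B.T v v v := by
  simp only [B.add, B.add2, B.add3, B.smul, B.smul2, B.smul3]
  rw [B.s12 v u u, B.s23 u v u, B.s12 v u v, B.s23 v v u, B.s12 v u v]
  ring

lemma sq (x u v : V) (t : R) : B.T x (u + t • v) (u + t • v) =
    B.T x u u + 2 * t * B.T x u v + t ^ 2 * B.T x v v := by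
  simp only [B.add, B.add2, B.add3, B.smul, B.smul2, B.smul3]
  rw [B.s23 x v u]
  ring

end Tri

section field

variable {M V : Type} [Field M] [CharZero M] [AddCommGroup V] [Module M V] (B : Tri M V)

lemma key (sm : ∀ y, (∀ v, B.T v y y = 0) → y = 0) (x : V) (hx : B.T x x x ≠ 0) (e : V)
    (he : B.T x x e = 0) (he2 : B.T x e e = 0) (he0 : e ≠ 0) (k : M)
    (h : ∀ v, B.T x x v = 0 → B.T v v v ^ 2 = k * B.T x v v ^ 3) : False := by
  apply he0
  apply sm
  have h1 : B.T e e e = 0 := by
    have := h e he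
    rw [he2] at this
    simpa using this
  -- first the vectors `v` with `B x x v = 0`
  have h2 : ∀ v, B.T x x v = 0 → B.T v e e = 0 := by
    intro v hv
    have h3 : ∀ t : M, (3 * t * B.T e e v + 3 * t ^ 2 * B.T e v v + t ^ 3 * B.T v v v) ^ 2 =
        k * (2 * t * B.T x e v + t ^ 2 * B.T x v v) ^ 3 := by
      intro t
      have h4 := h (e + t • v) (by rw [B.add3, B.smul3, he, hv]; ring)
      rw [B.cube, B.sq, h1, he2] at h4
      linear_combination h4
    have h5 : (Polynomial.X ^ 2 * ((Polynomial.C (3 * B.T e e v) +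
        Polynomial.C (3 * B.T e v v) * Polynomial.X + Polynomial.C (B.T v v v) * Polynomial.X ^ 2) ^ 2 -
        Polynomial.X * Polynomial.C k * (Polynomial.C (2 * B.T x e v) +
          Polynomial.C (B.T x v v) * Polynomial.X) ^ 3) : Polynomial M) = 0 := by
      refine Polynomial.funext fun t => ?_
      simp only [Polynomial.eval_mul, Polynomial.eval_pow, Polynomial.eval_X, Polynomial.eval_sub,
        Polynomial.eval_add, Polynomial.eval_C, Polynomial.eval_zero]
      linear_combination h3 t
    have h6 := (mul_eq_zero.1 h5).resolve_left (pow_ne_zero 2 Polynomial.X_ne_zero)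
    have h7 := congrArg (Polynomial.eval 0) h6
    simp only [Polynomial.eval_mul, Polynomial.eval_pow, Polynomial.eval_X, Polynomial.eval_sub,
        Polynomial.eval_add, Polynomial.eval_C, Polynomial.eval_zero] at h7
    have h8 : B.T e e v = 0 := by
      have h9 : (3 * B.T e e v) ^ 2 = 0 := by linear_combination h7
      have h10 := pow_eq_zero_iff (two_ne_zero) |>.1 h9
      exact (mul_eq_zero.1 h10).resolve_left three_ne_zero
    rw [B.s12, B.s23, h8]
  intro w
  have h3 : w = (w + (-(B.T x x w / B.T x x x)) • x) + (B.T x x w / B.T x x x) • x := by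
    rw [add_assoc, ← add_smul, neg_add_cancel, zero_smul, add_zero]
  rw [h3, B.add, B.smul, he2, mul_zero, add_zero]
  apply h2
  rw [B.add3, B.smul3]
  field_simp
  ring

/-- a quadratic form in two variables has a zero -/
lemma qzero [IsAlgClosed M] (x e₁ e₂ : V) (h1 : B.T x x e₁ = 0) (h2 : B.T x x e₂ = 0)
    (h3 : ∀ s : M, e₁ + s • e₂ ≠ 0) (h4 : e₂ ≠ 0) :
    ∃ e : V, e ≠ 0 ∧ B.T x x e = 0 ∧ B.T x e e = 0 := by
  by_cases h5 : B.T x e₂ e₂ = 0
  · exact ⟨e₂, h4, h2, h5⟩
  obtain ⟨δ, hδ⟩ := IsAlgClosed.exists_pow_nat_eq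
    (B.T x e₁ e₂ ^ 2 - B.T x e₁ e₁ * B.T x e₂ e₂) (n := 2) (by norm_num)
  refine ⟨e₁ + ((-B.T x e₁ e₂ + δ) / B.T x e₂ e₂) • e₂, h3 _, ?_, ?_⟩
  · rw [B.add3, B.smul3, h1, h2]; ring
  · rw [B.sq]
    field_simp
    linear_combination hδ

end field

section base

variable {F : Type} [Field F] {m : ℕ} (g : MvPolynomial (Fin m) F)

lemma pderiv_comm' (i j : Fin m) (f : MvPolynomial (Fin m) F) :
    pderiv i (pderiv j f) = pderiv j (pderiv i f) := by
  have h : ⁅(pderiv i : Derivation F (MvPolynomial (Fin m) F) (MvPolynomial (Fin m) F)),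
      (pderiv j : Derivation F (MvPolynomial (Fin m) F) (MvPolynomial (Fin m) F))⁆ = 0 := by
    refine MvPolynomial.derivation_ext fun k => ?_
    rw [Derivation.commutator_apply, pderiv_X, pderiv_X]
    rw [Pi.single_apply, Pi.single_apply]
    split_ifs <;> simp
  have h2 := congrArg (fun D => D f) h
  simp only [Derivation.commutator_apply, Derivation.zero_apply] at h2
  exact sub_eq_zero.1 h2

/-- the third partial derivatives -/
noncomputable def bb (i j k : Fin m) : F := coeff 0 (pderiv k (pderiv j (pderiv i g)))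

lemma bb_eq (hg : g.IsHomogeneous 3) (i j k : Fin m) :
    pderiv k (pderiv j (pderiv i g)) = C (bb g i j k) := by
  have h1 : (pderiv k (pderiv j (pderiv i g))).IsHomogeneous 0 := ((hg.pderiv).pderiv).pderiv
  have h2 : (pderiv k (pderiv j (pderiv i g))).totalDegree = 0 :=
    Nat.le_zero.1 h1.totalDegree_le
  exact totalDegree_eq_zero_iff_eq_C.1 h2

lemma bb_s12 (i j k : Fin m) : bb g i j k = bb g j i k := by
  unfold bb; rw [pderiv_comm' j i]

lemma bb_s23 (i j k : Fin m) : bb g i j k = bb g i k j := by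
  unfold bb; rw [pderiv_comm' k j]

/-- the polar form -/
noncomputable def BT {R : Type} [CommRing R] [Algebra F R] (u v w : Fin m → R) : R :=
  ∑ i, ∑ j, ∑ k, algebraMap F R (bb g i j k) * u i * v j * w k

/-- the polar form, as a symmetric trilinear form -/
noncomputable def BTri (R : Type) [CommRing R] [Algebra F R] : Tri R (Fin m → R) where
  T := BT g
  add u u' v w := by
    unfold BT
    simp only [← Finset.sum_add_distrib]
    refine Finset.sum_congr rfl fun i _ => Finset.sum_congr rfl fun j _ =>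
      Finset.sum_congr rfl fun k _ => ?_
    rw [Pi.add_apply]; ring
  smul c u v w := by
    unfold BT
    simp only [Finset.mul_sum]
    refine Finset.sum_congr rfl fun i _ => Finset.sum_congr rfl fun j _ =>
      Finset.sum_congr rfl fun k _ => ?_
    rw [Pi.smul_apply, smul_eq_mul]; ring
  s12 u v w := by
    unfold BT
    rw [Finset.sum_comm]
    refine Finset.sum_congr rfl fun i _ => Finset.sum_congr rfl fun j _ =>
      Finset.sum_congr rfl fun k _ => ?_
    rw [bb_s12]; ring
  s23 u v w := by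
    unfold BT
    refine Finset.sum_congr rfl fun i _ => ?_
    rw [Finset.sum_comm]
    refine Finset.sum_congr rfl fun j _ =>
      Finset.sum_congr rfl fun k _ => ?_
    rw [bb_s23]; ring

lemma BT_map {R S : Type} [CommRing R] [Algebra F R] [CommRing S] [Algebra F S] (φ : R →ₐ[F] S)
    (u v w : Fin m → R) :
    φ (BT g u v w) = BT g (fun i => φ (u i)) (fun i => φ (v i)) (fun i => φ (w i)) := by
  unfold BT
  simp only [map_sum, map_mul, AlgHom.commutes]

lemma two_pderiv (hg : g.IsHomogeneous 3) (i : Fin m) :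
    2 * pderiv i g = ∑ j, ∑ k, C (bb g i j k) * X j * X k := by
  have h1 := (hg.pderiv (i := i)).sum_X_mul_pderiv
  have h2 : ∀ j, pderiv j (pderiv i g) = ∑ k, X k * C (bb g i j k) := by
    intro j
    have h3 := ((hg.pderiv (i := i)).pderiv (i := j)).sum_X_mul_pderiv
    simp only [bb_eq g hg] at h3
    rw [h3]
    norm_num
  simp only [h2] at h1
  have h4 : (2 : MvPolynomial (Fin m) F) * pderiv i g = (3 - 1) • pderiv i g := by
    rw [nsmul_eq_mul]; norm_num
  rw [h4, ← h1]
  refine Finset.sum_congr rfl fun j _ => ?_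
  rw [Finset.mul_sum]
  refine Finset.sum_congr rfl fun k _ => ?_
  ring

lemma six_g (hg : g.IsHomogeneous 3) :
    6 * g = ∑ i, ∑ j, ∑ k, C (bb g i j k) * X i * X j * X k := by
  have h1 := hg.sum_X_mul_pderiv
  have h2 : (6 : MvPolynomial (Fin m) F) * g = 2 * ((3 : ℕ) • g) := by
    rw [nsmul_eq_mul]; push_cast; ring
  rw [h2, ← h1, Finset.mul_sum]
  refine Finset.sum_congr rfl fun i _ => ?_
  have h3 : (2 : MvPolynomial (Fin m) F) * (X i * pderiv i g) = X i * (2 * pderiv i g) := by ring
  rw [h3, two_pderiv g hg, Finset.mul_sum]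
  refine Finset.sum_congr rfl fun j _ => ?_
  rw [Finset.mul_sum]
  refine Finset.sum_congr rfl fun k _ => ?_
  ring

lemma aeval_six (hg : g.IsHomogeneous 3) {R : Type} [CommRing R] [Algebra F R] (u : Fin m → R) :
    6 * aeval u g = BT g u u u := by
  have h1 := congrArg (aeval u) (six_g g hg)
  simp only [map_mul, map_sum, aeval_X, aeval_C, map_ofNat] at h1
  exact h1

lemma aeval_two (hg : g.IsHomogeneous 3) {R : Type} [CommRing R] [Algebra F R] (u : Fin m → R)
    (i : Fin m) : 2 * aeval u (pderiv i g) = BT g (Pi.single i 1) u u := by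
  have h1 := congrArg (aeval u) (two_pderiv g hg i)
  simp only [map_mul, map_sum, aeval_X, aeval_C, map_ofNat] at h1
  rw [h1]
  unfold BT
  refine Eq.trans ?_ (Finset.sum_eq_single i ?_ ?_).symm
  · simp
  · intro b _ hb
    simp [hb]
  · simp

end base

section lines

variable {F : Type} [Field F] [CharZero F] {m : ℕ} (g : MvPolynomial (Fin m) F)

lemma ln_six (hg : g.IsHomogeneous 3) (z e : Fin m → F) :
    6 * ln g z e = Polynomial.C (BT g z z z) + 3 * Polynomial.X * Polynomial.C (BT g z z e) +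
      3 * Polynomial.X ^ 2 * Polynomial.C (BT g z e e) +
      Polynomial.X ^ 3 * Polynomial.C (BT g e e e) := by
  have h1 : ∀ u v w : Fin m → F, Polynomial.C (BT g u v w) =
      (BTri g (Polynomial F)).T (fun i => Polynomial.C (u i)) (fun i => Polynomial.C (v i))
        (fun i => Polynomial.C (w i)) := by
    intro u v w
    have := BT_map g (Polynomial.CAlgHom (R := F) (A := F)) u v w
    exact this
  rw [h1, h1, h1, h1, ← (BTri g (Polynomial F)).cube]
  unfold ln
  rw [aeval_six g hg]
  change (BTri g (Polynomial F)).T _ _ _ = _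
  have h2 : (fun i => Polynomial.C (z i) + Polynomial.C (e i) * Polynomial.X) =
      (fun i => Polynomial.C (z i)) + (Polynomial.X : Polynomial F) • (fun i => Polynomial.C (e i)) := by
    funext i
    change _ = Polynomial.C (z i) + Polynomial.X * Polynomial.C (e i)
    ring
  rw [h2]

lemma six_C (p : Polynomial F) (j : ℕ) : (6 * p).coeff j = 6 * p.coeff j := by
  have : (6 : Polynomial F) = Polynomial.C 6 := (map_ofNat Polynomial.C 6).symm
  rw [this, Polynomial.coeff_C_mul]

lemma c0 (hg : g.IsHomogeneous 3) (z e : Fin m → F) :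
    (ln g z e).coeff 0 = BT g z z z / 6 := by
  have h := congrArg (fun p => Polynomial.coeff p 0) (ln_six g hg z e)
  simp only [six_C] at h
  rw [eq_div_iff (by norm_num), mul_comm, h]
  have h3 : (3 : Polynomial F) = Polynomial.C 3 := (map_ofNat Polynomial.C 3).symm
  rw [h3]
  simp [Polynomial.coeff_X, Polynomial.coeff_X_pow, Polynomial.coeff_C, mul_assoc, Polynomial.coeff_C_mul]

lemma c1 (hg : g.IsHomogeneous 3) (z e : Fin m → F) :
    (ln g z e).coeff 1 = BT g z z e / 2 := by
  have h := congrArg (fun p => Polynomial.coeff p 1) (ln_six g hg z e)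
  simp only [six_C] at h
  have h4 : 6 * (ln g z e).coeff 1 = 3 * BT g z z e := by
    rw [h]
    have h3 : (3 : Polynomial F) = Polynomial.C 3 := (map_ofNat Polynomial.C 3).symm
    rw [h3]
    simp [Polynomial.coeff_X, Polynomial.coeff_X_pow, Polynomial.coeff_C, mul_assoc, Polynomial.coeff_C_mul, Polynomial.coeff_mul_C]
  linear_combination h4 / 6

lemma c2 (hg : g.IsHomogeneous 3) (z e : Fin m → F) :
    (ln g z e).coeff 2 = BT g z e e / 2 := by
  have h := congrArg (fun p => Polynomial.coeff p 2) (ln_six g hg z e)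
  simp only [six_C] at h
  have h4 : 6 * (ln g z e).coeff 2 = 3 * BT g z e e := by
    rw [h]
    have h3 : (3 : Polynomial F) = Polynomial.C 3 := (map_ofNat Polynomial.C 3).symm
    rw [h3]
    simp [Polynomial.coeff_X, Polynomial.coeff_X_pow, Polynomial.coeff_C, mul_assoc, Polynomial.coeff_C_mul, Polynomial.coeff_mul_C]
  linear_combination h4 / 6

lemma c3 (hg : g.IsHomogeneous 3) (z e : Fin m → F) :
    (ln g z e).coeff 3 = BT g e e e / 6 := by
  have h := congrArg (fun p => Polynomial.coeff p 3) (ln_six g hg z e)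
  simp only [six_C] at h
  have h4 : 6 * (ln g z e).coeff 3 = BT g e e e := by
    rw [h]
    have h3 : (3 : Polynomial F) = Polynomial.C 3 := (map_ofNat Polynomial.C 3).symm
    rw [h3]
    simp [Polynomial.coeff_X, Polynomial.coeff_X_pow, Polynomial.coeff_C, mul_assoc, Polynomial.coeff_C_mul, Polynomial.coeff_mul_C]
  linear_combination h4 / 6

end lines

section transfer

variable {F : Type} [Field F] [CharZero F] {m : ℕ} (g : MvPolynomial (Fin m) F)

lemma transfer {σ : Type} (Φ : MvPolynomial σ F) (h : ∀ y : σ → F, eval y Φ = 0) {M : Type} [Field M]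
    [Algebra F M] (y : σ → M) : aeval y Φ = 0 := by
  have h1 : Φ = 0 := MvPolynomial.funext fun x => by rw [h x, map_zero]
  rw [h1, map_zero]

/-- evaluation of the polar form at polynomial vectors -/
lemma BT_aeval {σ : Type} {M : Type} [Field M] [Algebra F M] (y : σ → M)
    (u v w : Fin m → MvPolynomial σ F) : aeval y (BT g u v w) =
    BT g (fun i => aeval y (u i)) (fun i => aeval y (v i)) (fun i => aeval y (w i)) :=
  BT_map g (aeval y) u v w

lemma BT_eval {σ : Type} (y : σ → F)
    (u v w : Fin m → MvPolynomial σ F) : eval y (BT g u v w) =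
    BT g (fun i => eval y (u i)) (fun i => eval y (v i)) (fun i => eval y (w i)) :=
  BT_map g (aeval y) u v w

end transfer

section main

variable {F : Type} [Field F] [CharZero F] {m : ℕ} {g : MvPolynomial (Fin m) F}

lemma sm_tri (hg : g.IsHomogeneous 3) (hsm : Sm g) (y : Fin m → AlgebraicClosure F)
    (hy : ∀ v, (BTri g (AlgebraicClosure F)).T v y y = 0) : y = 0 := by
  apply hsm y
  intro j
  have h1 := aeval_two g hg y j
  rw [show BT g (Pi.single j 1) y y = 0 from hy _] at h1
  exact (mul_eq_zero.1 h1).resolve_left two_ne_zero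

variable {M : Type} [Field M] [CharZero M] (B : Tri M (Fin m → M))

/-- the linear form `v ↦ B(x,x,v)` -/
def phi (x : Fin m → M) : (Fin m → M) →ₗ[M] M where
  toFun v := B.T x x v
  map_add' u v := B.add3 x x u v
  map_smul' c v := B.smul3 c x x v

omit [CharZero M] in
lemma ex_one (hm : 2 ≤ m) (x : Fin m → M) : ∃ e, e ≠ 0 ∧ B.T x x e = 0 := by
  have h := LinearMap.ker_ne_bot_of_finrank_lt (f := phi B x) (by simp; omega)
  obtain ⟨e, he, he0⟩ := (Submodule.ne_bot_iff _).1 h
  exact ⟨e, he0, he⟩

omit [CharZero M] in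
lemma ex_two (hm : 3 ≤ m) (x : Fin m → M) (i : Fin m) :
    ∃ e, e ≠ 0 ∧ B.T x x e = 0 ∧ e i = 0 := by
  have h := LinearMap.ker_ne_bot_of_finrank_lt
    (f := (phi B x).prod (LinearMap.proj i : (Fin m → M) →ₗ[M] M)) (by simp; omega)
  obtain ⟨e, he, he0⟩ := (Submodule.ne_bot_iff _).1 h
  have h2 : (B.T x x e, e i) = ((0, 0) : M × M) := he
  rw [Prod.mk.injEq] at h2
  exact ⟨e, he0, h2.1, h2.2⟩

/-- two vectors of which no combination vanishes -/
lemma comb_ne {e₁ e₂ : Fin m → M} {i : Fin m} (h1 : e₁ i ≠ 0) (h2 : e₂ i = 0) (s : M) :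
    e₁ + s • e₂ ≠ 0 := by
  intro h
  have := congrFun h i
  simp [h2] at this
  exact h1 this

/-- a trilinear form whose discriminant on the lines through `x` vanishes is degenerate -/
lemma sma_core [IsAlgClosed M] (hm : 2 ≤ m) (sm : ∀ y, (∀ v, B.T v y y = 0) → y = 0)
    (x : Fin m → M) (hx : B.T x x x ≠ 0)
    (h : ∀ e, 3 * B.T x x e ^ 2 * B.T x e e ^ 2 - 4 * B.T x x x * B.T x e e ^ 3 -
      4 * B.T x x e ^ 3 * B.T e e e + 6 * B.T x x x * B.T x x e * B.T x e e * B.T e e e -
      B.T x x x ^ 2 * B.T e e e ^ 2 = 0) : False := by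
  have h0 : ∀ v, B.T x x v = 0 → B.T v v v ^ 2 = (-4 / B.T x x x) * B.T x v v ^ 3 := by
    intro v hv
    have h1 := h v
    rw [hv] at h1
    have h2 : B.T x x x * (B.T x x x * B.T v v v ^ 2 + 4 * B.T x v v ^ 3) = 0 := by
      linear_combination -h1
    have h3 := (mul_eq_zero.1 h2).resolve_left hx
    field_simp
    linear_combination h3
  by_cases h1 : ∃ e, e ≠ 0 ∧ B.T x x e = 0 ∧ B.T x e e = 0
  · obtain ⟨e, he0, he, he2⟩ := h1
    exact key B sm x hx e he he2 he0 _ h0
  obtain ⟨e, he0, he⟩ := ex_one B hm x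
  have he2 : B.T x e e ≠ 0 := fun h2 => h1 ⟨e, he0, he, h2⟩
  obtain ⟨i, hi⟩ := Function.ne_iff.1 he0
  have h2 : ∀ v, B.T x x v = 0 → v = (v i / e i) • e := by
    intro v hv
    by_contra hne
    apply h1
    have h3 : v + (-(v i / e i)) • e ≠ 0 := by
      intro h4
      apply hne
      rw [neg_smul, ← sub_eq_add_neg, sub_eq_zero] at h4
      exact h4
    refine qzero B x e (v + (-(v i / e i)) • e) he ?_ (comb_ne (i := i) hi ?_) h3
    · rw [B.add3, B.smul3, hv, he]; ring
    · have hi' : e i ≠ 0 := hi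
      simp only [Pi.add_apply, Pi.smul_apply, smul_eq_mul]
      field_simp
      ring
  -- the singular point
  have h3 := h0 e he
  set ρ : M := -B.T e e e / (2 * B.T x e e) with hρ
  have hy : e + ρ • x = 0 := by
    apply sm
    have e1 : B.T x (e + ρ • x) (e + ρ • x) = 0 := by
      rw [B.sq, B.s23 x e x, he, hρ]
      have h4 : B.T x x x * B.T e e e ^ 2 = -4 * B.T x e e ^ 3 := by
        rw [h3]; field_simp
      field_simp
      linear_combination h4
    have e2 : B.T e (e + ρ • x) (e + ρ • x) = 0 := by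
      rw [B.sq, B.s23 e e x, B.s12 e x x, B.s23 x e x, he, hρ, B.s12 e x e]
      field_simp
      ring
    intro w
    have h5 : w = (w + (-(B.T x x w / B.T x x x)) • x) + (B.T x x w / B.T x x x) • x := by
      rw [add_assoc, ← add_smul, neg_add_cancel, zero_smul, add_zero]
    have h6 := h2 (w + (-(B.T x x w / B.T x x x)) • x) (by
      rw [B.add3, B.smul3]
      field_simp
      ring)
    rw [h5, h6, B.add, B.smul, B.smul, e1, e2]
    ring
  have h7 : ρ = 0 := by
    have h8 : B.T x x (e + ρ • x) = 0 := by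
      rw [hy]
      have := B.smul3 0 x x 0
      rwa [zero_smul, zero_mul] at this
    rw [B.add3, B.smul3, he, zero_add] at h8
    exact (mul_eq_zero.1 h8).resolve_right hx
  rw [h7, zero_smul, add_zero] at hy
  exact he0 hy

/-- a trilinear form whose invariant on the lines through `x` is constant is degenerate -/
lemma smb_core [IsAlgClosed M] (hm : 3 ≤ m) (sm : ∀ y, (∀ v, B.T v y y = 0) → y = 0)
    (x : Fin m → M) (hx : B.T x x x ≠ 0) (k : M)
    (h : ∀ v, B.T x x v = 0 → B.T v v v ^ 2 = k * B.T x v v ^ 3) : False := by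
  obtain ⟨e, he0, he⟩ := ex_one B (by omega) x
  obtain ⟨i, hi⟩ := Function.ne_iff.1 he0
  obtain ⟨e', he0', he', hi'⟩ := ex_two B hm x i
  obtain ⟨e₀, h1, h2, h3⟩ := qzero B x e e' he he' (comb_ne (i := i) hi hi') he0'
  exact key B sm x hx e₀ h2 h3 h1 k h

/-- a cubic form in at least two variables has a zero -/
lemma czero [IsAlgClosed M] (hm : 2 ≤ m) : ∃ e : Fin m → M, e ≠ 0 ∧ B.T e e e = 0 := by
  set u : Fin m → M := Pi.single ⟨0, by omega⟩ 1 with hu
  set v : Fin m → M := Pi.single ⟨1, by omega⟩ 1 with hv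
  by_cases h1 : B.T v v v = 0
  · refine ⟨v, ?_, h1⟩
    rw [hv]
    simp
  have hd : (Polynomial.C (B.T u u u) + Polynomial.C (3 * B.T u u v) * Polynomial.X +
      Polynomial.C (3 * B.T u v v) * Polynomial.X ^ 2 +
      Polynomial.C (B.T v v v) * Polynomial.X ^ 3).degree ≠ 0 := by
    have h2 : (Polynomial.C (B.T v v v) * Polynomial.X ^ 3 +
      Polynomial.C (3 * B.T u v v) * Polynomial.X ^ 2 +
      Polynomial.C (3 * B.T u u v) * Polynomial.X + Polynomial.C (B.T u u u)).degree = 3 :=
      Polynomial.degree_cubic h1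
    rw [show Polynomial.C (B.T u u u) + Polynomial.C (3 * B.T u u v) * Polynomial.X +
      Polynomial.C (3 * B.T u v v) * Polynomial.X ^ 2 +
      Polynomial.C (B.T v v v) * Polynomial.X ^ 3 = Polynomial.C (B.T v v v) * Polynomial.X ^ 3 +
      Polynomial.C (3 * B.T u v v) * Polynomial.X ^ 2 +
      Polynomial.C (3 * B.T u u v) * Polynomial.X + Polynomial.C (B.T u u u) by ring, h2]
    norm_num
  obtain ⟨t, ht⟩ := IsAlgClosed.exists_root _ hd
  refine ⟨u + t • v, comb_ne (i := ⟨0, by omega⟩) (by simp [hu]) (by simp [hv]) t, ?_⟩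
  rw [B.cube]
  simp only [Polynomial.IsRoot.def, Polynomial.eval_add, Polynomial.eval_mul, Polynomial.eval_C,
    Polynomial.eval_X, Polynomial.eval_pow] at ht
  linear_combination ht

end main

end Pool.Agent.K6.H43.TC.SM
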