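import Pool.Agent.K6.H43.TC.SmBase

/-!
Piece SMA (helper11).
-/

set_option autoImplicit false

open MvPolynomial

namespace Pool.Agent.K6.H43.TC

open SM

theorem t_SMA : S_SMA := by
  intro F _ _ m g hg hsm hm x hx
  by_contra hcon
  push Not at hcon
  let M := AlgebraicClosure F
  let B := BTri g M
  let x' : Fin m → M := fun i => algebraMap F M (x i)
  have hx' : B.T x' x' x' ≠ 0 := by
    have h1 : B.T x' x' x' = algebraMap F M (BT g x x x) := (BT_map g (Algebra.ofId F M) x x x).symm
    rw [h1, Ne, map_eq_zero, ← aeval_six g hg]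
    simpa using hx
  refine sma_core B hm (sm_tri hg hsm) x' hx' fun e => ?_
  let u : Fin m → MvPolynomial (Fin m) F := fun i => C (x i)
  have h2 := transfer (3 * BT g u u X ^ 2 * BT g u X X ^ 2 - 4 * BT g u u u * BT g u X X ^ 3 -
      4 * BT g u u X ^ 3 * BT g X X X + 6 * BT g u u u * BT g u u X * BT g u X X * BT g X X X -
      BT g u u u ^ 2 * BT g X X X ^ 2) (fun y => by
    simp only [map_sub, map_add, map_mul, map_pow, map_ofNat, BT_eval, eval_X]
    have h3 := hcon y
    simp only [c0 g hg, c1 g hg, c2 g hg, c3 g hg] at h3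
    have h4 : (fun i => eval y (u i)) = x := funext fun i => eval_C _
    rw [h4]
    unfold Dc at h3
    linear_combination 48 * h3) e
  simp only [map_sub, map_add, map_mul, map_pow, map_ofNat, BT_aeval, aeval_X] at h2
  have h4 : (fun i => aeval e (u i)) = x' := funext fun i => aeval_C _ _
  rw [h4] at h2
  exact h2

end Pool.Agent.K6.H43.TC
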