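import Pool.Agent.K6.H43.TC.SmBase

/-!
Piece SMB (helper11).
-/

set_option autoImplicit false

open MvPolynomial

namespace Pool.Agent.K6.H43.TC

open SM

lemma SM.fs {M : Type} [Field M] {a q c G H : M} (ha : a ≠ 0) (hH : H ≠ 0)
    (h : a * c ^ 2 * H ^ 3 + G ^ 2 * q ^ 3 = 0) : c ^ 2 = (-(G ^ 2 / H ^ 3) / a) * q ^ 3 := by
  field_simp
  linear_combination h

theorem t_SMB : S_SMB := by
  intro F _ _ m g hg hsm hm x hx ⟨e', he'⟩
  by_contra hcon
  push Not at hcon
  let M := AlgebraicClosure F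
  let B := BTri g M
  let x' : Fin m → M := fun i => algebraMap F M (x i)
  have hx' : B.T x' x' x' ≠ 0 := by
    have h1 : B.T x' x' x' = algebraMap F M (BT g x x x) := (BT_map g (Algebra.ofId F M) x x x).symm
    rw [h1, Ne, map_eq_zero, ← aeval_six g hg]
    simpa using hx
  set G' := Gc ((ln g x e').coeff 0) ((ln g x e').coeff 1) ((ln g x e').coeff 2)
        ((ln g x e').coeff 3) with hG'
  set H' := Hc ((ln g x e').coeff 0) ((ln g x e').coeff 1) ((ln g x e').coeff 2) with hH'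
  have hHM : algebraMap F M H' ≠ 0 := by rwa [Ne, map_eq_zero]
  -- `G = p³/4 - 3 a p q / 8 + a² c / 8`, `H = (p² - a q) / 4`
  refine smb_core B hm (sm_tri hg hsm) x' hx'
    (-(algebraMap F M G' ^ 2 / algebraMap F M H' ^ 3) / B.T x' x' x') fun v hv => ?_
  let u : Fin m → MvPolynomial (Fin m) F := fun i => C (x i)
  have h2 := transfer ((2 * BT g u u X ^ 3 - 3 * BT g u u u * BT g u u X * BT g u X X +
      BT g u u u ^ 2 * BT g X X X) ^ 2 * C H' ^ 3 -
      C G' ^ 2 * (BT g u u X ^ 2 - BT g u u u * BT g u X X) ^ 3) (fun y => by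
    simp only [map_sub, map_add, map_mul, map_pow, map_ofNat, BT_eval, eval_X, eval_C]
    have h3 := hcon y e'
    rw [← hG', ← hH'] at h3
    simp only [c0 g hg, c1 g hg, c2 g hg, c3 g hg] at h3
    have h4 : (fun i => eval y (u i)) = x := funext fun i => eval_C _
    rw [h4]
    unfold Gc Hc at h3
    linear_combination 64 * h3) v
  simp only [map_sub, map_add, map_mul, map_pow, map_ofNat, BT_aeval, aeval_X, aeval_C] at h2
  have h4 : (fun i => aeval v (u i)) = x' := funext fun i => aeval_C _ _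
  rw [h4] at h2
  change (2 * B.T x' x' v ^ 3 - 3 * B.T x' x' x' * B.T x' x' v * B.T x' v v +
      B.T x' x' x' ^ 2 * B.T v v v) ^ 2 * _ ^ 3 -
      _ ^ 2 * (B.T x' x' v ^ 2 - B.T x' x' x' * B.T x' v v) ^ 3 = 0 at h2
  rw [hv] at h2
  have h5 : B.T x' x' x' ^ 3 * (B.T x' x' x' * B.T v v v ^ 2 * (algebraMap F M H') ^ 3 +
      (algebraMap F M G') ^ 2 * B.T x' v v ^ 3) = 0 := by linear_combination h2
  have h6 := (mul_eq_zero.1 h5).resolve_left (pow_ne_zero 3 hx')
  exact fs hx' hHM h6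

end Pool.Agent.K6.H43.TC
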