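import Pool.Agent.K6.H43.TC.SmBase

/-!
Piece SMC (helper11).
-/

set_option autoImplicit false

open MvPolynomial

namespace Pool.Agent.K6.H43.TC

open SM

theorem t_SMC : S_SMC := by
  intro F _ _ m g hg hsm hm
  by_contra hcon
  push Not at hcon
  let M := AlgebraicClosure F
  let B := BTri g M
  let u : Fin m → MvPolynomial (Fin m ⊕ Fin m) F := fun i => X (Sum.inl i)
  let v : Fin m → MvPolynomial (Fin m ⊕ Fin m) F := fun i => X (Sum.inr i)
  have h1 : BT g u u u * (BT g u u v ^ 2 - BT g u u u * BT g u v v) = 0 := by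
    refine MvPolynomial.funext fun y => ?_
    simp only [map_sub, map_add, map_mul, map_pow, map_ofNat, BT_eval, map_zero]
    have e1 : (fun i => eval y (u i)) = fun i => y (Sum.inl i) := funext fun i => eval_X _
    have e2 : (fun i => eval y (v i)) = fun i => y (Sum.inr i) := funext fun i => eval_X _
    rw [e1, e2]
    by_cases h2 : eval (fun i => y (Sum.inl i)) g = 0
    · have h3 := aeval_six g hg (fun i => y (Sum.inl i))
      rw [show aeval (fun i => y (Sum.inl i)) g = 0 from h2, mul_zero] at h3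
      rw [← h3, zero_mul]
    · have h3 := hcon _ h2 (fun i => y (Sum.inr i))
      simp only [c0 g hg, c1 g hg, c2 g hg] at h3
      unfold Hc at h3
      linear_combination 4 * BT g (fun i => y (Sum.inl i)) (fun i => y (Sum.inl i)) (fun i => y (Sum.inl i)) * h3
  have hev : ∀ x e : Fin m → M, aeval (Sum.elim x e) (BT g u u v) = B.T x x e ∧
      aeval (Sum.elim x e) (BT g u u u) = B.T x x x ∧
      aeval (Sum.elim x e) (BT g u v v) = B.T x e e := by
    intro x e
    have e1 : (fun i => aeval (Sum.elim x e) (u i)) = x := funext fun i => by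
      rw [aeval_X]; rfl
    have e2 : (fun i => aeval (Sum.elim x e) (v i)) = e := funext fun i => by
      rw [aeval_X]; rfl
    rw [BT_aeval, BT_aeval, BT_aeval, e1, e2]
    exact ⟨rfl, rfl, rfl⟩
  obtain ⟨x₀, hx₀, hx₁⟩ := czero B hm
  rcases mul_eq_zero.1 h1 with h2 | h2
  · -- the form is zero
    have h3 : ∀ x : Fin m → M, B.T x x x = 0 := by
      intro x
      rw [← (hev x x).2.1, h2, map_zero]
    apply hx₀
    apply sm_tri hg hsm
    intro w
    have h4 : ∀ t : M, 3 * t * B.T x₀ x₀ w + 3 * t ^ 2 * B.T x₀ w w = 0 := by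
      intro t
      have h5 := h3 (x₀ + t • w)
      rw [B.cube, h3, h3] at h5
      linear_combination h5
    have h5 := h4 1
    have h6 := h4 (-1)
    change B.T w x₀ x₀ = 0
    rw [B.s12, B.s23]
    linear_combination h5 / 6 - h6 / 6
  · apply hx₀
    apply sm_tri hg hsm
    intro w
    have h3 := congrArg (aeval (Sum.elim x₀ w)) h2
    rw [map_sub, map_pow, map_mul, (hev x₀ w).1, (hev x₀ w).2.1, (hev x₀ w).2.2, hx₁, zero_mul,
      sub_zero, map_zero] at h3
    change B.T w x₀ x₀ = 0
    rw [B.s12, B.s23]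
    exact pow_eq_zero_iff two_ne_zero |>.1 h3

end Pool.Agent.K6.H43.TC
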